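import Mathlib

/-! Basic notions: quasi homomorphisms and approximately equivariant columns. -/

open scoped BigOperators ComplexOrder MatrixOrder Matrix InnerProductSpace
open Finset

namespace Pool.Agent.P.MP_a35bd4_an

noncomputable section

universe u v

/-- homogeneous unital approximate star homomorphism -/
structure QH {A : Type u} [CStarAlgebra A] {H : Type v} [NormedAddCommGroup H]
    [InnerProductSpace ℂ H] [CompleteSpace H] (Φ : A → H →L[ℂ] H) (ε : ℝ) : Prop where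
  eps_nonneg : 0 ≤ ε
  norm_le : ∀ a, ‖Φ a‖ ≤ 3 * ‖a‖
  add : ∀ a b, ‖Φ (a + b) - Φ a - Φ b‖ ≤ ε * (‖a‖ + ‖b‖)
  mul : ∀ a b, ‖Φ (a * b) - Φ a * Φ b‖ ≤ ε * (‖a‖ * ‖b‖)
  star : ∀ a, ‖Φ (star a) - star (Φ a)‖ ≤ ε * ‖a‖
  smul : ∀ (c : ℂ) a, ‖Φ (c • a) - c • Φ a‖ ≤ ε * (‖c‖ * ‖a‖)
  hom : ∀ (t : ℝ) a, 0 ≤ t → Φ (t • a) = t • Φ a
  one : Φ 1 = 1

/-- sandwich of a scalar matrix by a column -/
def sand {A : Type*} [Ring A] [StarRing A] [Algebra ℂ A] {E : Type*} [Fintype E] (z : E → A) :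
    Matrix E E ℂ →ₗ[ℂ] A where
  toFun y := ∑ e, ∑ e', y e e' • (star (z e) * z e')
  map_add' x y := by simp [add_smul, sum_add_distrib]
  map_smul' c x := by simp [smul_sum, smul_smul]

lemma sand_apply {A : Type*} [Ring A] [StarRing A] [Algebra ℂ A] {E : Type*} [Fintype E]
    (z : E → A) (y : Matrix E E ℂ) : sand z y = ∑ e, ∑ e', y e e' • (star (z e) * z e') := rfl

lemma sand_one {A : Type*} [Ring A] [StarRing A] [Algebra ℂ A] {E : Type*} [Fintype E]
    [DecidableEq E] (z : E → A) : sand z 1 = ∑ e, star (z e) * z e := by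
  simp [sand_apply, Matrix.one_apply]

lemma sand_star_mul {A : Type*} [Ring A] [StarRing A] [Algebra ℂ A] [StarModule ℂ A] {E : Type*}
    [Fintype E] (z : E → A) (x y : Matrix E E ℂ) :
    sand z (star x * y) = ∑ e, star (∑ e', x e e' • z e') * ∑ e', y e e' • z e' := by
  simp only [sand_apply, star_sum, star_smul, sum_mul_sum, Matrix.mul_apply, Matrix.star_apply,
    sum_smul, smul_mul_smul_comm]
  rw [sum_comm (s := univ) (t := univ)
    (f := fun e e' => ∑ e'', (star (x e e') * y e e'') • (star (z e') * z e''))]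
  refine sum_congr rfl fun e _ => sum_comm

lemma sand_star {A : Type*} [Ring A] [StarRing A] [Algebra ℂ A] [StarModule ℂ A] {E : Type*}
    [Fintype E] (z : E → A) (y : Matrix E E ℂ) : sand z (star y) = star (sand z y) := by
  simp only [sand_apply, star_sum, star_smul, star_mul, star_star, Matrix.star_apply]
  exact sum_comm

lemma sand_nonneg {A : Type*} [Ring A] [StarRing A] [Algebra ℂ A] [StarModule ℂ A]
    [PartialOrder A] [StarOrderedRing A] {E : Type*} [Fintype E] (z : E → A) {y : Matrix E E ℂ}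
    (hy : 0 ≤ y) : 0 ≤ sand z y := by
  classical
  obtain ⟨B, rfl⟩ := CStarAlgebra.nonneg_iff_eq_star_mul_self.1 hy
  rw [sand_star_mul]
  exact sum_nonneg fun e _ => star_mul_self_nonneg _

lemma sand_mono {A : Type*} [Ring A] [StarRing A] [Algebra ℂ A] [StarModule ℂ A]
    [PartialOrder A] [StarOrderedRing A] {E : Type*} [Fintype E] (z : E → A) {x y : Matrix E E ℂ}
    (h : x ≤ y) : sand z x ≤ sand z y := by
  have := sand_nonneg z (sub_nonneg.2 h)
  rwa [map_sub, sub_nonneg] at this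

lemma sum_inner_nonneg {H : Type*} [NormedAddCommGroup H] [InnerProductSpace ℂ H] {E : Type*}
    [Fintype E] (v : E → H) {y : Matrix E E ℂ} (hy : y.PosSemidef) :
    0 ≤ (∑ e, ∑ e', y e e' * ⟪v e, v e'⟫_ℂ).re := by
  classical
  obtain ⟨B, rfl⟩ :=
    CStarAlgebra.nonneg_iff_eq_star_mul_self.1 (Matrix.nonneg_iff_posSemidef.2 hy)
  have e : ∑ e, ∑ e', (star B * B) e e' * ⟪v e, v e'⟫_ℂ =
      ∑ k, ⟪∑ e, B k e • v e, ∑ e, B k e • v e⟫_ℂ := by
    simp only [Matrix.mul_apply, Matrix.star_apply, sum_mul, sum_inner, inner_sum,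
      inner_smul_left, inner_smul_right, mul_sum]
    rw [sum_comm (s := univ) (t := univ)
      (f := fun k e' => ∑ e, B k e' * ((starRingEnd ℂ) (B k e) * ⟪v e, v e'⟫_ℂ))]
    rw [sum_comm]
    refine sum_congr rfl fun e' _ => ?_
    rw [sum_comm]
    refine sum_congr rfl fun k _ => sum_congr rfl fun e _ => ?_
    simp only [RCLike.star_def]
    ring
  rw [e, Complex.re_sum]
  exact sum_nonneg fun k _ => inner_self_nonneg (𝕜 := ℂ)

/-- complete positivity of a map into matrices -/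
def IsCP {A : Type*} [Ring A] [StarRing A] [Algebra ℂ A] {E : Type} (Y : A →ₗ[ℂ] Matrix E E ℂ) :
    Prop :=
  ∀ (n : ℕ) (a : Fin n → A),
    (Matrix.of fun p q : Fin n × E => Y (star (a p.1) * a q.1) p.2 q.2).PosSemidef

/-- a column with row and column bounds and a unital completely positive map to matrices -/
structure ECData (A : Type u) [CStarAlgebra A] [PartialOrder A] where
  E : Type
  [fin : Fintype E]
  [dec : DecidableEq E]
  z : E → A
  Y : A →ₗ[ℂ] Matrix E E ℂ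
  col : ∑ e, star (z e) * z e = 1
  row : ∑ e, z e * star (z e) ≤ (2 : ℝ) • (1 : A)
  one : Y 1 = 1
  cp : IsCP Y

attribute [instance] ECData.fin ECData.dec

/-- approximation property by such data -/
def HasEC (A : Type u) [CStarAlgebra A] [PartialOrder A] : Prop :=
  ∀ (F : Finset A) (η : ℝ), 0 < η → ∃ d : ECData A, ∀ a ∈ F, ‖sand d.z (d.Y a) - a‖ ≤ η

section cp

variable {A : Type*} [CStarAlgebra A] [PartialOrder A] [StarOrderedRing A] {E : Type} [Fintype E]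
  [DecidableEq E] {Y : A →ₗ[ℂ] Matrix E E ℂ}

omit [DecidableEq E] in
lemma IsCP.nonneg (h : IsCP Y) {a : A} (ha : 0 ≤ a) : 0 ≤ Y a := by
  obtain ⟨b, rfl⟩ := CStarAlgebra.nonneg_iff_eq_star_mul_self.1 ha
  exact Matrix.nonneg_iff_posSemidef.2 ((h 1 (fun _ => b)).submatrix (fun e => (0, e)))

omit [DecidableEq E] in
lemma IsCP.mono (h : IsCP Y) {a b : A} (hab : a ≤ b) : Y a ≤ Y b := by
  have := h.nonneg (sub_nonneg.2 hab)
  rwa [map_sub, sub_nonneg] at this

omit [DecidableEq E] [Fintype E] [PartialOrder A] [StarOrderedRing A] in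
lemma IsCP.map_star (h : IsCP Y) (a : A) : Y (star a) = star (Y a) := by
  ext e e'
  have := (h 2 ![1, a]).isHermitian.apply (1, e) (0, e')
  simpa using this.symm

omit [PartialOrder A] [StarOrderedRing A] in
lemma IsCP.schwarz (h : IsCP Y) (h1 : Y 1 = 1) (a : A) :
    star (Y a) * Y a ≤ Y (star a * a) := by
  have hp := (h 2 ![1, a]).conjTranspose_mul_mul_same
    (Matrix.of fun (p : Fin 2 × E) (e : E) => ![-(Y a), (1 : Matrix E E ℂ)] p.1 p.2 e)
  have e : ((Matrix.of fun (p : Fin 2 × E) (e : E) => ![-(Y a), (1 : Matrix E E ℂ)] p.1 p.2 e)ᴴ *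
      Matrix.of fun p q : Fin 2 × E => Y (star (![1, a] p.1) * ![1, a] q.1) p.2 q.2) *
      (Matrix.of fun (p : Fin 2 × E) (e : E) => ![-(Y a), (1 : Matrix E E ℂ)] p.1 p.2 e) =
      Y (star a * a) - star (Y a) * Y a := by
    ext e e'
    simp only [Matrix.mul_apply, Fintype.sum_prod_type, Fin.sum_univ_two, Matrix.of_apply,
      Matrix.conjTranspose_apply, Matrix.cons_val_zero, Matrix.cons_val_one, star_one, one_mul,
      mul_one, h1, h.map_star, Matrix.sub_apply, Matrix.star_apply, Matrix.neg_apply,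
      Matrix.one_apply, Matrix.cons_val_fin_one]
    simp [add_mul, sum_add_distrib, apply_ite star]
    ring
  rw [e] at hp
  exact Matrix.le_iff.2 hp

open scoped Matrix.Norms.L2Operator in
lemma IsCP.norm_le (h : IsCP Y) (h1 : Y 1 = 1) (a : A) : ‖Y a‖ ≤ ‖a‖ := by
  have a1 : star (Y a) * Y a ≤ algebraMap ℝ _ (‖a‖ ^ 2) := by
    refine (h.schwarz h1 a).trans ((h.mono CStarAlgebra.star_mul_le_algebraMap_norm_sq).trans ?_)
    rw [Algebra.algebraMap_eq_smul_one, Algebra.algebraMap_eq_smul_one, Y.map_smul_of_tower, h1]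
  have a2 := (CStarAlgebra.norm_le_iff_le_algebraMap (star (Y a) * Y a) (by positivity)
    (star_mul_self_nonneg _)).2 a1
  rw [CStarRing.norm_star_mul_self] at a2
  nlinarith [norm_nonneg (Y a), norm_nonneg a]

end cp

section order

variable {A : Type*} [CStarAlgebra A] [PartialOrder A] [StarOrderedRing A]

lemma le_smul_one_of_norm {a : A} (ha : star a = a) {r : ℝ} (h : ‖a‖ ≤ r) : a ≤ r • (1 : A) := by
  refine (IsSelfAdjoint.le_algebraMap_norm_self (show IsSelfAdjoint a from ha)).trans ?_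
  rw [Algebra.algebraMap_eq_smul_one]
  exact smul_le_smul_of_nonneg_right h zero_le_one

lemma norm_le_of_le_smul_one {a : A} (ha : 0 ≤ a) {r : ℝ} (hr : 0 ≤ r) (h : a ≤ r • (1 : A)) :
    ‖a‖ ≤ r := by
  rw [CStarAlgebra.norm_le_iff_le_algebraMap a hr ha, Algebra.algebraMap_eq_smul_one]
  exact h

lemma star_eq_of_nonneg {a : A} (ha : 0 ≤ a) : star a = a := (IsSelfAdjoint.of_nonneg ha).star_eq

lemma star_mul_self_le (a : A) : star a * a ≤ (‖a‖ ^ 2) • (1 : A) := by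
  rw [← Algebra.algebraMap_eq_smul_one]
  exact CStarAlgebra.star_mul_le_algebraMap_norm_sq

lemma norm_sq_le_of_star_mul_self_le {a : A} {r : ℝ} (hr : 0 ≤ r)
    (h : star a * a ≤ r • (1 : A)) : ‖a‖ ^ 2 ≤ r := by
  have := norm_le_of_le_smul_one (star_mul_self_nonneg a) hr h
  rwa [CStarRing.norm_star_mul_self, ← sq] at this

lemma norm_smul_one_le (r : ℝ) (hr : 0 ≤ r) : ‖r • (1 : A)‖ ≤ r :=
  norm_le_of_le_smul_one (smul_nonneg hr zero_le_one) hr le_rfl

lemma star_add_mul_self_le (a b : A) :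
    star (a + b) * (a + b) ≤ (2 : ℝ) • (star a * a) + (2 : ℝ) • (star b * b) := by
  have := star_mul_self_nonneg (a - b)
  rw [← sub_nonneg]
  convert this using 1
  simp only [star_add, star_sub, two_smul]
  noncomm_ring

/-- the defect of approximate equivariance of the column -/
lemma ECData.defect_le (d : ECData A) (a : A) :
    ‖∑ e, star (d.z e * a - ∑ e', d.Y a e e' • d.z e') * (d.z e * a - ∑ e', d.Y a e e' • d.z e')‖
      ≤ 2 * ‖a‖ * ‖sand d.z (d.Y a) - a‖ + ‖sand d.z (d.Y (star a * a)) - star a * a‖ := by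
  set b := sand d.z (d.Y a) with hb
  have e1 : ∑ e, star (d.z e) * ∑ e', d.Y a e e' • d.z e' = b := by
    simp only [hb, sand_apply, mul_sum, mul_smul_comm]
  have e2 : ∑ e, star (∑ e', d.Y a e e' • d.z e') * d.z e = star b := by
    rw [← e1, star_sum]
    simp only [star_mul, star_star]
  have e3 : ∑ e, star (d.z e * a - ∑ e', d.Y a e e' • d.z e') *
      (d.z e * a - ∑ e', d.Y a e e' • d.z e') =
      star a * a - star a * b - star b * a + sand d.z (star (d.Y a) * d.Y a) := by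
    rw [sand_star_mul, ← e2, ← e1]
    have : star a * a = star a * (∑ e, star (d.z e) * d.z e) * a := by rw [d.col, mul_one]
    rw [this]
    simp only [mul_sum (s := univ) (f := fun e => star (d.z e) * d.z e), sum_mul,
      mul_sum (s := univ) (f := fun e => star (d.z e) * ∑ e', d.Y a e e' • d.z e'),
      ← sum_sub_distrib, ← sum_add_distrib]
    refine sum_congr rfl fun e _ => ?_
    simp only [star_sub, star_mul]
    noncomm_ring
  have h0 : 0 ≤ ∑ e, star (d.z e * a - ∑ e', d.Y a e e' • d.z e') *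
      (d.z e * a - ∑ e', d.Y a e e' • d.z e') := sum_nonneg fun e _ => star_mul_self_nonneg _
  have h1 : sand d.z (star (d.Y a) * d.Y a) ≤ sand d.z (d.Y (star a * a)) :=
    sand_mono _ (d.cp.schwarz d.one a)
  refine (CStarAlgebra.norm_le_norm_of_nonneg_of_le h0 (b := star a * a - star a * b - star b * a
    + sand d.z (d.Y (star a * a))) (by rw [e3]; gcongr)).trans ?_
  have e4 : star a * a - star a * b - star b * a + sand d.z (d.Y (star a * a)) =
      -(star a * (b - a)) - star (b - a) * a + (sand d.z (d.Y (star a * a)) - star a * a) := by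
    simp only [star_sub]
    noncomm_ring
  rw [e4]
  refine (norm_add_le _ _).trans (add_le_add_left ?_ _)
  refine (norm_sub_le _ _).trans ?_
  rw [norm_neg]
  have n1 := norm_mul_le (star a) (b - a)
  have n2 := norm_mul_le (star (b - a)) a
  rw [norm_star] at n1 n2
  nlinarith

end order

section qh

variable {A : Type u} [CStarAlgebra A] {H : Type v} [NormedAddCommGroup H]
  [InnerProductSpace ℂ H] [CompleteSpace H] {Φ : A → H →L[ℂ] H} {ε : ℝ}

lemma QH.zero (h : QH Φ ε) : Φ 0 = 0 := by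
  have := h.hom 0 0 le_rfl
  simpa using this

lemma QH.sum (h : QH Φ ε) {I : Type*} (s : Finset I) (a : I → A) :
    ‖Φ (∑ i ∈ s, a i) - ∑ i ∈ s, Φ (a i)‖ ≤ ε * s.card * ∑ i ∈ s, ‖a i‖ := by
  classical
  induction s using Finset.induction_on with
  | empty => simp [h.zero]
  | insert j s hj ih =>
    rw [sum_insert hj, sum_insert hj, sum_insert hj, card_insert_of_notMem hj]
    have h1 := h.add (a j) (∑ i ∈ s, a i)
    have h2 : ‖∑ i ∈ s, a i‖ ≤ ∑ i ∈ s, ‖a i‖ := norm_sum_le _ _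
    have e : Φ (a j + ∑ i ∈ s, a i) - (Φ (a j) + ∑ i ∈ s, Φ (a i)) =
        (Φ (a j + ∑ i ∈ s, a i) - Φ (a j) - Φ (∑ i ∈ s, a i)) +
          (Φ (∑ i ∈ s, a i) - ∑ i ∈ s, Φ (a i)) := by abel
    rw [e]
    refine (norm_add_le _ _).trans ?_
    have h3 := h.eps_nonneg
    have h4 : 0 ≤ ε * s.card * ‖a j‖ := by positivity
    have h5 := mul_le_mul_of_nonneg_left h2 h3
    push_cast
    nlinarith

lemma QH.neg (h : QH Φ ε) (a : A) : ‖Φ (-a) + Φ a‖ ≤ ε * ‖a‖ := by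
  have := h.smul (-1) a
  simpa using this

lemma QH.sub (h : QH Φ ε) (a b : A) : ‖Φ (a - b) - (Φ a - Φ b)‖ ≤ 2 * ε * (‖a‖ + ‖b‖) := by
  have h1 := h.add a (-b)
  have h2 := h.neg b
  rw [norm_neg] at h1
  have e : Φ (a - b) - (Φ a - Φ b) = (Φ (a + -b) - Φ a - Φ (-b)) + (Φ (-b) + Φ b) := by
    rw [← sub_eq_add_neg]
    abel
  rw [e]
  refine (norm_add_le _ _).trans ?_
  have := h.eps_nonneg
  nlinarith [norm_nonneg a, mul_nonneg this (norm_nonneg a)]

lemma QH.star_mul (h : QH Φ ε) (a b : A) :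
    ‖Φ (Star.star a * b) - Star.star (Φ a) * Φ b‖ ≤ 4 * ε * (‖a‖ * ‖b‖) := by
  have h1 := h.mul (Star.star a) b
  have h2 := h.star a
  have h3 := h.norm_le b
  rw [norm_star] at h1
  have e : Φ (Star.star a * b) - Star.star (Φ a) * Φ b =
      (Φ (Star.star a * b) - Φ (Star.star a) * Φ b) +
        (Φ (Star.star a) - Star.star (Φ a)) * Φ b := by noncomm_ring
  rw [e]
  refine (norm_add_le _ _).trans ?_
  have h4 : ‖(Φ (Star.star a) - Star.star (Φ a)) * Φ b‖ ≤ (ε * ‖a‖) * (3 * ‖b‖) :=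
    (norm_mul_le _ _).trans (mul_le_mul h2 h3 (norm_nonneg _)
      (mul_nonneg h.eps_nonneg (norm_nonneg _)))
  nlinarith

omit [CompleteSpace H] in
lemma abs_re_inner_le (T : H →L[ℂ] H) {ζ η : H} (hζ : ‖ζ‖ ≤ 1) (hη : ‖η‖ ≤ 1) :
    |(⟪η, T ζ⟫_ℂ).re| ≤ ‖T‖ := by
  refine (Complex.abs_re_le_norm _).trans ((norm_inner_le_norm _ _).trans ?_)
  have h1 : ‖T ζ‖ ≤ ‖T‖ := (T.le_opNorm ζ).trans (mul_le_of_le_one_right (norm_nonneg _) hζ)
  calc ‖η‖ * ‖T ζ‖ ≤ 1 * ‖T‖ := by gcongr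
    _ = _ := one_mul _

omit [CompleteSpace H] in
lemma norm_le_of_re_inner (T : H →L[ℂ] H) {c : ℝ} (hc : 0 ≤ c)
    (h : ∀ ζ η : H, ‖ζ‖ ≤ 1 → ‖η‖ ≤ 1 → (⟪η, T ζ⟫_ℂ).re ≤ c) : ‖T‖ ≤ c := by
  refine T.opNorm_le_of_unit_norm hc fun ζ hζ => ?_
  by_cases h0 : T ζ = 0
  · simpa [h0] using hc
  · have hn : 0 < ‖T ζ‖ := norm_pos_iff.2 h0
    have := h ζ (((‖T ζ‖⁻¹ : ℝ) : ℂ) • T ζ) hζ.le (by
      rw [norm_smul, Complex.norm_real, norm_inv, norm_norm, inv_mul_cancel₀ hn.ne'])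
    rw [inner_smul_left, Complex.conj_ofReal, inner_self_eq_norm_sq_to_K] at this
    have e : ((‖T ζ‖⁻¹ : ℝ) : ℂ) * ((‖T ζ‖ : ℝ) : ℂ) ^ 2 = ((‖T ζ‖ : ℝ) : ℂ) := by
      have : ((‖T ζ‖ : ℝ) : ℂ) ≠ 0 := by exact_mod_cast hn.ne'
      push_cast
      field_simp
    erw [e] at this
    simpa using this

lemma re_inner_star_mul (S T : H →L[ℂ] H) (ζ η : H) :
    ⟪η, (Star.star S * T) ζ⟫_ℂ = ⟪S η, T ζ⟫_ℂ := by
  rw [ContinuousLinearMap.star_eq_adjoint, ContinuousLinearMap.mul_apply,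
    ContinuousLinearMap.adjoint_inner_right]

lemma QH.inner_star_mul (h : QH Φ ε) (a b : A) {ζ η : H} (hζ : ‖ζ‖ ≤ 1) (hη : ‖η‖ ≤ 1) :
    |(⟪η, Φ (Star.star a * b) ζ⟫_ℂ).re - (⟪Φ a η, Φ b ζ⟫_ℂ).re| ≤ 4 * ε * (‖a‖ * ‖b‖) := by
  have := (abs_re_inner_le _ hζ hη).trans (h.star_mul a b)
  rwa [ContinuousLinearMap.sub_apply, inner_sub_right, re_inner_star_mul, Complex.sub_re] at this

lemma QH.norm_sq (h : QH Φ ε) (a : A) {ζ : H} (hζ : ‖ζ‖ ≤ 1) :
    |(⟪ζ, Φ (Star.star a * a) ζ⟫_ℂ).re - ‖Φ a ζ‖ ^ 2| ≤ 4 * ε * ‖a‖ ^ 2 := by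
  have := h.inner_star_mul a a hζ hζ
  rw [show (⟪Φ a ζ, Φ a ζ⟫_ℂ).re = ‖Φ a ζ‖ ^ 2 from inner_self_eq_norm_sq (𝕜 := ℂ) _] at this
  rwa [sq ‖a‖]

lemma QH.mono [PartialOrder A] [StarOrderedRing A] (h : QH Φ ε) {a b : A} (ha : 0 ≤ a)
    (hab : a ≤ b) {ζ : H} (hζ : ‖ζ‖ ≤ 1) :
    (⟪ζ, Φ a ζ⟫_ℂ).re ≤ (⟪ζ, Φ b ζ⟫_ℂ).re + 6 * ε * ‖b‖ := by
  obtain ⟨c, hc⟩ := CStarAlgebra.nonneg_iff_eq_star_mul_self.1 (sub_nonneg.2 hab)
  have n1 : ‖a‖ ≤ ‖b‖ := CStarAlgebra.norm_le_norm_of_nonneg_of_le ha hab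
  have n2 : ‖b - a‖ ≤ ‖b‖ :=
    CStarAlgebra.norm_le_norm_of_nonneg_of_le (sub_nonneg.2 hab) (sub_le_self _ ha)
  have h1 := (abs_re_inner_le _ hζ hζ).trans (h.add a (b - a))
  have h2 := h.norm_sq c hζ
  have n3 : ‖c‖ ^ 2 = ‖b - a‖ := by rw [hc, CStarRing.norm_star_mul_self, sq]
  rw [← hc, n3] at h2
  rw [add_sub_cancel, ContinuousLinearMap.sub_apply, ContinuousLinearMap.sub_apply,
    inner_sub_right, inner_sub_right, Complex.sub_re, Complex.sub_re] at h1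
  have h3 := h.eps_nonneg
  have := (abs_le.1 h1).1
  have := (abs_le.1 h2).1
  nlinarith [sq_nonneg ‖Φ c ζ‖, mul_le_mul_of_nonneg_left n1 h3, mul_le_mul_of_nonneg_left n2 h3]

end qh

end

end Pool.Agent.P.MP_a35bd4_an
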