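import Pool.Agent.P.MP_a35bd4_an.Unital

/-! The completely positive approximation property gives equivariant columns. -/

open scoped BigOperators ComplexOrder MatrixOrder Matrix Matrix.Norms.L2Operator Kronecker Topology
open Finset Filter

namespace Pool.Agent.P.MP_a35bd4_an

noncomputable section

universe u

section unital

variable {A : Type u} [CStarAlgebra A] [PartialOrder A] [StarOrderedRing A]

/-- amplification -/
def amp (J : Type) [DecidableEq J] {E : Type} (Y : A →ₗ[ℂ] Matrix E E ℂ) :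
    A →ₗ[ℂ] Matrix (J × E) (J × E) ℂ where
  toFun a := (1 : Matrix J J ℂ) ⊗ₖ Y a
  map_add' a b := by rw [map_add, Matrix.kronecker_add]
  map_smul' c a := by rw [map_smul, Matrix.kronecker_smul, RingHom.id_apply]

omit [PartialOrder A] [StarOrderedRing A] in
lemma amp_one (J : Type) [DecidableEq J] {E : Type} [DecidableEq E] {Y : A →ₗ[ℂ] Matrix E E ℂ}
    (h : Y 1 = 1) : amp J Y 1 = 1 := by
  change (1 : Matrix J J ℂ) ⊗ₖ Y 1 = 1
  rw [h, Matrix.one_kronecker_one]

omit [PartialOrder A] [StarOrderedRing A] in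
lemma IsCP.amp (J : Type) [DecidableEq J] [Fintype J] {E : Type} [Fintype E]
    {Y : A →ₗ[ℂ] Matrix E E ℂ} (h : IsCP Y) : IsCP (amp J Y) := fun n a =>
  ((Matrix.PosSemidef.one (n := J)).kronecker (h n a)).submatrix
    fun p : Fin n × J × E => (p.2.1, p.1, p.2.2)

omit [PartialOrder A] [StarOrderedRing A] in
lemma sand_amp (J : Type) [DecidableEq J] [Fintype J] {E : Type} [Fintype E]
    (Y : A →ₗ[ℂ] Matrix E E ℂ) (z : J × E → A) (a : A) :
    sand z (amp J Y a) = ∑ j, sand (fun e => z (j, e)) (Y a) := by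
  change sand z ((1 : Matrix J J ℂ) ⊗ₖ Y a) = _
  simp only [sand_apply, Fintype.sum_prod_type, Matrix.kroneckerMap_apply, Matrix.one_apply]
  refine sum_congr rfl fun j _ => sum_congr rfl fun e _ => ?_
  rw [sum_comm]
  simp

lemma exists_ECData {E : Type} [Fintype E] [DecidableEq E] (b : E → A)
    (Y : A →ₗ[ℂ] Matrix E E ℂ) (hb : ∑ e, star (b e) * b e = 1) (h1 : Y 1 = 1) (hcp : IsCP Y) :
    ∃ d : ECData A, ∀ a, sand d.z (d.Y a) = sand b (Y a) := by
  set r := ∑ e, b e * star (b e) with hr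
  have hr0 : 0 ≤ r := sum_nonneg fun e _ => mul_star_self_nonneg _
  have hp : IsStrictlyPositive (1 + r) := isStrictlyPositive_one.add_nonneg hr0
  obtain ⟨θ, h2, h3⟩ : ∃ θ : A, star θ = θ ∧ θ * (1 + r) * θ = 1 :=
    ⟨_, star_eq_of_nonneg CFC.rpow_nonneg, CFC.conjugate_rpow_neg_one_half _ hp⟩
  let C : Option E → A := fun j => j.elim θ fun e => star (b e) * θ
  have hC : ∑ j, star (C j) * C j = 1 := by
    rw [Fintype.sum_option, ← h3, hr]
    simp only [C, Option.elim, star_mul, star_star, h2, mul_add, add_mul, mul_one, mul_sum,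
      sum_mul, mul_assoc]
  have hC' : ∀ x y : A, ∑ j, star (C j * x) * (C j * y) = star x * y := fun x y => by
    have : star x * y = star x * (∑ j, star (C j) * C j) * y := by rw [hC, mul_one]
    rw [this]
    simp only [star_mul, mul_sum, sum_mul, mul_assoc]
  have h4 : θ * r * θ ≤ 1 := by
    rw [← h3]
    have := star_left_conjugate_le_conjugate (le_add_of_nonneg_left (zero_le_one (α := A)) :
      r ≤ 1 + r) θ
    rwa [h2] at this
  refine ⟨⟨Option E × E, fun p => C p.1 * b p.2, amp _ Y, ?_, ?_, amp_one _ h1, hcp.amp _⟩,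
    fun a => ?_⟩
  · rw [Fintype.sum_prod_type, sum_comm]
    simp only [hC', hb]
  · have e : ∑ p : Option E × E, C p.1 * b p.2 * star (C p.1 * b p.2) =
        θ * r * θ + ∑ e, star (b e) * (θ * r * θ) * b e := by
      rw [Fintype.sum_prod_type, Fintype.sum_option, hr]
      simp only [C, Option.elim, star_mul, star_star, h2, mul_sum, sum_mul, mul_assoc]
    rw [e, two_smul]
    refine add_le_add h4 ?_
    rw [← hb]
    exact sum_le_sum fun e _ => by simpa using star_left_conjugate_le_conjugate h4 (b e)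
  · change sand (fun p : Option E × E => C p.1 * b p.2) (amp _ Y a) = _
    rw [sand_amp]
    simp only [sand_apply]
    rw [sum_comm]
    refine sum_congr rfl fun e _ => ?_
    rw [sum_comm]
    simp only [← smul_sum, hC']

/-- direct sum with a scalar map -/
def osum {E : Type} (Y : A →ₗ[ℂ] Matrix E E ℂ) (l : A →ₗ[ℂ] ℂ) :
    A →ₗ[ℂ] Matrix (Option E) (Option E) ℂ where
  toFun a := Matrix.of fun o o' => match o, o' with
    | some e, some e' => Y a e e'
    | none, none => l a
    | _, _ => 0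
  map_add' a b := by
    ext o o'
    cases o <;> cases o' <;> simp
  map_smul' c a := by
    ext o o'
    cases o <;> cases o' <;> simp

omit [PartialOrder A] [StarOrderedRing A] in
lemma IsCP.osum {E : Type} [Fintype E] [DecidableEq E] {Y : A →ₗ[ℂ] Matrix E E ℂ} (h : IsCP Y)
    {l : A →ₗ[ℂ] ℂ} (hl : ∀ a b, l (star a * b) = star (l a) * l b) : IsCP (osum Y l) := by
  intro n a
  have h1 := (h n a).conjTranspose_mul_mul_same
    (Matrix.of fun (p : Fin n × E) (q : Fin n × Option E) =>
      if (p.1, some p.2) = q then (1 : ℂ) else 0)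
  have h2 := Matrix.posSemidef_vecMulVec_star_self
    (fun q : Fin n × Option E => if q.2 = none then l (a q.1) else 0)
  convert h1.add h2 using 1
  ext ⟨i, o⟩ ⟨j, o'⟩
  cases o <;> cases o' <;>
    simp [MP_a35bd4_an.osum, Matrix.mul_apply, Matrix.vecMulVec_apply, hl, Fintype.sum_prod_type,
      ite_and, apply_ite star]

end unital

lemma exists_gram {A D : Type*} [NonUnitalRing A] [StarRing A] [Module ℂ A] [NonUnitalRing D]
    [StarRing D] [Module ℂ D] {φ : A →ₗ[ℂ] D}
    (h : ∀ (n : ℕ) (y : Matrix (Fin n) (Fin n) A),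
      ∃ z : Matrix (Fin n) (Fin n) D, (star y * y).map φ = star z * z) (n : ℕ) (x : Fin n → A) :
    ∃ z : Matrix (Fin n) (Fin n) D, ∀ i j, φ (star (x i) * x j) = ∑ l, star (z l i) * z l j := by
  cases n with
  | zero => exact ⟨0, fun i => i.elim0⟩
  | succ n =>
    obtain ⟨z, hz⟩ := h (n + 1) (Matrix.of fun l j => if l = 0 then x j else 0)
    refine ⟨z, fun i j => ?_⟩
    have := congrFun (congrFun hz i) j
    simpa [Matrix.mul_apply, apply_ite star] using this

section nonunital

variable {A : Type u} [NonUnitalCStarAlgebra A] [PartialOrder A] [StarOrderedRing A] {k : ℕ}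

/-- unital extension -/
def uext (φ : A →ₗ[ℂ] Matrix (Fin k) (Fin k) ℂ) :
    Unitization ℂ A →ₗ[ℂ] Matrix (Fin k) (Fin k) ℂ where
  toFun a := φ a.snd + a.fst • 1
  map_add' a b := by
    simp only [Unitization.snd_add, Unitization.fst_add, map_add, add_smul]
    abel
  map_smul' c a := by simp [smul_smul]

lemma isCP_uext {φ : A →ₗ[ℂ] Matrix (Fin k) (Fin k) ℂ}
    (h : ∀ (n : ℕ) (y : Matrix (Fin n) (Fin n) A),
      ∃ z : Matrix (Fin n) (Fin n) (Matrix (Fin k) (Fin k) ℂ), (star y * y).map φ = star z * z)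
    (hφ : ∀ a, ‖φ a‖ ≤ ‖a‖) : IsCP (uext φ) := by
  have h0 : ∀ (n : ℕ) (x : Fin n → A), (Matrix.of fun p q : Fin n × Fin k =>
      φ (star (x p.1) * x q.1) p.2 q.2).PosSemidef := fun n x => by
    obtain ⟨z, hz⟩ := exists_gram h n x
    convert Matrix.posSemidef_conjTranspose_mul_self
      (Matrix.of fun r q : Fin n × Fin k => z r.1 q.1 r.2 q.2) using 1
    ext p q
    simp [hz, Matrix.mul_apply, Matrix.sum_apply, Fintype.sum_prod_type]
  have hc : Continuous φ := AddMonoidHomClass.continuous_of_bound φ 1 (by simpa using hφ)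
  intro n a
  have hu := CStarAlgebra.increasingApproximateUnit A
  have t1 : ∀ m : A, Tendsto (fun e => e * m * e) (CStarAlgebra.approximateUnit A) (𝓝 m) :=
    fun m => by
      rw [tendsto_iff_norm_sub_tendsto_zero]
      have a1 := tendsto_iff_norm_sub_tendsto_zero.1 (hu.tendsto_mul_left m)
      have a2 := tendsto_iff_norm_sub_tendsto_zero.1 (hu.tendsto_mul_right m)
      refine squeeze_zero' (Eventually.of_forall fun _ => norm_nonneg _) ?_
        (by simpa using a1.add a2)
      filter_upwards [hu.eventually_norm] with e he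
      have e1 : e * m * e - m = e * (m * e - m) + (e * m - m) := by noncomm_ring
      rw [e1]
      refine (norm_add_le _ _).trans (add_le_add_left ((norm_mul_le _ _).trans
        (mul_le_of_le_one_left (norm_nonneg _) he)) _)
  rw [← Matrix.nonneg_iff_posSemidef]
  refine ge_of_tendsto (x := CStarAlgebra.approximateUnit A)
    (f := fun e => Matrix.of fun p q : Fin n × Fin k =>
      (φ (e * (star (a p.1) * a q.1).snd * e) + (star (a p.1) * a q.1).fst • 1) p.2 q.2) ?_ ?_
  · refine tendsto_pi_nhds.2 fun p => tendsto_pi_nhds.2 fun q => ?_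
    exact ((continuous_apply_apply p.2 q.2).tendsto _).comp
      (((hc.tendsto _).comp (t1 _)).add_const _)
  filter_upwards [hu.eventually_norm, hu.eventually_star_eq] with e he he'
  have b1 : (1 - φ (e * e)).PosSemidef := by
    have c1 : 0 ≤ φ (star e * e) :=
      Matrix.nonneg_iff_posSemidef.2 ((h0 1 fun _ => e).submatrix fun i => (0, i))
    rw [he'] at c1
    have c2 := le_smul_one_of_norm (star_eq_of_nonneg c1) ((hφ _).trans ((norm_mul_le _ _).trans
      (mul_le_one₀ he (norm_nonneg _) he)))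
    rw [one_smul] at c2
    exact Matrix.le_iff.1 c2
  have b2 := (Matrix.posSemidef_vecMulVec_star_self fun i => (a i).fst).kronecker b1
  rw [Matrix.nonneg_iff_posSemidef]
  refine Eq.subst (motive := Matrix.PosSemidef) ?_
    ((h0 n fun i => (a i).fst • e + (a i).snd * e).add b2)
  ext p q
  simp [Matrix.vecMulVec_apply, he', mul_add, add_mul, mul_sub, mul_assoc, smul_smul,
    smul_mul_assoc, mul_smul_comm]
  ring

theorem hasEC_of_cpap (h : ∀ (F : Finset A) (η : ℝ), 0 < η →
    ∃ (k : ℕ) (φ : A →ₗ[ℂ] Matrix (Fin k) (Fin k) ℂ) (ψ : Matrix (Fin k) (Fin k) ℂ →ₗ[ℂ] A),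
      (∀ (n : ℕ) (y : Matrix (Fin n) (Fin n) A),
        ∃ z : Matrix (Fin n) (Fin n) (Matrix (Fin k) (Fin k) ℂ), (star y * y).map φ = star z * z) ∧
      (∀ (n : ℕ) (y : Matrix (Fin n) (Fin n) (Matrix (Fin k) (Fin k) ℂ)),
        ∃ z : Matrix (Fin n) (Fin n) A, (star y * y).map ψ = star z * z) ∧
      (∀ a, ‖Matrix.toEuclideanCLM (𝕜 := ℂ) (φ a)‖ ≤ ‖a‖) ∧
      (∀ M, ‖ψ M‖ ≤ ‖Matrix.toEuclideanCLM (𝕜 := ℂ) M‖) ∧ ∀ a ∈ F, ‖ψ (φ a) - a‖ < η) :
    HasEC (Unitization ℂ A) := by
  classical
  intro F η hη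
  obtain ⟨k, φ, ψ, h1, h2, h3, h4, h5⟩ := h (F.image fun a => a.snd) η hη
  simp only [Matrix.l2_opNorm_toEuclideanCLM] at h3 h4
  obtain ⟨X, hX⟩ : ∃ X : Matrix (Fin k) (Fin k) A,
      ∀ i j, ψ (Matrix.single i j 1) = ∑ l, star (X l i) * X l j := by
    cases k with
    | zero => exact ⟨0, fun i => i.elim0⟩
    | succ k =>
      obtain ⟨X, hX⟩ := exists_gram h2 (k + 1) (fun j => Matrix.single 0 j 1)
      refine ⟨X, fun i j => ?_⟩
      rw [← hX]
      simp [Matrix.star_eq_conjTranspose]
  have hψ : ∀ M, (ψ M : Unitization ℂ A) =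
      ∑ l, sand (fun i => (X l i : Unitization ℂ A)) M := fun M => by
    conv_lhs => rw [Matrix.matrix_eq_sum_single M]
    have : ∀ i j, Matrix.single i j (M i j) = M i j • Matrix.single i j (1 : ℂ) := fun i j => by
      simp
    simp only [this, map_sum, map_smul, hX, sand_apply, ← Unitization.inrHom_apply ℂ ℂ,
      smul_sum]
    simp only [Unitization.inrHom_apply, Unitization.inr_mul, Unitization.inr_star]
    exact (sum_congr rfl fun i _ => sum_comm).trans sum_comm
  have b1 : (ψ 1 : Unitization ℂ A) ≤ 1 := by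
    have c1 : (0 : Unitization ℂ A) ≤ ψ 1 := by
      rw [hψ]
      exact sum_nonneg fun l _ => sand_nonneg _ zero_le_one
    have c2 := le_smul_one_of_norm (star_eq_of_nonneg c1) (r := 1) (by
      rw [Unitization.norm_inr]
      exact (h4 1).trans norm_one_le')
    rwa [one_smul] at c2
  obtain ⟨c, hc⟩ := CStarAlgebra.nonneg_iff_eq_star_mul_self.1 (sub_nonneg.2 b1)
  let b : Option (Fin k × Fin k) → Unitization ℂ A := fun o => o.elim c fun p => X p.1 p.2
  let Y := osum (amp (Fin k) (uext φ)) (Unitization.fstHom ℂ A).toLinearMap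
  have hs : ∀ a, sand b (Y a) = ψ (uext φ a) + a.fst • (1 - ψ 1) := fun a => by
    rw [hψ, hc, ← sand_amp (Fin k) (uext φ) (fun p => (X p.1 p.2 : Unitization ℂ A))]
    simp [sand_apply, Fintype.sum_option, Y, osum, b, add_comm]
  have hY : Y 1 = 1 := by
    have : amp (Fin k) (uext φ) 1 = 1 := amp_one _ (by simp [uext])
    ext o o'
    cases o <;> cases o' <;> simp [Y, osum, this, Matrix.one_apply]
  obtain ⟨d, hd⟩ := exists_ECData b Y (by
    rw [← sand_one, ← hY, hs]
    simp [uext]) hY (((isCP_uext h1 h3).amp _).osum (by simp))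
  refine ⟨d, fun a ha => ?_⟩
  have e : sand b (Y a) - a = (ψ (φ a.snd) - a.snd : A) := by
    rw [hs]
    ext <;> simp [uext, sub_eq_add_neg]
  rw [hd, e, Unitization.norm_inr]
  exact (h5 _ (mem_image_of_mem _ ha)).le

end nonunital

end

end Pool.Agent.P.MP_a35bd4_an
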