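import Pool.Agent.P.MP_a35bd4_an.Stine

/-! Correcting an almost invariant operator to a commuting projection. -/

open scoped BigOperators InnerProductSpace Topology
open MeasureTheory ProbabilityTheory Filter

namespace Pool.Agent.P.MP_a35bd4_an

noncomputable section

universe u v

section spectral

variable {B : Type*} [CStarAlgebra B]

lemma exists_proj {q : B} (hq : star q = q) {θ : ℝ} (hθ0 : 0 ≤ θ) (hθ : θ ≤ 1 / 8)
    (h : ‖q * q - q‖ ≤ θ) :
    ∃ p : B, star p = p ∧ p * p = p ∧ ‖p - q‖ ≤ 2 * θ ∧ ∀ x, Commute x q → Commute x p := by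
  have hq' : IsSelfAdjoint q := hq
  let g : ℝ → ℝ := fun t => max 0 (min 1 (2 * t - 1 / 2))
  have hg : Continuous g := by fun_prop
  have hsp : ∀ t ∈ spectrum ℝ q, |t * t - t| ≤ θ := fun t ht => by
    have := norm_apply_le_norm_cfc (fun t : ℝ => t * t - t) q ht
    rw [cfc_sub .., cfc_mul .., cfc_id' ℝ q] at this
    exact this.trans h
  have hg1 : ∀ t ∈ spectrum ℝ q, (g t = 0 ∧ |t| ≤ 2 * θ) ∨ (g t = 1 ∧ |1 - t| ≤ 2 * θ) :=
    fun t ht => by
      have h1 := abs_le.1 (hsp t ht)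
      by_cases h2 : t ≤ 1 / 2
      · have h3 : t ≤ 1 / 4 := by nlinarith
        refine Or.inl ⟨max_eq_left (min_le_of_right_le (by linarith)), ?_⟩
        rw [abs_le]
        constructor <;> nlinarith
      · have h3 : 3 / 4 ≤ t := by nlinarith
        refine Or.inr ⟨?_, ?_⟩
        · simp only [g]
          rw [min_eq_left (by linarith), max_eq_right zero_le_one]
        · rw [abs_le]
          constructor <;> nlinarith
  refine ⟨cfc g q, cfc_predicate g q, ?_, ?_, fun x hx => (hx.symm.cfc_real g).symm⟩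
  · rw [← cfc_mul ..]
    refine cfc_congr fun t ht => ?_
    rcases hg1 t ht with h1 | h1 <;> simp [h1.1]
  · conv_lhs => arg 1; arg 2; rw [← cfc_id' ℝ q]
    rw [← cfc_sub ..]
    refine norm_cfc_le (by positivity) fun t ht => ?_
    rcases hg1 t ht with h1 | h1
    · simpa [h1.1] using h1.2
    · simpa [h1.1] using h1.2

lemma exists_inv_sqrt {d : B} (hd : star d = d) {θ : ℝ} (hθ0 : 0 ≤ θ) (hθ : θ ≤ 1 / 2)
    (h : ‖d - 1‖ ≤ θ) :
    ∃ r : B, star r = r ∧ r * d * r = 1 ∧ ‖r - 1‖ ≤ 2 * θ ∧ ∀ x, Commute x d → Commute x r := by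
  have hd' : IsSelfAdjoint d := hd
  let g : ℝ → ℝ := fun t => (√(max t (1 / 2)))⁻¹
  have hg : Continuous g := by
    refine Continuous.inv₀ (by fun_prop) fun t => ?_
    exact (Real.sqrt_pos.2 (lt_of_lt_of_le (by norm_num) (le_max_right _ _))).ne'
  have hsp : ∀ t ∈ spectrum ℝ d, |t - 1| ≤ θ := fun t ht => by
    have := norm_apply_le_norm_cfc (fun t : ℝ => t - 1) d ht
    rw [cfc_sub .., cfc_id' ℝ d, cfc_const_one ℝ d] at this
    exact this.trans h
  have hg1 : ∀ t ∈ spectrum ℝ d, ∃ s : ℝ, 1 / 2 ≤ s ∧ t = s * s ∧ g t = s⁻¹ := fun t ht => by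
    have h1 := abs_le.1 (hsp t ht)
    refine ⟨√t, Real.le_sqrt_of_sq_le (by linarith), (Real.mul_self_sqrt (by linarith)).symm, ?_⟩
    simp only [g]
    rw [max_eq_left (by linarith)]
  clear_value g
  refine ⟨cfc g d, cfc_predicate g d, ?_, ?_, fun x hx => (hx.symm.cfc_real g).symm⟩
  · conv_lhs => arg 1; arg 2; rw [← cfc_id' ℝ d]
    rw [← cfc_mul .., ← cfc_mul .., ← cfc_const_one ℝ d]
    refine cfc_congr fun t ht => ?_
    obtain ⟨s, hs, h1, h2⟩ := hg1 t ht
    simp only [h2]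
    rw [h1]
    field_simp
  · rw [← cfc_const_one ℝ d, ← cfc_sub ..]
    refine norm_cfc_le (by positivity) fun t ht => ?_
    obtain ⟨s, hs, h1, h2⟩ := hg1 t ht
    have h3 := hsp t ht
    have hs0 : 0 < s := by linarith
    have e : s⁻¹ - 1 = -(t - 1) / (s * (1 + s)) := by
      rw [h1]
      field_simp
      ring
    rw [h2, e, Real.norm_eq_abs, abs_div, abs_neg, abs_of_pos (show 0 < s * (1 + s) by positivity),
      div_le_iff₀ (by positivity)]
    have : 1 / 2 ≤ s * (1 + s) := by nlinarith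
    nlinarith

lemma eq_zero_of_idem {p : B} (h : p * p = p) (h1 : ‖p‖ < 1) : p = 0 := by
  have := norm_mul_le p p
  rw [h] at this
  refine norm_le_zero_iff.1 (not_lt.1 fun h0 => ?_)
  nlinarith

end spectral

section sq

variable {A B : Type*} [CStarAlgebra A] [CStarAlgebra B] [PartialOrder B] [StarOrderedRing B]
  {X : Type*} [NormedAddCommGroup X] [MeasurableSpace X] [NormedSpace ℝ X] [BorelSpace X]
  [SecondCountableTopology X] [CompleteSpace X] (μ : Measure X) [IsGaussian μ]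

/-- a star homomorphism as a continuous linear map -/
def homL (π : A →⋆ₐ[ℂ] B) : A →L[ℂ] B :=
  π.toAlgHom.toLinearMap.mkContinuous 1 fun a => by
    simpa using NonUnitalStarAlgHom.norm_apply_le π a

omit [PartialOrder B] [StarOrderedRing B] in
lemma PG.hom (π : A →⋆ₐ[ℂ] B) {f : X → A} (hf : PG f) : PG (fun x => π (f x)) :=
  hf.clm_comp (homL π)

omit [PartialOrder B] [StarOrderedRing B] in
lemma sq2_hom (π : A →⋆ₐ[ℂ] B) {f : X → A} (hf : PG f) : sq2 μ (fun x => π (f x)) ≤ sq2 μ f := by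
  simp only [sq2, ← map_star, ← map_mul]
  have := (homL π).integral_comp_comm ((hf.star.mul hf).integrable μ)
  change ∫ x, π _ ∂μ = π _ at this
  rw [this]
  exact NonUnitalStarAlgHom.norm_apply_le π _

lemma sq2_mul_left (T : B) {f : X → B} (hf : PG f) :
    sq2 μ (fun x => T * f x) ≤ ‖T‖ ^ 2 * sq2 μ f := by
  refine (sq2_le_of_le μ ((PG.const T).mul hf) ((hf.star.mul hf).const_smul (‖T‖ ^ 2))
    fun x => ?_).trans (le_of_eq ?_)
  · simpa [mul_assoc] using star_left_conjugate_le_conjugate (star_mul_self_le T) (f x)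
  · rw [integral_smul, norm_smul, Real.norm_of_nonneg (by positivity), sq2]

omit [PartialOrder B] [StarOrderedRing B] in
lemma sq2_mul_right (T : B) {f : X → B} (hf : PG f) :
    sq2 μ (fun x => f x * T) ≤ ‖T‖ ^ 2 * sq2 μ f := by
  have e : ∀ x, star (f x * T) * (f x * T) = star T * (star (f x) * f x) * T := fun x => by
    simp [mul_assoc]
  simp only [sq2, e]
  rw [integral_mul_const_of_integrable (((PG.const _).mul (hf.star.mul hf)).integrable _),
    integral_const_mul_of_integrable ((hf.star.mul hf).integrable _)]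
  refine (norm_mul_le _ _).trans ((mul_le_mul_of_nonneg_right (norm_mul_le _ _)
    (norm_nonneg _)).trans (le_of_eq ?_))
  rw [norm_star]
  ring

lemma norm_integral_star_mul_le' {f g : X → B} (hf : PG f) (hg : PG g) {a b : ℝ} (ha : 0 ≤ a)
    (hb : 0 ≤ b) (h : sq2 μ f ≤ a ^ 2) (h' : sq2 μ g ≤ b ^ 2) :
    ‖∫ x, star (f x) * g x ∂μ‖ ≤ a * b := by
  refine le_of_forall_pos_le_add fun t ht => ?_
  have h0 : 0 < t / (b + 1) := by positivity
  refine (norm_integral_star_mul_le μ hf hg (a := a + t / (b + 1)) (by positivity) hb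
    (h.trans (by gcongr; linarith)) h').trans ?_
  have : t / (b + 1) * b ≤ t := by
    rw [div_mul_eq_mul_div, div_le_iff₀ (by positivity)]
    nlinarith
  linarith

end sq

lemma col_map {Y Z : Type*} [NormedAddCommGroup Y] [NormedSpace ℂ Y] [NormedAddCommGroup Z]
    [NormedSpace ℂ Z] {E : Type} [Fintype E] (L : Y →L[ℂ] Z) (z : E → Y)
    (G : EuclideanSpace ℂ E) : col (fun e => L (z e)) G = L (col z G) := by
  simp [col_apply]

lemma norm_sum_conj_le {A B : Type*} [CStarAlgebra A] [CStarAlgebra B] [PartialOrder B]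
    [StarOrderedRing B] {E : Type} [Fintype E] (π : A →⋆ₐ[ℂ] B) (T : B) (x y : E → A) {a b : ℝ}
    (ha : 0 ≤ a) (hb : 0 ≤ b) (hx : ‖∑ e, star (x e) * x e‖ ≤ a ^ 2)
    (hy : ‖∑ e, star (y e) * y e‖ ≤ b ^ 2) :
    ‖∑ e, star (π (x e)) * (T * π (y e))‖ ≤ 2 * ‖T‖ * a * b := by
  have s : ∀ (x : E → A) (a : ℝ), ‖∑ e, star (x e) * x e‖ ≤ a ^ 2 →
      sq2 (stdGaussian _) (fun G => π (col x G)) ≤ (2 * a) ^ 2 := fun x a hx => by
    refine (sq2_hom _ π (pg_col x)).trans ?_
    rw [sq2, integral_col, norm_smul, Real.norm_of_nonneg (by norm_num)]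
    nlinarith [norm_nonneg (∑ e, star (x e) * x e)]
  have h1 := norm_integral_star_mul_le' (stdGaussian _) ((pg_col x).hom π)
    ((PG.const T).mul ((pg_col y).hom π)) (b := ‖T‖ * (2 * b)) (by positivity) (by positivity)
    (s x a hx) ((sq2_mul_left _ T ((pg_col y).hom π)).trans (by
      rw [mul_pow]
      gcongr
      exact s y b hy))
  have h2 := integral_col (fun e => homL π (x e))
    (fun e => ((ContinuousLinearMap.mul ℂ B T).comp (homL π)) (y e))
  simp only [col_map] at h2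
  change ∫ G, star (π (col x G)) * (T * π (col y G)) ∂_ =
    (2 : ℝ) • ∑ e, star (π (x e)) * (T * π (y e)) at h2
  rw [h2, norm_smul, Real.norm_of_nonneg (by norm_num)] at h1
  linarith

variable {A : Type u} [CStarAlgebra A] [PartialOrder A] [StarOrderedRing A]

lemma ECData.norm_col (d : ECData A) : ‖∑ e, star (d.z e) * d.z e‖ ≤ 1 := by
  rw [d.col]
  simpa using norm_smul_one_le (A := A) 1 zero_le_one

lemma avg_near {B : Type*} [CStarAlgebra B] [PartialOrder B] [StarOrderedRing B]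
    (d : ECData A) (π : A →⋆ₐ[ℂ] B) {T : B} (hT : ‖T‖ ≤ 2) {s : ℝ} (hs : 0 < s)
    (h : ∀ a, ‖T * π a - π a * T‖ ≤ 16 * s ^ 2 * ‖a‖) :
    ‖∑ e, star (π (d.z e)) * (T * π (d.z e)) - T‖ ≤ 44 * s := by
  have py := pg_col d.z
  have s1 : sq2 (stdGaussian _) (col d.z) ≤ 2 := by
    rw [sq2, integral_col, norm_smul, Real.norm_of_nonneg (by norm_num)]
    linarith [d.norm_col]
  obtain ⟨u, hu, hR, h3⟩ := exists_trunc ((col d.z).restrictScalars ℝ) s1 (by
    simp only [sq2, star_star, ContinuousLinearMap.coe_restrictScalars']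
    rw [integral_col', norm_smul, Real.norm_of_nonneg (by norm_num)]
    linarith [norm_le_of_le_smul_one (Finset.sum_nonneg fun e _ => mul_star_self_nonneg _)
      zero_le_two d.row]) (inv_pos.2 hs)
  have h3 : sq2 (stdGaussian _) (fun x => u x - col d.z x) ≤ 42 * s ^ 2 := by
    refine h3.trans (le_of_eq ?_)
    field_simp
  have pu : PG u := PG.bdd (hu.sm id) hR
  let D : A →L[ℂ] B := (ContinuousLinearMap.mul ℂ B T).comp (homL π) -
    ((ContinuousLinearMap.mul ℂ B).flip T).comp (homL π)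
  have hD : ∀ a, D a = T * π a - π a * T := fun _ => rfl
  have b1 : sq2 (stdGaussian _) (fun x => D (u x)) ≤ (16 * s) ^ 2 :=
    sq2_le_of_norm _ fun x => (h _).trans (by
      calc 16 * s ^ 2 * ‖u x‖ ≤ 16 * s ^ 2 * s⁻¹ := by gcongr; exact hR x
        _ = 16 * s := by field_simp)
  have pr := (pu.sub py).hom π
  have b2 : sq2 (stdGaussian _) (fun x => D (u x - col d.z x)) ≤ 672 * s ^ 2 := by
    have c1 := sq2_sub_le (stdGaussian _) ((PG.const T).mul pr) (pr.mul (PG.const T))
    have c2 := sq2_mul_left (stdGaussian _) T pr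
    have c3 := sq2_mul_right (stdGaussian _) T pr
    have c4 := (sq2_hom (stdGaussian _) π (pu.sub py)).trans h3
    have c5 : ‖T‖ ^ 2 ≤ 4 := by nlinarith [norm_nonneg T]
    have c6 := mul_le_mul c5 c4 (sq2_nonneg _ _) (by norm_num)
    simp only [hD]
    linarith
  have b3 : sq2 (stdGaussian _) (fun x => D (col d.z x)) ≤ (44 * s) ^ 2 := by
    have := sq2_sub_le (stdGaussian _) (pu.clm_comp D) ((pu.sub py).clm_comp D)
    simp only [← map_sub, sub_sub_cancel] at this
    nlinarith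
  have b4 := norm_integral_star_mul_le (stdGaussian _) (py.hom π) (py.clm_comp D) two_pos
    (by positivity) ((sq2_hom _ π py).trans (by linarith)) b3
  have h2 := integral_col (fun e => homL π (d.z e)) (fun e => D (d.z e))
  simp only [col_map] at h2
  change ∫ G, star (π (col d.z G)) * D (col d.z G) ∂_ =
    (2 : ℝ) • ∑ e, star (π (d.z e)) * D (d.z e) at h2
  rw [h2, norm_smul, Real.norm_of_nonneg (by norm_num)] at b4
  have e : ∑ e, star (π (d.z e)) * D (d.z e) = ∑ e, star (π (d.z e)) * (T * π (d.z e)) - T := by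
    simp only [hD, mul_sub, Finset.sum_sub_distrib, ← mul_assoc, ← Finset.sum_mul, ← map_star,
      ← map_mul, ← map_sum, d.col, map_one, one_mul]
  rw [e] at b4
  linarith

lemma avg_comm {B : Type*} [CStarAlgebra B] [PartialOrder B] [StarOrderedRing B]
    (d : ECData A) (π : A →⋆ₐ[ℂ] B) (T : B) (a : A) :
    ‖π a * ∑ e, star (π (d.z e)) * (T * π (d.z e)) -
      (∑ e, star (π (d.z e)) * (T * π (d.z e))) * π a‖ ≤ 2 * ‖T‖ *
        (√(2 * ‖a‖ * ‖sand d.z (d.Y a) - a‖ + ‖sand d.z (d.Y (star a * a)) - star a * a‖) +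
        √(2 * ‖star a‖ * ‖sand d.z (d.Y (star a)) - star a‖ +
          ‖sand d.z (d.Y (star (star a) * star a)) - star (star a) * star a‖)) := by
  let r : A → d.E → A := fun a e => d.z e * a - ∑ e', d.Y a e e' • d.z e'
  have h1 := norm_sum_conj_le π T d.z (r a) zero_le_one (Real.sqrt_nonneg _)
    (by simpa using d.norm_col) ((d.defect_le a).trans (Real.sq_sqrt (by positivity)).ge)
  have h2 := norm_sum_conj_le π T (r (star a)) d.z (Real.sqrt_nonneg _) zero_le_one
    ((d.defect_le (star a)).trans (Real.sq_sqrt (by positivity)).ge) (by simpa using d.norm_col)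
  have e : π a * ∑ e, star (π (d.z e)) * (T * π (d.z e)) -
      (∑ e, star (π (d.z e)) * (T * π (d.z e))) * π a =
      ∑ e, star (π (r (star a) e)) * (T * π (d.z e)) -
        ∑ e, star (π (d.z e)) * (T * π (r a e)) := by
    simp only [r, map_sub, map_mul, map_sum, map_smul, star_sub, star_mul, map_star, star_star,
      star_sum, star_smul, d.cp.map_star, Matrix.star_apply, sub_mul, mul_sub,
      Finset.sum_sub_distrib, Finset.mul_sum, Finset.sum_mul, smul_mul_assoc, mul_smul_comm,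
      mul_assoc]
    rw [Finset.sum_comm (f := fun e e' => d.Y a e' e • (star (π (d.z e')) * (T * π (d.z e))))]
    abel
  rw [e]
  refine (norm_sub_le _ _).trans ?_
  linarith

lemma exists_commuting {K : Type*} [NormedAddCommGroup K] [InnerProductSpace ℂ K]
    [CompleteSpace K] (hA : HasEC A) (π : A →⋆ₐ[ℂ] (K →L[ℂ] K)) {T : K →L[ℂ] K}
    (hT0 : star T = T) (hT : ‖T‖ ≤ 2) {s : ℝ} (hs : 0 < s)
    (h : ∀ a, ‖T * π a - π a * T‖ ≤ 16 * s ^ 2 * ‖a‖) :
    ∃ Q : K →L[ℂ] K, star Q = Q ∧ ‖Q - T‖ ≤ 44 * s ∧ (∀ a, Commute (π a) Q) ∧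
      ∀ σ, Commute σ T → (∀ a, Commute σ (π a)) → Commute σ Q := by
  obtain ⟨I, 𝒰, d, hd⟩ := hA.exists_net
  let X : I → K →L[ℂ] K := fun i => ∑ e, star (π ((d i).z e)) * (T * π ((d i).z e))
  have b1 : ∀ i, ‖X i - T‖ ≤ 44 * s := fun i => avg_near (d i) π hT hs h
  obtain ⟨Q, hQ⟩ := exists_WT 𝒰 X (C := 44 * s + 2) fun i => by
    linarith [norm_le_norm_sub_add (X i) T, b1 i]
  refine ⟨Q, hQ.star.unique ?_, ?_, fun a => ?_, fun σ hσ hσ' => ?_⟩
  · simpa only [X, star_sum, star_mul, star_star, hT0, mul_assoc] using hQ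
  · exact (hQ.sub (WT.const T)).norm_le (by positivity) tendsto_const_nhds (by simpa using b1)
  · refine hQ.commute ?_ fun i => avg_comm (d i) π T a
    have t1 : ∀ a : A, Tendsto (fun i => √(2 * ‖a‖ * ‖sand (d i).z ((d i).Y a) - a‖ +
        ‖sand (d i).z ((d i).Y (star a * a)) - star a * a‖)) 𝒰 (𝓝 0) := fun a => by
      simpa using (((hd a).const_mul (2 * ‖a‖)).add (hd (star a * a))).sqrt
    simpa using ((t1 a).add (t1 (star a))).const_mul (2 * ‖T‖)
  · refine hQ.commute tendsto_const_nhds fun i => le_of_eq ?_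
    have : Commute σ (X i) := Commute.sum_right _ _ _ fun e _ => by
      rw [← map_star]
      exact (hσ' _).mul_right (hσ.mul_right (hσ' _))
    simp [this.eq]

end

end Pool.Agent.P.MP_a35bd4_an
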