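import Pool.Agent.P.MP_a35bd4_an.Expander

/-! A noncommutative flow lemma on expanders, by semidefinite duality. -/

open scoped BigOperators ComplexOrder MatrixOrder Matrix.Norms.L2Operator Matrix
open Finset

namespace Pool.Agent.P.MP_a35bd4_an

noncomputable section

section abstract

variable {A : Type*} [Ring A] [StarRing A] [PartialOrder A] [StarOrderedRing A] [Algebra ℝ A]
  [StarModule ℝ A]

lemma trace_key (τ : A →ₗ[ℝ] ℝ) (hc : ∀ a b, τ (a * b) = τ (b * a))
    (hp : ∀ a b, 0 ≤ a → 0 ≤ b → 0 ≤ τ (a * b)) {s m d y b : A} {κ : ℝ} (hκ : 0 < κ)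
    (hs0 : 0 ≤ s) (hT : s ≤ m + d) (hm : star m = m) (hd : star d = d) (hy0 : 0 ≤ y)
    (hy1 : y ≤ 1) (hb : m * m ≤ b) :
    τ (s * s * y) ≤ κ / 2 * τ (s * s) + (τ (b * y) + τ (d * d)) / κ := by
  have hy : star y = y := (IsSelfAdjoint.of_nonneg hy0).star_eq
  have h1y : 0 ≤ 1 - y := sub_nonneg.2 hy1
  have h1y' : star (1 - y) = 1 - y := (IsSelfAdjoint.of_nonneg h1y).star_eq
  have hsq : ∀ z : A, 0 ≤ τ (star z * z) := fun z => by
    have := hp _ 1 (star_mul_self_nonneg z) (by simpa using star_mul_self_nonneg (1 : A))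
    simpa using this
  set T := m + d with hTdef
  have hT0 : 0 ≤ T := hs0.trans hT
  have hTs : star T = T := (IsSelfAdjoint.of_nonneg hT0).star_eq
  have e1 : 2 * κ * τ (s * s * y) ≤ κ ^ 2 * τ (s * s) + τ (s * y * s * y) := by
    have hX : star (κ • (1 : A) - y) = κ • (1 : A) - y := by simp [hy]
    have h := hp s _ hs0 (star_left_conjugate_nonneg hs0 (κ • (1 : A) - y))
    rw [hX] at h
    have e : s * ((κ • (1 : A) - y) * s * (κ • (1 : A) - y)) =
        (κ ^ 2) • (s * s) - κ • (s * s * y) - κ • (s * (y * s)) + s * y * s * y := by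
      simp only [sub_mul, mul_sub, smul_mul_assoc, mul_smul_comm, one_mul, mul_one, pow_two,
        mul_smul, mul_assoc, smul_sub]
      abel
    rw [e] at h
    simp only [map_add, map_sub, map_smul, smul_eq_mul] at h
    rw [hc s (y * s), mul_assoc y, hc y (s * s)] at h
    linarith
  have e2 : τ (s * y * s * y) ≤ τ (T * y * T * y) := by
    have h1 := hp _ _ (sub_nonneg.2 hT) (star_left_conjugate_nonneg hs0 y)
    have h2 := hp _ _ (sub_nonneg.2 hT) (star_left_conjugate_nonneg hT0 y)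
    rw [hy, sub_mul, map_sub] at h1 h2
    have h3 : τ (T * (y * s * y)) = τ (s * (y * T * y)) := by
      rw [show T * (y * s * y) = (T * y) * (s * y) by noncomm_ring, hc]
      congr 1
      noncomm_ring
    rw [show s * y * s * y = s * (y * s * y) by noncomm_ring,
      show T * y * T * y = T * (y * T * y) by noncomm_ring]
    linarith
  have e3 : τ (T * y * T * y) ≤ τ (T * T * (y * y)) := by
    have h := hsq (T * y - y * T)
    have e : star (T * y - y * T) * (T * y - y * T) =
        y * (T * T * y) - y * (T * y * T) - T * y * T * y + T * (y * y * T) := by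
      simp only [star_sub, star_mul, hy, hTs]
      noncomm_ring
    rw [e] at h
    simp only [map_add, map_sub] at h
    rw [hc y (T * T * y), hc y (T * y * T), hc T (y * y * T), mul_assoc (y * y), hc (y * y),
      mul_assoc (T * T)] at h
    linarith
  have hyy : 0 ≤ y * y := by simpa [hy] using star_mul_self_nonneg y
  have e4 : τ (T * T * (y * y)) ≤ 2 * τ (m * m * (y * y)) + 2 * τ (d * d * (y * y)) := by
    have h := hp _ _ (star_mul_self_nonneg (m - d)) hyy
    have e : star (m - d) * (m - d) * (y * y) =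
        m * m * (y * y) + m * m * (y * y) + d * d * (y * y) + d * d * (y * y)
          - T * T * (y * y) := by
      simp only [star_sub, hm, hd, hTdef]
      noncomm_ring
    rw [e] at h
    simp only [map_add, map_sub] at h
    linarith
  have hyy' : 0 ≤ y - y * y := by
    have a1 := star_left_conjugate_nonneg h1y y
    have a2 := star_left_conjugate_nonneg hy0 (1 - y)
    rw [hy] at a1
    rw [h1y'] at a2
    have := add_nonneg a1 a2
    convert this using 1
    noncomm_ring
  have hmm : 0 ≤ m * m := by simpa [hm] using star_mul_self_nonneg m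
  have hdd : 0 ≤ d * d := by simpa [hd] using star_mul_self_nonneg d
  have e5 : τ (m * m * (y * y)) ≤ τ (b * y) := by
    have a1 := hp _ _ hmm hyy'
    have a2 := hp _ _ (sub_nonneg.2 hb) hy0
    rw [mul_sub, map_sub] at a1
    rw [sub_mul, map_sub] at a2
    linarith
  have e6 : τ (d * d * (y * y)) ≤ τ (d * d) := by
    have a1 := hp _ _ hdd hyy'
    have a2 := hp _ _ hdd h1y
    rw [mul_sub, map_sub] at a1 a2
    rw [mul_one] at a2
    linarith
  have : τ (s * s * y) * κ ≤ (κ / 2 * τ (s * s)) * κ + (τ (b * y) + τ (d * d)) := by nlinarith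
  calc τ (s * s * y) = τ (s * s * y) * κ / κ := by field_simp
    _ ≤ ((κ / 2 * τ (s * s)) * κ + (τ (b * y) + τ (d * d))) / κ := by gcongr
    _ = _ := by field_simp

end abstract

variable {E : Type} [Fintype E] [DecidableEq E]

/-- real part of the trace -/
def rtr (E : Type) [Fintype E] : Matrix E E ℂ →ₗ[ℝ] ℝ where
  toFun X := X.trace.re
  map_add' X Y := by simp [Matrix.trace_add]
  map_smul' c X := by simp [Matrix.trace_smul]

omit [DecidableEq E] in
lemma rtr_comm (X Y : Matrix E E ℂ) : rtr E (X * Y) = rtr E (Y * X) := by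
  simp [rtr, Matrix.trace_mul_comm X Y]

omit [DecidableEq E] in
lemma rtr_star (X : Matrix E E ℂ) : rtr E (star X) = rtr E X := by
  simp [rtr, Matrix.star_eq_conjTranspose, Matrix.trace_conjTranspose]

lemma rtr_mul_nonneg (X Y : Matrix E E ℂ) (hX : 0 ≤ X) (hY : 0 ≤ Y) : 0 ≤ rtr E (X * Y) := by
  obtain ⟨B, rfl⟩ := CStarAlgebra.nonneg_iff_eq_star_mul_self.1 hX
  rw [mul_assoc, rtr_comm]
  have h : (B * Y * star B).PosSemidef :=
    Matrix.nonneg_iff_posSemidef.1 (star_right_conjugate_nonneg hY B)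
  exact (Complex.nonneg_iff.1 h.trace_nonneg).1

omit [DecidableEq E] in
lemma rtr_star_mul_self (X : Matrix E E ℂ) : rtr E (star X * X) = ∑ a, ∑ b, ‖X a b‖ ^ 2 := by
  simp only [rtr, LinearMap.coe_mk, AddHom.coe_mk, Matrix.trace, Matrix.diag, Matrix.mul_apply,
    Matrix.star_apply, Complex.re_sum]
  rw [sum_comm]
  refine sum_congr rfl fun a _ => sum_congr rfl fun b _ => ?_
  rw [Complex.star_def, Complex.conj_mul', ← Complex.ofReal_pow, Complex.ofReal_re]

lemma exists_rep (l : Matrix E E ℂ →ₗ[ℝ] ℝ) :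
    ∃ α : Matrix E E ℂ, star α = α ∧ ∀ X : Matrix E E ℂ, star X = X → l X = rtr E (α * X) := by
  let α0 : Matrix E E ℂ := Matrix.of fun j i =>
    (l (Matrix.single i j 1) : ℂ) - Complex.I * l (Matrix.single i j Complex.I)
  have h0 : ∀ X, l X = rtr E (α0 * X) := by
    intro X
    have hX : X = ∑ i, ∑ j, ((X i j).re • Matrix.single i j (1 : ℂ) +
        (X i j).im • Matrix.single i j Complex.I) := by
      conv_lhs => rw [Matrix.matrix_eq_sum_single X]
      refine sum_congr rfl fun i _ => sum_congr rfl fun j _ => ?_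
      rw [Matrix.smul_single, Matrix.smul_single, ← Matrix.single_add]
      congr 1
      simp
    conv_lhs => rw [hX]
    simp only [map_sum, map_add, map_smul, smul_eq_mul, rtr, LinearMap.coe_mk, AddHom.coe_mk,
      Matrix.trace, Matrix.diag, Matrix.mul_apply, Complex.re_sum]
    rw [sum_comm]
    refine sum_congr rfl fun j _ => sum_congr rfl fun i _ => ?_
    simp [α0]
    ring
  refine ⟨(1 / 2 : ℝ) • (α0 + star α0), by simp [add_comm], fun X hX => ?_⟩
  rw [smul_mul_assoc, add_mul, map_smul, map_add, ← rtr_star (star α0 * X), star_mul, star_star,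
    hX, rtr_comm X, ← h0]
  simp
  ring

lemma nonneg_of_rtr {α : Matrix E E ℂ} (hα : star α = α)
    (h : ∀ P : Matrix E E ℂ, 0 ≤ P → 0 ≤ rtr E (α * P)) : 0 ≤ α := by
  have hH : α.IsHermitian := hα
  rw [Matrix.nonneg_iff_posSemidef]
  refine Matrix.PosSemidef.of_dotProduct_mulVec_nonneg hH fun v => ?_
  have h1 := h _ (Matrix.nonneg_iff_posSemidef.2 (Matrix.posSemidef_vecMulVec_self_star v))
  have e : (α * Matrix.vecMulVec v (star v)).trace = star v ⬝ᵥ (α *ᵥ v) := by
    rw [Matrix.mul_vecMulVec, Matrix.trace_vecMulVec, dotProduct_comm]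
  refine Complex.nonneg_iff.2 ⟨?_, ?_⟩
  · rw [← e]
    exact h1
  · have := hH.im_star_dotProduct_mulVec_self v
    exact this.symm

lemma dual_ineq {V D : Type} [Fintype V] [Fintype D] [Nonempty V] [Nonempty D]
    {rot : V × D ≃ V × D} {lam t κ : ℝ} (hexp : IsExp rot lam) (hκ : 0 < κ)
    (y α β : V → Matrix E E ℂ) (hy0 : ∀ k, 0 ≤ y k) (hy1 : ∀ k, y k ≤ 1)
    (ht : ∑ k, y k ≤ ((Fintype.card V : ℝ) * t) • (1 : Matrix E E ℂ))
    (hα : ∀ k, 0 ≤ α k) (hβ : ∀ k, 0 ≤ β k) (hαβ : ∀ k i, α k ≤ β (rot (k, i)).1) :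
    ∑ k, rtr E (α k * y k) ≤ (κ / 2 + (t + lam) / κ) * ∑ j, rtr E (β j) := by
  have hN : (0 : ℝ) < Fintype.card V := by exact_mod_cast Fintype.card_pos
  have hr : (0 : ℝ) < Fintype.card D := by exact_mod_cast Fintype.card_pos
  set N : ℝ := (Fintype.card V : ℝ) with hNdef
  set r : ℝ := (Fintype.card D : ℝ) with hrdef
  let σ : V → Matrix E E ℂ := fun j => CFC.sqrt (β j)
  let s : V → Matrix E E ℂ := fun k => CFC.sqrt (α k)
  have hσ0 : ∀ j, 0 ≤ σ j := fun j => CFC.sqrt_nonneg _
  have hσs : ∀ j, star (σ j) = σ j := fun j => (IsSelfAdjoint.of_nonneg (hσ0 j)).star_eq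
  have hσσ : ∀ j, σ j * σ j = β j := fun j => CFC.sqrt_mul_sqrt_self _ (hβ j)
  have hss : ∀ k, s k * s k = α k := fun k => CFC.sqrt_mul_sqrt_self _ (hα k)
  let m : Matrix E E ℂ := N⁻¹ • ∑ j, σ j
  let T : V → Matrix E E ℂ := fun k => r⁻¹ • ∑ i, σ (rot (k, i)).1
  let b : Matrix E E ℂ := N⁻¹ • ∑ j, β j
  have hm : star m = m := by simp [m, star_sum, hσs]
  have hTs : ∀ k, star (T k) = T k := fun k => by simp [T, star_sum, hσs]
  have avg_le : ∀ (a : Matrix E E ℂ) (f : D → Matrix E E ℂ), (∀ i, a ≤ f i) →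
      a ≤ r⁻¹ • ∑ i, f i := by
    intro a f h
    have h1 : ∑ _i : D, a ≤ ∑ i, f i := sum_le_sum fun i _ => h i
    have h2 : a = r⁻¹ • ∑ _i : D, a := by
      rw [sum_const, card_univ, ← Nat.cast_smul_eq_nsmul ℝ, smul_smul, ← hrdef,
        inv_mul_cancel₀ hr.ne', one_smul]
    rw [h2]
    exact smul_le_smul_of_nonneg_left h1 (by positivity)
  have hsT : ∀ k, s k ≤ m + (T k - m) := fun k => by
    rw [add_sub_cancel]
    exact avg_le _ _ fun i => CFC.sqrt_le_sqrt _ _ (hαβ k i)
  have hb : m * m ≤ b := by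
    have h1 : 0 ≤ ∑ j, star (σ j - m) * (σ j - m) :=
      sum_nonneg fun j _ => star_mul_self_nonneg _
    have hS : ∑ j, σ j = N • m := by
      simp only [m, smul_smul, mul_inv_cancel₀ hN.ne', one_smul]
    have e : ∑ j, star (σ j - m) * (σ j - m) = ∑ j, β j - N • (m * m) := by
      simp only [star_sub, hσs, hm, sub_mul, mul_sub, hσσ, sum_sub_distrib, ← sum_mul, ← mul_sum,
        hS, sum_const, card_univ, ← Nat.cast_smul_eq_nsmul ℝ, ← hNdef, smul_mul_assoc,
        mul_smul_comm]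
      abel
    rw [e] at h1
    have h2 := smul_nonneg (show (0 : ℝ) ≤ N⁻¹ by positivity) h1
    rw [smul_sub, smul_smul, inv_mul_cancel₀ hN.ne', one_smul] at h2
    exact sub_nonneg.1 h2
  have key : ∀ k, rtr E (α k * y k) ≤ κ / 2 * rtr E (α k) +
      (rtr E (b * y k) + rtr E ((T k - m) * (T k - m))) / κ := fun k => by
    have := trace_key (rtr E) rtr_comm rtr_mul_nonneg hκ (CFC.sqrt_nonneg (α k)) (hsT k) hm
      (by rw [star_sub, hTs, hm]) (hy0 k) (hy1 k) hb
    rwa [show CFC.sqrt (α k) * CFC.sqrt (α k) = α k from hss k] at this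
  set B := ∑ j, rtr E (β j) with hB
  have hβ0 : ∀ j, 0 ≤ rtr E (β j) := fun j => by
    simpa using rtr_mul_nonneg _ 1 (hβ j) zero_le_one
  have hB0 : 0 ≤ B := sum_nonneg fun j _ => hβ0 j
  have s1 : ∑ k, rtr E (α k) ≤ B := by
    have h1 : ∀ k, rtr E (α k) ≤ 𝔼 i : D, rtr E (β (rot (k, i)).1) := fun k => by
      refine le_expect univ_nonempty fun i _ => ?_
      have := rtr_mul_nonneg _ 1 (sub_nonneg.2 (hαβ k i)) zero_le_one
      rw [mul_one, map_sub] at this
      linarith
    have h2 := expect_rot rot (fun j => rtr E (β j))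
    rw [Fintype.expect_eq_sum_div_card (fun v => 𝔼 i : D, rtr E (β (rot (v, i)).1)),
      Fintype.expect_eq_sum_div_card (fun j => rtr E (β j)), div_left_inj' hN.ne'] at h2
    rw [hB, ← h2]
    exact sum_le_sum fun k _ => h1 k
  have s2 : ∑ k, rtr E (b * y k) ≤ t * B := by
    have hb0 : 0 ≤ b := smul_nonneg (by positivity) (sum_nonneg fun j _ => hβ j)
    have := rtr_mul_nonneg _ _ hb0 (sub_nonneg.2 ht)
    rw [mul_sub, map_sub, mul_smul_comm, mul_one, map_smul, mul_sum, map_sum] at this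
    have e : rtr E b = N⁻¹ * B := by simp [b, hB]
    rw [e, smul_eq_mul] at this
    have e2 : N * t * (N⁻¹ * B) = t * B := by field_simp
    linarith
  have s3 : ∑ k, rtr E ((T k - m) * (T k - m)) ≤ lam * B := by
    have e1 : ∀ k, rtr E ((T k - m) * (T k - m)) = ∑ a, ∑ c, ‖(T k - m) a c‖ ^ 2 := fun k => by
      rw [← rtr_star_mul_self, star_sub, hTs, hm]
    have e2 : ∀ j, rtr E (β j) = ∑ a, ∑ c, ‖σ j a c‖ ^ 2 := fun j => by
      rw [← rtr_star_mul_self, hσs, hσσ]
    simp only [e1, hB, e2]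
    rw [sum_comm, sum_comm (f := fun j a => ∑ c, ‖σ j a c‖ ^ 2), mul_sum]
    refine sum_le_sum fun a _ => ?_
    rw [sum_comm, sum_comm (f := fun j c => ‖σ j a c‖ ^ 2), mul_sum]
    refine sum_le_sum fun c _ => ?_
    have h := hexp (fun j => σ j a c)
    unfold ms at h
    rw [Fintype.expect_eq_sum_div_card, Fintype.expect_eq_sum_div_card (fun j => ‖σ j a c‖ ^ 2),
      ← mul_div_assoc, div_le_div_iff_of_pos_right hN] at h
    refine le_of_eq_of_le (sum_congr rfl fun k _ => ?_) h
    congr 2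
    simp only [T, m, avgOp, Matrix.sub_apply, Matrix.smul_apply, Matrix.sum_apply,
      Fintype.expect_eq_sum_div_card, hNdef, hrdef, Complex.real_smul]
    push_cast
    ring
  calc ∑ k, rtr E (α k * y k) ≤ ∑ k, (κ / 2 * rtr E (α k) +
      (rtr E (b * y k) + rtr E ((T k - m) * (T k - m))) / κ) := sum_le_sum fun k _ => key k
    _ = κ / 2 * ∑ k, rtr E (α k) +
      (∑ k, rtr E (b * y k) + ∑ k, rtr E ((T k - m) * (T k - m))) / κ := by
        rw [sum_add_distrib, ← mul_sum, ← sum_div, sum_add_distrib]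
    _ ≤ κ / 2 * B + (t * B + lam * B) / κ := by gcongr
    _ = _ := by ring

theorem flow {V D : Type} [Fintype V] [Fintype D] [Nonempty V] [Nonempty D]
    {rot : V × D ≃ V × D} {lam t κ η : ℝ} (hexp : IsExp rot lam) (hκ : 0 < κ) (hη : 0 < η)
    (y : V → Matrix E E ℂ) (hy0 : ∀ k, 0 ≤ y k) (hy1 : ∀ k, y k ≤ 1)
    (ht : ∑ k, y k ≤ ((Fintype.card V : ℝ) * t) • (1 : Matrix E E ℂ)) :
    ∃ z : V × D → Matrix E E ℂ, (∀ e, 0 ≤ z e) ∧
      (∀ k, y k ≤ ∑ i, z (k, i) + η • (1 : Matrix E E ℂ)) ∧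
      ∀ j, ∑ i, z (rot.symm (j, i)) ≤ (κ / 2 + (t + lam) / κ + η) • (1 : Matrix E E ℂ) := by
  classical
  set c := κ / 2 + (t + lam) / κ with hc
  let C : Set ((V → Matrix E E ℂ) × (V → Matrix E E ℂ)) :=
    {p | ∃ z : V × D → Matrix E E ℂ, (∀ e, 0 ≤ z e) ∧ (∀ k, p.1 k ≤ ∑ i, z (k, i)) ∧
      ∀ j, ∑ i, z (rot.symm (j, i)) ≤ p.2 j}
  have hCsmul : ∀ p ∈ C, ∀ a : ℝ, 0 ≤ a → a • p ∈ C := by
    rintro p ⟨z, h0, h1, h2⟩ a ha
    refine ⟨fun e => a • z e, fun e => smul_nonneg ha (h0 e), fun k => ?_, fun j => ?_⟩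
    · rw [← smul_sum]
      exact smul_le_smul_of_nonneg_left (h1 k) ha
    · rw [← smul_sum]
      exact smul_le_smul_of_nonneg_left (h2 j) ha
  have hCconv : Convex ℝ C := by
    intro p hp q hq a a' ha ha' _
    obtain ⟨z, h0, h1, h2⟩ := hCsmul p hp a ha
    obtain ⟨z', h0', h1', h2'⟩ := hCsmul q hq a' ha'
    refine ⟨fun e => z e + z' e, fun e => add_nonneg (h0 e) (h0' e), fun k => ?_, fun j => ?_⟩
    · rw [sum_add_distrib]
      exact add_le_add (h1 k) (h1' k)
    · rw [sum_add_distrib]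
      exact add_le_add (h2 j) (h2' j)
  have hmem : (y, fun _ => c • (1 : Matrix E E ℂ)) ∈ closure C := by
    by_contra hcon
    obtain ⟨Λ, u, hu1, hu2⟩ := geometric_hahn_banach_closed_point hCconv.closure isClosed_closure
      hcon
    have h0C : (0 : (V → Matrix E E ℂ) × (V → Matrix E E ℂ)) ∈ C :=
      ⟨fun _ => 0, fun _ => le_rfl, fun _ => by simp, fun _ => by simp⟩
    have hu0 : 0 < u := by simpa using hu1 0 (subset_closure h0C)
    have hΛ : ∀ p ∈ C, Λ p ≤ 0 := by
      intro p hp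
      by_contra hpos
      push Not at hpos
      have := hu1 _ (subset_closure (hCsmul p hp (u / Λ p) (by positivity)))
      rw [map_smul, smul_eq_mul, div_mul_cancel₀ _ hpos.ne'] at this
      exact lt_irrefl _ this
    have rep1 := fun k => exists_rep (E := E) (Λ.toLinearMap ∘ₗ LinearMap.inl ℝ _ _ ∘ₗ
      LinearMap.single ℝ (fun _ : V => Matrix E E ℂ) k)
    have rep2 := fun k => exists_rep (E := E) (-(Λ.toLinearMap ∘ₗ LinearMap.inr ℝ _ _ ∘ₗ
      LinearMap.single ℝ (fun _ : V => Matrix E E ℂ) k))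
    choose α hαs hα using rep1
    choose β hβs hβ using rep2
    simp only [LinearMap.comp_apply, LinearMap.neg_apply, LinearMap.coe_single,
      LinearMap.inl_apply, LinearMap.inr_apply, ContinuousLinearMap.coe_coe] at hα hβ
    have sa : ∀ P : Matrix E E ℂ, 0 ≤ P → star P = P := fun P hP =>
      (IsSelfAdjoint.of_nonneg hP).star_eq
    have hα0 : ∀ k, 0 ≤ α k := fun k => nonneg_of_rtr (hαs k) fun P hP => by
      rw [← hα k P (sa P hP)]
      have : ((-Pi.single k P, 0) : (V → Matrix E E ℂ) × (V → Matrix E E ℂ)) ∈ C := by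
        refine ⟨fun _ => 0, fun _ => le_rfl, fun k' => ?_, fun _ => by simp⟩
        by_cases h : k' = k
        · subst h
          simpa using hP
        · simp [h]
      have h2 := hΛ _ this
      have e : ((-Pi.single k P, 0) : (V → Matrix E E ℂ) × (V → Matrix E E ℂ)) =
          -(Pi.single k P, 0) := by simp
      rw [e, map_neg] at h2
      linarith
    have hβ0 : ∀ k, 0 ≤ β k := fun k => nonneg_of_rtr (hβs k) fun P hP => by
      rw [← hβ k P (sa P hP)]
      have : ((0, Pi.single k P) : (V → Matrix E E ℂ) × (V → Matrix E E ℂ)) ∈ C := by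
        refine ⟨fun _ => 0, fun _ => le_rfl, fun k' => by simp, fun k' => ?_⟩
        by_cases h : k' = k
        · subst h
          simpa using hP
        · simp [h]
      have h2 := hΛ _ this
      linarith
    have hαβ : ∀ k i, α k ≤ β (rot (k, i)).1 := fun k i => by
      rw [← sub_nonneg]
      refine nonneg_of_rtr (by rw [star_sub, hαs, hβs]) fun P hP => ?_
      rw [sub_mul, map_sub, ← hα k P (sa P hP), ← hβ _ P (sa P hP)]
      have : ((Pi.single k P, Pi.single (rot (k, i)).1 P) :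
          (V → Matrix E E ℂ) × (V → Matrix E E ℂ)) ∈ C := by
        refine ⟨fun e => if e = (k, i) then P else 0, fun e => ?_, fun k' => ?_, fun j => ?_⟩
        · by_cases h : e = (k, i) <;> simp [h, hP]
        · by_cases h : k' = k
          · subst h
            simp
          · simp [h]
        · simp only [Equiv.symm_apply_eq]
          by_cases h : j = (rot (k, i)).1
          · subst h
            simp [Prod.ext_iff]
          · simp [Prod.ext_iff, h]
      have h2 := hΛ _ this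
      have e : ((Pi.single k P, Pi.single (rot (k, i)).1 P) :
          (V → Matrix E E ℂ) × (V → Matrix E E ℂ)) =
          (Pi.single k P, 0) + (0, Pi.single (rot (k, i)).1 P) := by simp
      rw [e, map_add] at h2
      linarith
    have hd := dual_ineq hexp hκ y α β hy0 hy1 ht hα0 hβ0 hαβ
    have e : ((y, fun _ => c • (1 : Matrix E E ℂ)) : (V → Matrix E E ℂ) × (V → Matrix E E ℂ)) =
        ∑ k, ((Pi.single k (y k), 0) : (V → Matrix E E ℂ) × (V → Matrix E E ℂ)) +
        ∑ k, ((0, Pi.single k (c • (1 : Matrix E E ℂ))) :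
          (V → Matrix E E ℂ) × (V → Matrix E E ℂ)) := by
      ext k a a' <;> simp [Prod.fst_sum, Prod.snd_sum]
    rw [e, map_add, map_sum, map_sum] at hu2
    have e1 : ∀ k, Λ (Pi.single k (y k), 0) = rtr E (α k * y k) := fun k => hα k _ (sa _ (hy0 k))
    have e2 : ∀ k, Λ (0, Pi.single k (c • (1 : Matrix E E ℂ))) = -(c * rtr E (β k)) := fun k => by
      have := hβ k (c • (1 : Matrix E E ℂ)) (by simp)
      rw [mul_smul_comm, mul_one, map_smul, smul_eq_mul] at this
      linarith
    simp only [e1, e2, sum_neg_distrib, ← mul_sum] at hu2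
    rw [← hc] at hd
    linarith
  obtain ⟨p, ⟨z, h0, h1, h2⟩, hp⟩ := Metric.mem_closure_iff.1 hmem η hη
  have le_of_norm : ∀ X : Matrix E E ℂ, star X = X → ‖X‖ < η → X ≤ η • (1 : Matrix E E ℂ) := by
    intro X hX h
    refine (IsSelfAdjoint.le_algebraMap_norm_self (show IsSelfAdjoint X from hX)).trans ?_
    rw [Algebra.algebraMap_eq_smul_one]
    exact smul_le_smul_of_nonneg_right h.le zero_le_one
  have sa : ∀ P : Matrix E E ℂ, 0 ≤ P → star P = P := fun P hP =>
    (IsSelfAdjoint.of_nonneg hP).star_eq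
  rw [Prod.dist_eq, max_lt_iff, dist_pi_lt_iff hη, dist_pi_lt_iff hη] at hp
  refine ⟨z, h0, fun k => ?_, fun j => ?_⟩
  · have a1 : ‖y k - p.1 k‖ < η := by
      rw [← dist_eq_norm]
      exact hp.1 k
    have a2 : star (p.1 k) = p.1 k := by
      have b1 := sa _ (sub_nonneg.2 (h1 k))
      have b2 := sa _ (sum_nonneg fun i (_ : i ∈ univ) => h0 (k, i))
      rw [star_sub, b2] at b1
      exact sub_right_injective b1
    have a3 := le_of_norm _ (by rw [star_sub, a2, sa _ (hy0 k)]) a1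
    calc y k = p.1 k + (y k - p.1 k) := by abel
      _ ≤ _ := add_le_add (h1 k) a3
  · have a1 : ‖p.2 j - c • (1 : Matrix E E ℂ)‖ < η := by
      rw [norm_sub_rev, ← dist_eq_norm]
      exact hp.2 j
    have a2 : star (p.2 j) = p.2 j := by
      have b1 := sa _ (sub_nonneg.2 (h2 j))
      have b2 := sa _ (sum_nonneg fun i (_ : i ∈ univ) => h0 (rot.symm (j, i)))
      rw [star_sub, b2] at b1
      exact sub_left_injective b1
    have a3 := le_of_norm _ (by rw [star_sub, a2]; simp) a1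
    calc ∑ i, z (rot.symm (j, i)) ≤ p.2 j := h2 j
      _ = c • (1 : Matrix E E ℂ) + (p.2 j - c • (1 : Matrix E E ℂ)) := by abel
      _ ≤ c • (1 : Matrix E E ℂ) + η • (1 : Matrix E E ℂ) := by gcongr
      _ = _ := (add_smul c η _).symm

end

end Pool.Agent.P.MP_a35bd4_an
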