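import Pool.Agent.P.MP_a35bd4_an.Basic
import Pool.Agent.P.MP_a35bd4_an.Flow

/-! Approximate linearity of matrix coefficients of quasi homomorphisms. -/

open scoped BigOperators ComplexOrder MatrixOrder Matrix InnerProductSpace
open Finset

namespace Pool.Agent.P.MP_a35bd4_an

noncomputable section

universe u v

variable {A : Type u} [CStarAlgebra A] [PartialOrder A] [StarOrderedRing A] {H : Type v}
  [NormedAddCommGroup H] [InnerProductSpace ℂ H] [CompleteSpace H] {Φ : A → H →L[ℂ] H} {ε : ℝ}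

omit [PartialOrder A] [StarOrderedRing A] in
lemma QH.re_sum (h : QH Φ ε) {I : Type*} (s : Finset I) (a : I → A) {ζ η : H} (hζ : ‖ζ‖ ≤ 1)
    (hη : ‖η‖ ≤ 1) :
    |(⟪η, Φ (∑ i ∈ s, a i) ζ⟫_ℂ).re - ∑ i ∈ s, (⟪η, Φ (a i) ζ⟫_ℂ).re| ≤
      ε * s.card * ∑ i ∈ s, ‖a i‖ := by
  have := (abs_re_inner_le _ hζ hη).trans (h.sum s a)
  rwa [ContinuousLinearMap.sub_apply, inner_sub_right, Complex.sub_re,
    ContinuousLinearMap.sum_apply, inner_sum, Complex.re_sum] at this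

omit [PartialOrder A] [StarOrderedRing A] in
lemma QH.re_le (h : QH Φ ε) (a : A) {ζ η : H} (hζ : ‖ζ‖ ≤ 1) (hη : ‖η‖ ≤ 1) :
    |(⟪η, Φ a ζ⟫_ℂ).re| ≤ 3 * ‖a‖ := (abs_re_inner_le _ hζ hη).trans (h.norm_le a)

lemma dom_unif (h : QH Φ ε) (hA : HasEC A) {N r : ℕ} (hN : 0 < N) (hr : 0 < r)
    {rot : Fin N × Fin r ≃ Fin N × Fin r} {κ : ℝ} (hκ : 0 < κ) (hexp : IsExp rot (κ ^ 2))
    (hε : 23 * (r : ℝ) ^ 2 * ε ≤ 1) (x : Fin N → A) (hx0 : ∀ k, 0 ≤ x k) (hx1 : ∀ k, x k ≤ 1)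
    (hxt : ∑ k, x k ≤ ((N : ℝ) * κ ^ 2) • (1 : A)) {ζ : H} (hζ : ‖ζ‖ ≤ 1) :
    ∑ k, (⟪ζ, Φ (x k) ζ⟫_ℂ).re ≤ N * (35 * κ) := by
  classical
  haveI : Nonempty (Fin N) := ⟨⟨0, hN⟩⟩
  haveI : Nonempty (Fin r) := ⟨⟨0, hr⟩⟩
  obtain ⟨d, hd⟩ := hA (univ.image x) κ hκ
  have hs1 : sand d.z 1 = 1 := by rw [sand_one, d.col]
  obtain ⟨z, hz0, hz1, hz2⟩ := flow (t := κ ^ 2) hexp hκ hκ (fun k => d.Y (x k))
    (fun k => d.cp.nonneg (hx0 k)) (fun k => by simpa [d.one] using d.cp.mono (hx1 k)) (by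
      have := d.cp.mono hxt
      rw [map_sum, d.Y.map_smul_of_tower, d.one] at this
      rwa [Fintype.card_fin])
  set c := κ / 2 + (κ ^ 2 + κ ^ 2) / κ + κ with hc
  have hc' : c = 7 / 2 * κ := by
    rw [hc]
    field_simp
    ring
  have hc0 : 0 < c := by rw [hc']; positivity
  let w : Fin N × Fin r → A := fun e => sand d.z (z e)
  have hw0 : ∀ e, 0 ≤ w e := fun e => sand_nonneg _ (hz0 e)
  have hw2 : ∀ j, ∑ i, w (rot.symm (j, i)) ≤ c • (1 : A) := fun j => by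
    have := sand_mono d.z (hz2 j)
    rwa [map_sum, (sand d.z).map_smul_of_tower, hs1] at this
  have hwn : ∀ e, ‖w e‖ ≤ c := fun e => by
    refine norm_le_of_le_smul_one (hw0 e) hc0.le (le_trans ?_ (hw2 (rot e).1))
    have := single_le_sum (f := fun i => w (rot.symm ((rot e).1, i))) (fun i _ => hw0 _)
      (mem_univ (rot e).2)
    simpa using this
  have hw1 : ∀ k, x k ≤ ∑ i, w (k, i) + (2 * κ) • (1 : A) := fun k => by
    have a1 := sand_mono d.z (hz1 k)
    rw [map_add, map_sum, (sand d.z).map_smul_of_tower, hs1] at a1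
    have a2 : x k - sand d.z (d.Y (x k)) ≤ κ • (1 : A) := by
      refine le_smul_one_of_norm ?_ ?_
      · rw [star_sub, star_eq_of_nonneg (hx0 k),
          star_eq_of_nonneg (sand_nonneg _ (d.cp.nonneg (hx0 k)))]
      · rw [norm_sub_rev]
        exact hd _ (mem_image_of_mem x (mem_univ k))
    calc x k = sand d.z (d.Y (x k)) + (x k - sand d.z (d.Y (x k))) := by abel
      _ ≤ (∑ i, w (k, i) + κ • (1 : A)) + κ • (1 : A) := add_le_add a1 a2
      _ = _ := by rw [two_mul, add_smul, add_assoc]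
  have hε0 := h.eps_nonneg
  have hr1 : (1 : ℝ) ≤ r := by exact_mod_cast hr
  have sumn : ∀ g : Fin r → Fin N × Fin r, ∑ i, ‖w (g i)‖ ≤ r * c := fun g => by
    have := sum_le_card_nsmul univ (fun i => ‖w (g i)‖) c (fun i _ => hwn _)
    simpa using this
  have b1 : ∀ k, (⟪ζ, Φ (x k) ζ⟫_ℂ).re ≤ ∑ i, (⟪ζ, Φ (w (k, i)) ζ⟫_ℂ).re + (6 * κ +
      ε * ((r : ℝ) ^ 2 * c + 7 * (r * c + 2 * κ))) := fun k => by
    have a1 := h.mono (hx0 k) (hw1 k) hζ
    have n1 : ‖∑ i, w (k, i)‖ ≤ r * c := (norm_sum_le _ _).trans (sumn fun i => (k, i))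
    have n2 : ‖(2 * κ) • (1 : A)‖ ≤ 2 * κ := norm_smul_one_le _ (by positivity)
    have n3 : ‖∑ i, w (k, i) + (2 * κ) • (1 : A)‖ ≤ r * c + 2 * κ :=
      (norm_add_le _ _).trans (add_le_add n1 n2)
    have a2 := (abs_re_inner_le _ hζ hζ).trans (h.add (∑ i, w (k, i)) ((2 * κ) • (1 : A)))
    rw [ContinuousLinearMap.sub_apply, ContinuousLinearMap.sub_apply,
      inner_sub_right, inner_sub_right, Complex.sub_re, Complex.sub_re] at a2
    have a3 := h.re_le ((2 * κ) • (1 : A)) hζ hζ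
    have a4 := h.re_sum univ (fun i => w (k, i)) hζ hζ
    rw [card_univ, Fintype.card_fin] at a4
    have m1 := mul_le_mul_of_nonneg_left n3 hε0
    have m2 := mul_le_mul_of_nonneg_left (add_le_add n1 n2) hε0
    have m3 := mul_le_mul_of_nonneg_left (sumn fun i => (k, i)) (show 0 ≤ ε * r by positivity)
    have := (abs_le.1 a2).2
    have := (abs_le.1 a3).2
    have := (abs_le.1 a4).2
    nlinarith
  have b2 : ∀ j, ∑ i, (⟪ζ, Φ (w (rot.symm (j, i))) ζ⟫_ℂ).re ≤ 3 * c + ε * ((r : ℝ) ^ 2 * c) :=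
    fun j => by
    have a4 := h.re_sum univ (fun i => w (rot.symm (j, i))) hζ hζ
    rw [card_univ, Fintype.card_fin] at a4
    have a3 := h.re_le (∑ i, w (rot.symm (j, i))) hζ hζ
    have n1 := norm_le_of_le_smul_one (sum_nonneg fun i _ => hw0 _) hc0.le (hw2 j)
    have m3 := mul_le_mul_of_nonneg_left (sumn fun i => rot.symm (j, i))
      (show 0 ≤ ε * r by positivity)
    have := (abs_le.1 a3).2
    have := (abs_le.1 a4).1
    nlinarith
  have b3 : ∑ k, ∑ i, (⟪ζ, Φ (w (k, i)) ζ⟫_ℂ).re =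
      ∑ j, ∑ i, (⟪ζ, Φ (w (rot.symm (j, i))) ζ⟫_ℂ).re := by
    rw [← Fintype.sum_prod_type (fun e => (⟪ζ, Φ (w e) ζ⟫_ℂ).re),
      ← Fintype.sum_prod_type (fun e => (⟪ζ, Φ (w (rot.symm e)) ζ⟫_ℂ).re)]
    exact (Equiv.sum_comp rot.symm (fun e => (⟪ζ, Φ (w e) ζ⟫_ℂ).re)).symm
  calc ∑ k, (⟪ζ, Φ (x k) ζ⟫_ℂ).re ≤ ∑ k, (∑ i, (⟪ζ, Φ (w (k, i)) ζ⟫_ℂ).re + (6 * κ +
      ε * ((r : ℝ) ^ 2 * c + 7 * (r * c + 2 * κ)))) := sum_le_sum fun k _ => b1 k
    _ ≤ ∑ _j : Fin N, (3 * c + ε * ((r : ℝ) ^ 2 * c)) + ∑ _k : Fin N, (6 * κ +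
      ε * ((r : ℝ) ^ 2 * c + 7 * (r * c + 2 * κ))) := by
        rw [sum_add_distrib, b3]
        gcongr with j
        exact b2 j
    _ ≤ _ := by
        rw [← sum_add_distrib, sum_const, card_univ, Fintype.card_fin, nsmul_eq_mul]
        gcongr
        rw [hc']
        have q1 : ε * r ≤ ε * r ^ 2 := mul_le_mul_of_nonneg_left (by nlinarith) hε0
        have q2 : ε ≤ ε * r ^ 2 := le_mul_of_one_le_right hε0 (by nlinarith)
        nlinarith [mul_le_mul_of_nonneg_left q1 hκ.le, mul_le_mul_of_nonneg_left q2 hκ.le,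
          mul_le_mul_of_nonneg_left hε hκ.le]

/-- domination property -/
def Dom (Φ : A → H →L[ℂ] H) (t D : ℝ) : Prop :=
  ∀ ζ : H, ‖ζ‖ ≤ 1 → ∀ (I : Type) [Fintype I] (p : I → ℝ) (y : I → A), (∀ i, 0 ≤ p i) →
    ∑ i, p i = 1 → (∀ i, ‖y i‖ ≤ 1) → ∑ i, p i • (star (y i) * y i) ≤ t • (1 : A) →
    ∑ i, p i * ‖Φ (y i) ζ‖ ^ 2 ≤ D

lemma sum_extend {I V B M : Type*} [Fintype I] [Fintype V] [Zero B] [AddCommMonoid M]
    {m : I → ℕ} (emb : (Σ i, Fin (m i)) ↪ V) (x : I → B) (g : B → M) (hg : g 0 = 0) :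
    ∑ v, g (Function.extend emb (fun s => x s.1) (fun _ => 0) v) = ∑ i, m i • g (x i) := by
  rw [← Fintype.sum_of_injective emb emb.injective (fun s => g (x s.1))
    (fun v => g (Function.extend emb (fun s => x s.1) (fun _ => 0) v))
    (fun v hv => by rw [Function.extend_apply' _ _ _ (by simpa using hv), hg])
    (fun s => by simp only [emb.injective.extend_apply])]
  rw [Fintype.sum_sigma]
  simp

lemma dom_of_exp (h : QH Φ ε) (hA : HasEC A) {r : ℕ} (hr : 0 < r) {κ : ℝ} (hκ : 0 < κ)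
    (hexp : ∀ M : ℕ, ∃ N : ℕ, M ≤ N ∧ 0 < N ∧
      ∃ rot : Fin N × Fin r ≃ Fin N × Fin r, IsExp rot (κ ^ 2))
    (hε : 23 * (r : ℝ) ^ 2 * ε ≤ 1) (hε' : ε ≤ κ) : Dom Φ (κ ^ 2) (42 * κ) := by
  classical
  intro ζ hζ I _ p y hp hp1 hy ht
  obtain ⟨M, hM⟩ := exists_nat_ge (Fintype.card I / κ)
  obtain ⟨N, hMN, hN, rot, hrot⟩ := hexp M
  have hN' : (0 : ℝ) < N := by exact_mod_cast hN
  let m : I → ℕ := fun i => ⌊p i * N⌋₊
  have hm1 : ∀ i, (m i : ℝ) ≤ p i * N := fun i => Nat.floor_le (mul_nonneg (hp i) hN'.le)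
  have hm2 : ∀ i, p i * N < m i + 1 := fun i => Nat.lt_floor_add_one _
  have hcard : Fintype.card (Σ i, Fin (m i)) ≤ Fintype.card (Fin N) := by
    rw [Fintype.card_sigma, Fintype.card_fin]
    simp only [Fintype.card_fin]
    have : ((∑ i, m i : ℕ) : ℝ) ≤ N := by
      push_cast
      calc ∑ i, (m i : ℝ) ≤ ∑ i, p i * N := sum_le_sum fun i _ => hm1 i
        _ = N := by rw [← sum_mul, hp1, one_mul]
    exact_mod_cast this
  obtain ⟨emb⟩ := Function.Embedding.nonempty_of_card_le hcard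
  let x : I → A := fun i => star (y i) * y i
  have hx0 : ∀ i, 0 ≤ x i := fun i => star_mul_self_nonneg _
  have hxn : ∀ i, ‖x i‖ ≤ 1 := fun i => by
    rw [CStarRing.norm_star_mul_self]
    exact mul_le_one₀ (hy i) (norm_nonneg _) (hy i)
  let X : Fin N → A := Function.extend emb (fun s => x s.1) (fun _ => 0)
  have hXc : ∀ v, X v = 0 ∨ ∃ i, X v = x i := fun v => by
    by_cases hv : ∃ s, emb s = v
    · obtain ⟨s, rfl⟩ := hv
      exact Or.inr ⟨s.1, by simp only [X, emb.injective.extend_apply]⟩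
    · exact Or.inl (by simp only [X]; rw [Function.extend_apply' _ _ _ hv])
  have main := dom_unif h hA hN hr hκ hrot hε X
    (fun v => by
      rcases hXc v with h0 | ⟨i, hi⟩
      · rw [h0]
      · rw [hi]; exact hx0 i)
    (fun v => by
      rcases hXc v with h0 | ⟨i, hi⟩
      · rw [h0]; exact zero_le_one
      · rw [hi]; exact (CStarAlgebra.norm_le_one_iff_of_nonneg _ (hx0 i)).1 (hxn i))
    (by
      rw [sum_extend emb x (fun a => a) rfl, mul_smul]
      refine le_trans ?_ (smul_le_smul_of_nonneg_left ht hN'.le)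
      rw [smul_sum]
      refine sum_le_sum fun i _ => ?_
      rw [smul_smul, ← Nat.cast_smul_eq_nsmul ℝ, mul_comm]
      exact smul_le_smul_of_nonneg_right (hm1 i) (hx0 i)) hζ
  rw [sum_extend emb x (fun a => (⟪ζ, Φ a ζ⟫_ℂ).re) (by simp [h.zero])] at main
  have hε0 := h.eps_nonneg
  have c1 : ∀ i, p i * ‖Φ (y i) ζ‖ ^ 2 * N ≤
      m i • (⟪ζ, Φ (x i) ζ⟫_ℂ).re + 3 + p i * (4 * κ) * N := fun i => by
    have a1 := (abs_le.1 (h.norm_sq (y i) hζ)).1
    have a2 := abs_le.1 (h.re_le (x i) hζ hζ)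
    have a3 : ‖y i‖ ^ 2 ≤ 1 := pow_le_one₀ (norm_nonneg _) (hy i)
    have a4 : ‖Φ (y i) ζ‖ ^ 2 ≤ (⟪ζ, Φ (x i) ζ⟫_ℂ).re + 4 * κ := by nlinarith
    have a5 : (p i * N - m i) * (⟪ζ, Φ (x i) ζ⟫_ℂ).re ≤ 3 := by
      have := hm1 i
      have := hm2 i
      have := hxn i
      nlinarith
    rw [nsmul_eq_mul]
    have := mul_le_mul_of_nonneg_left a4 (mul_nonneg (hp i) hN'.le)
    nlinarith
  have c2 := sum_le_sum fun i (_ : i ∈ univ) => c1 i
  rw [← sum_mul, sum_add_distrib, sum_add_distrib, ← sum_mul, ← sum_mul, hp1, sum_const,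
    card_univ, nsmul_eq_mul] at c2
  have c3 : (Fintype.card I : ℝ) ≤ κ * N := by
    rw [div_le_iff₀ hκ] at hM
    have : (M : ℝ) ≤ N := by exact_mod_cast hMN
    nlinarith
  have : (∑ i, p i * ‖Φ (y i) ζ‖ ^ 2) * N ≤ 42 * κ * N := by nlinarith
  exact le_of_mul_le_mul_right this hN'

lemma centered (h : QH Φ ε) {t D : ℝ} (hD : Dom Φ t (D ^ 2)) (hD0 : 0 ≤ D) (j : ℕ) :
    ∀ (I : Type) [Fintype I] (p : I → ℝ) (e : I → A), (∀ i, 0 ≤ p i) → ∑ i, p i = 1 →
      (∀ i, ‖e i‖ ≤ 1) → ∑ i, p i • e i = 0 →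
      ∑ i, p i • (star (e i) * e i) ≤ (2 ^ j * t) • (1 : A) →
      ‖∑ i, p i • Φ (e i)‖ ≤ D + j * ε := by
  induction j with
  | zero =>
    intro I _ p e hp hp1 he _ ht
    simp only [pow_zero, one_mul, Nat.cast_zero, zero_mul, add_zero] at ht ⊢
    refine ContinuousLinearMap.opNorm_le_of_unit_norm hD0 fun ζ hζ => ?_
    have h1 := hD ζ hζ.le I p e hp hp1 he ht
    have h2 : ‖(∑ i, p i • Φ (e i)) ζ‖ ≤ ∑ i, p i * ‖Φ (e i) ζ‖ := by
      rw [ContinuousLinearMap.sum_apply]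
      refine (norm_sum_le _ _).trans (sum_le_sum fun i _ => ?_)
      rw [ContinuousLinearMap.smul_apply, norm_smul, Real.norm_of_nonneg (hp i)]
    have h3 := sum_mul_sq_le_sq_mul_sq univ (fun i => √(p i)) (fun i => √(p i) * ‖Φ (e i) ζ‖)
    simp only [← mul_assoc, Real.mul_self_sqrt (hp _), mul_pow, Real.sq_sqrt (hp _), hp1,
      one_mul] at h3
    exact h2.trans (abs_le_of_sq_le_sq' (h3.trans h1) hD0).2
  | succ j ih =>
    intro I _ p e hp hp1 he h0 ht
    have key := ih (I × I) (fun q => p q.1 * p q.2) (fun q => (1 / 2 : ℝ) • (e q.1 + e q.2))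
      (fun q => mul_nonneg (hp _) (hp _))
      (by rw [Fintype.sum_prod_type]; simp only [← mul_sum, hp1, mul_one])
      (fun q => by
        rw [norm_smul, Real.norm_of_nonneg (by norm_num)]
        have := norm_add_le (e q.1) (e q.2)
        have := he q.1
        have := he q.2
        linarith)
      (by
        have e1 : ∀ a b : I, (p a * p b) • ((1 / 2 : ℝ) • (e a + e b)) =
            (1 / 2 : ℝ) • (p b • (p a • e a) + p a • (p b • e b)) := fun a b => by module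
        rw [Fintype.sum_prod_type]
        simp only [e1, ← smul_sum, sum_add_distrib, h0, smul_zero, ← sum_smul, hp1, one_smul,
          sum_const_zero, add_zero])
      (by
        have e1 : ∀ a b : I, (p a * p b) • (star ((1 / 2 : ℝ) • (e a + e b)) *
            ((1 / 2 : ℝ) • (e a + e b))) = (1 / 4 : ℝ) • (p b • (p a • (star (e a) * e a)) +
              p a • (p b • (star (e b) * e b)) + star (p a • e a) * (p b • e b) +
              star (p b • e b) * (p a • e a)) := fun a b => by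
          simp only [star_smul, star_add, star_trivial, smul_mul_smul_comm, add_mul, mul_add]
          module
        rw [Fintype.sum_prod_type]
        simp only [e1, ← smul_sum, sum_add_distrib, ← sum_smul, hp1, one_smul, ← mul_sum,
          ← sum_mul, ← star_sum, h0, mul_zero, star_zero, zero_mul, add_zero, sum_const_zero]
        have := smul_le_smul_of_nonneg_left ht (show (0 : ℝ) ≤ 1 / 2 by norm_num)
        convert this using 1
        · module
        · rw [smul_smul]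
          congr 1
          ring)
    have e2 : ∑ i, p i • Φ (e i) =
        ∑ q : I × I, (p q.1 * p q.2) • ((1 / 2 : ℝ) • (Φ (e q.1) + Φ (e q.2))) := by
      have e1 : ∀ a b : I, (p a * p b) • ((1 / 2 : ℝ) • (Φ (e a) + Φ (e b))) =
          (1 / 2 : ℝ) • (p b • (p a • Φ (e a)) + p a • (p b • Φ (e b))) := fun a b => by module
      rw [Fintype.sum_prod_type]
      simp only [e1, ← smul_sum, sum_add_distrib, ← sum_smul, hp1, one_smul]
      module
    have e3 : ‖∑ q : I × I, (p q.1 * p q.2) • ((1 / 2 : ℝ) • (Φ (e q.1) + Φ (e q.2))) -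
        ∑ q : I × I, (p q.1 * p q.2) • Φ ((1 / 2 : ℝ) • (e q.1 + e q.2))‖ ≤ ε := by
      rw [← sum_sub_distrib]
      refine (norm_sum_le _ _).trans ?_
      have : ∑ q : I × I, p q.1 * p q.2 * ε = ε := by
        rw [← sum_mul, Fintype.sum_prod_type]
        simp only [← mul_sum, hp1, mul_one, one_mul]
      rw [← this]
      refine sum_le_sum fun q _ => ?_
      rw [← smul_sub, norm_smul, Real.norm_of_nonneg (mul_nonneg (hp _) (hp _)),
        h.hom _ _ (by norm_num), ← smul_sub, norm_smul, Real.norm_of_nonneg (by norm_num),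
        norm_sub_rev, ← sub_sub]
      refine mul_le_mul_of_nonneg_left ?_ (mul_nonneg (hp _) (hp _))
      have := h.add (e q.1) (e q.2)
      have := mul_le_mul_of_nonneg_left (add_le_add (he q.1) (he q.2)) h.eps_nonneg
      linarith
    rw [e2]
    have := norm_le_norm_add_norm_sub' (∑ q : I × I, (p q.1 * p q.2) •
      ((1 / 2 : ℝ) • (Φ (e q.1) + Φ (e q.2))))
      (∑ q : I × I, (p q.1 * p q.2) • Φ ((1 / 2 : ℝ) • (e q.1 + e q.2)))
    push_cast
    linarith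

lemma convex_add (h : QH Φ ε) {t D : ℝ} (hD : Dom Φ t (D ^ 2)) (hD0 : 0 ≤ D) {j : ℕ}
    (hj : 1 ≤ 2 ^ j * t) {I : Type} [Fintype I] (a : I → A) :
    ‖Φ (∑ i, a i) - ∑ i, Φ (a i)‖ ≤ (2 * D + (2 * j + 4) * ε) * ∑ i, ‖a i‖ := by
  set S := ∑ i, ‖a i‖ with hS
  have hS0 : 0 ≤ S := sum_nonneg fun i _ => norm_nonneg _
  rcases hS0.eq_or_lt with hS1 | hS1
  · have : ∀ i, a i = 0 := fun i => norm_eq_zero.1
      ((sum_eq_zero_iff_of_nonneg fun i _ => norm_nonneg (a i)).1 hS1.symm i (mem_univ i))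
    simp [this, h.zero, ← hS1]
  let p : I → ℝ := fun i => ‖a i‖ / S
  let b : I → A := fun i => ‖a i‖⁻¹ • a i
  have hb : ∀ i, ‖b i‖ ≤ 1 := fun i => by
    simp only [b, norm_smul, norm_inv, norm_norm]
    exact inv_mul_le_one_of_le₀ le_rfl (norm_nonneg _)
  have hab : ∀ i, a i = ‖a i‖ • b i := fun i => by
    by_cases h0 : a i = 0
    · simp [h0]
    · simp only [b, smul_smul, mul_inv_cancel₀ (norm_ne_zero_iff.2 h0), one_smul]
  have hp : ∀ i, 0 ≤ p i := fun i => div_nonneg (norm_nonneg _) hS0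
  have hp1 : ∑ i, p i = 1 := by rw [← sum_div, div_self hS1.ne']
  let x : A := ∑ i, p i • b i
  have hx : ‖x‖ ≤ 1 := by
    refine (norm_sum_le _ _).trans ?_
    rw [← hp1]
    refine sum_le_sum fun i _ => ?_
    rw [norm_smul, Real.norm_of_nonneg (hp i)]
    exact mul_le_of_le_one_right (hp i) (hb i)
  have hpS : ∀ i, S * p i = ‖a i‖ := fun i => mul_div_cancel₀ _ hS1.ne'
  have hsum : ∑ i, a i = S • x := by
    simp only [x, smul_sum, smul_smul, hpS]
    exact sum_congr rfl fun i _ => hab i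
  have hsum2 : ∑ i, Φ (a i) = S • ∑ i, p i • Φ (b i) := by
    simp only [smul_sum, smul_smul, hpS]
    refine sum_congr rfl fun i _ => ?_
    rw [← h.hom _ _ (norm_nonneg _), ← hab]
  let e : I → A := fun i => (1 / 2 : ℝ) • (b i - x)
  have he : ∀ i, ‖e i‖ ≤ 1 := fun i => by
    rw [norm_smul, Real.norm_of_nonneg (by norm_num)]
    have := norm_sub_le (b i) x
    have := hb i
    linarith
  have key := centered h hD hD0 j I p e hp hp1 he
    (by
      simp only [e, smul_comm (p _) (1 / 2 : ℝ), ← smul_sum, smul_sub, sum_sub_distrib,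
        ← sum_smul, hp1, one_smul]
      simp [x])
    (by
      refine le_trans ?_ (smul_le_smul_of_nonneg_right hj zero_le_one)
      rw [← hp1, sum_smul]
      refine sum_le_sum fun i _ => ?_
      have : star (e i) * e i ≤ 1 := by
        refine (star_mul_self_le _).trans ?_
        have := smul_le_smul_of_nonneg_right (pow_le_one₀ (n := 2) (norm_nonneg _) (he i))
          (zero_le_one (α := A))
        rwa [one_smul] at this
      exact smul_le_smul_of_nonneg_left this (hp i))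
  have e3 : ‖∑ i, p i • (Φ (b i) - Φ x) - (2 : ℝ) • ∑ i, p i • Φ (e i)‖ ≤ 4 * ε := by
    rw [smul_sum, ← sum_sub_distrib]
    refine (norm_sum_le _ _).trans ?_
    have : ∑ i, p i * (4 * ε) = 4 * ε := by rw [← sum_mul, hp1, one_mul]
    rw [← this]
    refine sum_le_sum fun i _ => ?_
    rw [smul_comm (2 : ℝ), ← smul_sub, norm_smul, Real.norm_of_nonneg (hp i),
      ← h.hom _ _ (by norm_num), norm_sub_rev]
    refine mul_le_mul_of_nonneg_left ?_ (hp i)
    have e4 : (2 : ℝ) • e i = b i - x := by simp only [e, smul_smul]; norm_num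
    rw [e4]
    have := h.sub (b i) x
    have := mul_le_mul_of_nonneg_left (add_le_add (hb i) hx) h.eps_nonneg
    linarith
  have e5 : ∑ i, p i • (Φ (b i) - Φ x) = ∑ i, p i • Φ (b i) - Φ x := by
    simp only [smul_sub, sum_sub_distrib, ← sum_smul, hp1, one_smul]
  rw [hsum, hsum2, h.hom _ _ hS0, ← smul_sub, norm_smul, Real.norm_of_nonneg hS0, mul_comm,
    norm_sub_rev, ← e5]
  refine mul_le_mul_of_nonneg_right ?_ hS0
  have := norm_le_norm_add_norm_sub' (∑ i, p i • (Φ (b i) - Φ x))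
    ((2 : ℝ) • ∑ i, p i • Φ (e i))
  rw [norm_smul, Real.norm_of_nonneg (by norm_num)] at this
  linarith

/-- every matrix coefficient is close to a linear functional -/
def Lin (Φ : A → H →L[ℂ] H) (δ : ℝ) : Prop :=
  ∀ ζ η : H, ‖ζ‖ ≤ 1 → ‖η‖ ≤ 1 → ∃ l : A →L[ℝ] ℝ, ∀ a, |(⟪η, Φ a ζ⟫_ℂ).re - l a| ≤ δ * ‖a‖

omit [PartialOrder A] [StarOrderedRing A] in
lemma lin_of_add (h : QH Φ ε) {δ : ℝ} (hδ : 0 ≤ δ)
    (hadd : ∀ (n : ℕ) (a : Fin n → A), ‖Φ (∑ i, a i) - ∑ i, Φ (a i)‖ ≤ δ * ∑ i, ‖a i‖) :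
    Lin Φ (δ + ε) := by
  intro ζ η hζ hη
  let g : A → ℝ := fun a => (⟪η, Φ a ζ⟫_ℂ).re
  let q : A → ℝ := fun a => g a + δ * ‖a‖
  have hq : ∀ L : List A, g L.sum ≤ (L.map q).sum := fun L => by
    have h1 := (abs_re_inner_le _ hζ hη).trans (hadd L.length (fun i => L[i.1]))
    rw [ContinuousLinearMap.sub_apply, inner_sub_right, Complex.sub_re,
      ContinuousLinearMap.sum_apply, inner_sum, Complex.re_sum, Fin.sum_univ_getElem] at h1
    rw [← Fin.sum_univ_fun_getElem L q]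
    simp only [q, sum_add_distrib, ← mul_sum]
    have := (abs_le.1 h1).2
    simp only [g]
    linarith
  let P : A → Set ℝ := fun a => {s | ∃ L : List A, L.sum = a ∧ s = (L.map q).sum}
  have hne : ∀ a, q a ∈ P a := fun a => ⟨[a], by simp, by simp⟩
  have hbd : ∀ a, ∀ s ∈ P a, g a ≤ s := by
    rintro a s ⟨L, rfl, rfl⟩
    exact hq L
  let N : A → ℝ := fun a => sInf (P a)
  have hN1 : ∀ a, ∀ s ∈ P a, N a ≤ s := fun a s hs => csInf_le ⟨g a, hbd a⟩ hs
  have hqs : ∀ (c : ℝ), 0 ≤ c → ∀ a, q (c • a) = c * q a := fun c hc a => by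
    simp only [q, g, h.hom c a hc, norm_smul, Real.norm_of_nonneg hc,
      ContinuousLinearMap.smul_apply]
    rw [← Complex.coe_smul, inner_smul_right, Complex.re_ofReal_mul]
    ring
  have hle : ∀ (c : ℝ), 0 < c → ∀ a, N (c • a) ≤ c * N a := fun c hc a => by
    rw [← div_le_iff₀' hc]
    refine le_csInf ⟨_, hne a⟩ ?_
    rintro s ⟨L, rfl, rfl⟩
    rw [div_le_iff₀' hc]
    refine hN1 _ _ ⟨L.map (c • ·), ?_, ?_⟩
    · rw [List.smul_sum]
    · rw [List.map_map, ← List.sum_map_mul_left]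
      congr 1
      exact List.map_congr_left fun b _ => (hqs c hc.le b).symm
  have N_hom : ∀ c : ℝ, 0 < c → ∀ a, N (c • a) = c * N a := fun c hc a => by
    refine le_antisymm (hle c hc a) ?_
    have := hle c⁻¹ (inv_pos.2 hc) (c • a)
    rw [smul_smul, inv_mul_cancel₀ hc.ne', one_smul] at this
    calc c * N a ≤ c * (c⁻¹ * N (c • a)) := mul_le_mul_of_nonneg_left this hc.le
      _ = N (c • a) := by field_simp
  have N_add : ∀ a b, N (a + b) ≤ N a + N b := fun a b => by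
    rw [← sub_le_iff_le_add]
    refine le_csInf ⟨_, hne a⟩ ?_
    rintro s ⟨L, rfl, rfl⟩
    rw [sub_le_comm]
    refine le_csInf ⟨_, hne b⟩ ?_
    rintro s' ⟨L', rfl, rfl⟩
    rw [sub_le_iff_le_add']
    exact hN1 _ _ ⟨L ++ L', by simp, by simp⟩
  have N0 : 0 ≤ N 0 := by
    refine le_csInf ⟨_, hne 0⟩ fun s hs => ?_
    have := hbd 0 s hs
    simpa [g, h.zero] using this
  obtain ⟨l, -, hl⟩ := exists_extension_of_le_sublinear
    (⟨⊥, 0⟩ : A →ₗ.[ℝ] ℝ) N N_hom N_add (fun x => by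
      have : (x : A) = 0 := (Submodule.mem_bot ℝ).1 x.2
      rw [this]
      simpa using N0)
  have hl1 : ∀ a, l a ≤ g a + δ * ‖a‖ := fun a => (hl a).trans (hN1 a _ (hne a))
  have hl2 : ∀ a, |g a - l a| ≤ (δ + ε) * ‖a‖ := fun a => by
    have a1 := hl1 a
    have a2 := hl1 (-a)
    have a3 := (abs_re_inner_le _ hζ hη).trans (h.neg a)
    rw [ContinuousLinearMap.add_apply, inner_add_right, Complex.add_re] at a3
    rw [map_neg, norm_neg] at a2
    have a4 := abs_le.1 a3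
    have := mul_nonneg h.eps_nonneg (norm_nonneg a)
    simp only [g] at a1 a2 ⊢
    rw [abs_le]
    constructor <;> nlinarith
  refine ⟨l.mkContinuous (3 + (δ + ε)) fun a => ?_, hl2⟩
  have a1 := abs_le.1 (hl2 a)
  have a2 := abs_le.1 (h.re_le a hζ hη)
  rw [Real.norm_eq_abs, abs_le]
  simp only [g] at a1
  constructor <;> nlinarith

theorem exists_lin (δ : ℝ) (hδ : 0 < δ) : ∃ ε₀ : ℝ, 0 < ε₀ ∧
    ∀ {A : Type u} [CStarAlgebra A] [PartialOrder A] [StarOrderedRing A] {H : Type v}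
      [NormedAddCommGroup H] [InnerProductSpace ℂ H] [CompleteSpace H] {Φ : A → H →L[ℂ] H}
      {ε : ℝ}, QH Φ ε → ε ≤ ε₀ → HasEC A → Lin Φ δ := by
  set D := δ / 4 with hD
  set κ := D ^ 2 / 42 with hκ
  have hκ0 : 0 < κ := by positivity
  obtain ⟨r, hr, hexp⟩ := exists_expander (κ ^ 2) (by positivity)
  obtain ⟨j, hj⟩ := pow_unbounded_of_one_lt (1 / κ ^ 2) (show (1 : ℝ) < 2 by norm_num)
  have hr' : (0 : ℝ) < r := by exact_mod_cast hr
  refine ⟨min (min (1 / (23 * (r : ℝ) ^ 2)) κ) (δ / 2 / (2 * j + 5)), by positivity, ?_⟩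
  intro A _ _ _ H _ _ _ Φ ε h hε hA
  have h1 : ε ≤ 1 / (23 * (r : ℝ) ^ 2) := hε.trans ((min_le_left _ _).trans (min_le_left _ _))
  have h2 : ε ≤ κ := hε.trans ((min_le_left _ _).trans (min_le_right _ _))
  have h3 : ε ≤ δ / 2 / (2 * j + 5) := hε.trans (min_le_right _ _)
  rw [le_div_iff₀ (by positivity)] at h1 h3
  have hdom := dom_of_exp h hA hr hκ0 hexp (by linarith) h2
  rw [show 42 * κ = D ^ 2 by rw [hκ]; ring] at hdom
  have hε0 := h.eps_nonneg
  have hlin := lin_of_add h (δ := 2 * D + (2 * j + 4) * ε) (by positivity)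
    (fun n a => convex_add h hdom (by positivity) (j := j)
      (by rw [div_lt_iff₀ (by positivity)] at hj; exact hj.le) a)
  intro ζ η hζ hη
  obtain ⟨l, hl⟩ := hlin ζ η hζ hη
  refine ⟨l, fun a => (hl a).trans (mul_le_mul_of_nonneg_right ?_ (norm_nonneg _))⟩
  rw [hD]
  linarith

end

end Pool.Agent.P.MP_a35bd4_an
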