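import Mathlib

/-! Constant degree spectral expanders by the zig-zag product. -/

open scoped BigOperators
open Finset

namespace Pool.Agent.P.MP_a35bd4_an

noncomputable section

/-- averaging over neighbours -/
def avgOp {V D : Type} [Fintype D] (rot : V × D ≃ V × D) (f : V → ℂ) (v : V) : ℂ :=
  𝔼 i : D, f (rot (v, i)).1

/-- mean square -/
def ms {V : Type} [Fintype V] (f : V → ℂ) : ℝ := 𝔼 v : V, ‖f v‖ ^ 2

/-- spectral expansion -/
def IsExp {V D : Type} [Fintype V] [Fintype D] (rot : V × D ≃ V × D) (κ : ℝ) : Prop :=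
  ∀ f : V → ℂ, ms (fun v => avgOp rot f v - 𝔼 w : V, f w) ≤ κ * ms f

lemma ms_nonneg {V : Type} [Fintype V] (f : V → ℂ) : 0 ≤ ms f :=
  expect_nonneg fun _ _ => by positivity

lemma norm_expect_sq_le {I : Type} [Fintype I] [Nonempty I] (f : I → ℂ) :
    ‖𝔼 i, f i‖ ^ 2 ≤ 𝔼 i, ‖f i‖ ^ 2 := by
  have h1 : ‖𝔼 i, f i‖ ≤ 𝔼 i, ‖f i‖ := RCLike.norm_expect_le (K := ℂ)
  have h2 := expect_mul_sq_le_sq_mul_sq (univ : Finset I) (fun i => ‖f i‖) (fun _ => (1 : ℝ))
  simp only [mul_one, one_pow, Fintype.expect_const] at h2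
  calc ‖𝔼 i, f i‖ ^ 2 ≤ (𝔼 i, ‖f i‖) ^ 2 := by gcongr
    _ ≤ _ := h2

lemma expect_prod {M : Type*} [AddCommMonoid M] [Module ℚ≥0 M] {V D : Type} [Fintype V]
    [Fintype D] (g : V × D → M) : 𝔼 p : V × D, g p = 𝔼 v : V, 𝔼 i : D, g (v, i) := by
  rw [← univ_product_univ, expect_product]

lemma expect_rot {M : Type*} [AddCommMonoid M] [Module ℚ≥0 M] {V D : Type} [Fintype V]
    [Fintype D] [Nonempty D] (rot : V × D ≃ V × D) (g : V → M) :
    𝔼 v : V, 𝔼 i : D, g (rot (v, i)).1 = 𝔼 w : V, g w := by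
  rw [← expect_prod (fun p : V × D => g (rot p).1),
    Fintype.expect_equiv rot (fun p => g (rot p).1) (fun p => g p.1) (fun _ => rfl), expect_prod]
  simp

lemma ms_avgOp_le {V D : Type} [Fintype V] [Fintype D] [Nonempty D] (rot : V × D ≃ V × D)
    (f : V → ℂ) : ms (avgOp rot f) ≤ ms f := by
  unfold ms
  rw [← expect_rot rot (fun w => ‖f w‖ ^ 2)]
  exact expect_le_expect fun v _ => norm_expect_sq_le _

lemma expect_avgOp {V D : Type} [Fintype V] [Fintype D] [Nonempty D] (rot : V × D ≃ V × D)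
    (f : V → ℂ) : 𝔼 v, avgOp rot f v = 𝔼 w, f w := expect_rot rot f

lemma ms_add3 {V : Type} [Fintype V] (a b c : V → ℂ) :
    ms (fun v => a v + b v + c v) ≤ 3 * (ms a + ms b + ms c) := by
  unfold ms
  rw [← expect_add_distrib, ← expect_add_distrib, mul_expect]
  refine expect_le_expect fun v _ => ?_
  have h : ‖a v + b v + c v‖ ≤ ‖a v‖ + ‖b v‖ + ‖c v‖ := norm_add₃_le
  have h0 := norm_nonneg (a v + b v + c v)
  nlinarith [sq_nonneg (‖a v‖ - ‖b v‖), sq_nonneg (‖a v‖ - ‖c v‖), sq_nonneg (‖b v‖ - ‖c v‖),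
    norm_nonneg (a v), norm_nonneg (b v), norm_nonneg (c v)]

lemma IsExp.mono {V D : Type} [Fintype V] [Fintype D] {rot : V × D ≃ V × D} {κ κ' : ℝ}
    (h : IsExp rot κ) (hκ : κ ≤ κ') : IsExp rot κ' := fun f =>
  (h f).trans (mul_le_mul_of_nonneg_right hκ (ms_nonneg f))

/-- relabelling -/
def relabel {V D V' D' : Type} (eV : V ≃ V') (eD : D ≃ D') (rot : V × D ≃ V × D) :
    V' × D' ≃ V' × D' :=
  ((eV.prodCongr eD).symm.trans rot).trans (eV.prodCongr eD)

lemma IsExp.relabel {V D V' D' : Type} [Fintype V] [Fintype D] [Fintype V'] [Fintype D']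
    (eV : V ≃ V') (eD : D ≃ D') {rot : V × D ≃ V × D} {κ : ℝ} (h : IsExp rot κ) :
    IsExp (relabel eV eD rot) κ := by
  intro f
  have h1 := h (fun v => f (eV v))
  have e1 : ms f = ms (fun v => f (eV v)) := by
    unfold ms
    exact (Fintype.expect_equiv eV _ _ (fun _ => rfl)).symm
  have e2 : 𝔼 w : V', f w = 𝔼 w : V, f (eV w) :=
    (Fintype.expect_equiv eV _ _ (fun _ => rfl)).symm
  rw [e1, e2]
  refine le_of_eq_of_le ?_ h1
  unfold ms
  symm
  refine Fintype.expect_equiv eV _ _ (fun v => ?_)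
  have e3 : avgOp rot (fun v => f (eV v)) v =
      avgOp (Pool.Agent.P.MP_a35bd4_an.relabel eV eD rot) f (eV v) := by
    unfold avgOp
    refine Fintype.expect_equiv eD _ _ (fun i => ?_)
    simp [Pool.Agent.P.MP_a35bd4_an.relabel]
  simp only [e3]

/-- squaring -/
def sqRot {V D : Type} (rot : V × D ≃ V × D) : V × (D × D) ≃ V × (D × D) where
  toFun p := ((rot ((rot (p.1, p.2.1)).1, p.2.2)).1,
    ((rot ((rot (p.1, p.2.1)).1, p.2.2)).2, (rot (p.1, p.2.1)).2))
  invFun q := ((rot.symm ((rot.symm (q.1, q.2.1)).1, q.2.2)).1,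
    ((rot.symm ((rot.symm (q.1, q.2.1)).1, q.2.2)).2, (rot.symm (q.1, q.2.1)).2))
  left_inv p := by simp
  right_inv q := by simp

lemma IsExp.sq {V D : Type} [Fintype V] [Fintype D] [Nonempty D] [Nonempty V]
    {rot : V × D ≃ V × D} {κ : ℝ} (hκ : 0 ≤ κ) (h : IsExp rot κ) :
    IsExp (sqRot rot) (κ ^ 2) := by
  intro f
  set g : V → ℂ := fun v => avgOp rot f v - 𝔼 w : V, f w with hg
  have hg0 : 𝔼 v, g v = 0 := by
    simp only [hg]
    rw [expect_sub_distrib, expect_avgOp, Fintype.expect_const, sub_self]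
  have e1 : ∀ v, avgOp (sqRot rot) f v - 𝔼 w : V, f w = avgOp rot g v - 𝔼 w, g w := by
    intro v
    rw [hg0, sub_zero]
    simp only [hg, avgOp]
    rw [expect_sub_distrib, Fintype.expect_const, expect_prod]
    rfl
  simp only [e1]
  calc _ ≤ κ * ms g := h g
    _ ≤ κ * (κ * ms f) := mul_le_mul_of_nonneg_left (h f) hκ
    _ = _ := by ring

/-- zig-zag product -/
def zigzag {V D d : Type} (G : V × D ≃ V × D) (H : D × d ≃ D × d) :
    (V × D) × (d × d) ≃ (V × D) × (d × d) where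
  toFun p := (((G (p.1.1, (H (p.1.2, p.2.1)).1)).1,
      (H ((G (p.1.1, (H (p.1.2, p.2.1)).1)).2, p.2.2)).1),
    ((H ((G (p.1.1, (H (p.1.2, p.2.1)).1)).2, p.2.2)).2, (H (p.1.2, p.2.1)).2))
  invFun q := (((G.symm (q.1.1, (H.symm (q.1.2, q.2.1)).1)).1,
      (H.symm ((G.symm (q.1.1, (H.symm (q.1.2, q.2.1)).1)).2, q.2.2)).1),
    ((H.symm ((G.symm (q.1.1, (H.symm (q.1.2, q.2.1)).1)).2, q.2.2)).2,
      (H.symm (q.1.2, q.2.1)).2))
  left_inv p := by simp
  right_inv q := by simp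

lemma ms_prod {V D : Type} [Fintype V] [Fintype D] (f : V × D → ℂ) :
    ms f = 𝔼 v : V, ms (fun a : D => f (v, a)) := by
  unfold ms
  rw [expect_prod]

lemma IsExp.zigzag {V D d : Type} [Fintype V] [Fintype D] [Fintype d] [Nonempty D] [Nonempty d]
    {G : V × D ≃ V × D} {H : D × d ≃ D × d} {κG κH : ℝ} (hκG : 0 ≤ κG) (hκH : 0 ≤ κH)
    (hG : IsExp G κG) (hH : IsExp H κH) : IsExp (zigzag G H) (3 * (κG + 2 * κH)) := by
  intro f
  let Ht : (V × D → ℂ) → V × D → ℂ := fun u p => avgOp H (fun a => u (p.1, a)) p.2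
  let Jt : (V × D → ℂ) → V × D → ℂ := fun u p => 𝔼 a : D, u (p.1, a)
  let R : (V × D → ℂ) → V × D → ℂ := fun u p => u (G p)
  have hR : ∀ u, ms (R u) = ms u := fun u => by
    unfold ms
    exact Fintype.expect_equiv G _ _ (fun _ => rfl)
  have hHJ : ∀ u, ms (fun p => Ht u p - Jt u p) ≤ κH * ms u := fun u => by
    rw [ms_prod, ms_prod u, mul_expect]
    exact expect_le_expect fun v _ => hH (fun a => u (v, a))
  have hHt : ∀ u, ms (Ht u) ≤ ms u := fun u => by
    rw [ms_prod, ms_prod u]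
    exact expect_le_expect fun v _ => ms_avgOp_le H (fun a => u (v, a))
  have hJt : ∀ u, ms (Jt u) ≤ ms u := fun u => by
    rw [ms_prod, ms_prod u]
    refine expect_le_expect fun v _ => ?_
    unfold ms
    simp only [Jt, Fintype.expect_const]
    exact norm_expect_sq_le _
  let g : V → ℂ := fun v => 𝔼 a : D, f (v, a)
  have hg : ms g ≤ ms f := by
    refine le_of_eq_of_le ?_ (hJt f)
    rw [ms_prod (Jt f)]
    unfold ms
    simp only [Jt, g, Fintype.expect_const]
  have hc : ms (fun p : V × D => avgOp G g p.1 - 𝔼 w, g w) ≤ κG * ms f := by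
    refine le_trans ?_ ((hG g).trans (mul_le_mul_of_nonneg_left hg hκG))
    rw [ms_prod]
    unfold ms
    simp only [Fintype.expect_const]
    rfl
  have key : ∀ p : V × D, avgOp (Pool.Agent.P.MP_a35bd4_an.zigzag G H) f p - 𝔼 w, f w =
      (Ht (R (Ht f)) p - Jt (R (Ht f)) p) + Jt (R (fun q => Ht f q - Jt f q)) p +
        (avgOp G g p.1 - 𝔼 w, g w) := by
    intro p
    have e1 : avgOp (Pool.Agent.P.MP_a35bd4_an.zigzag G H) f p = Ht (R (Ht f)) p := by
      simp only [avgOp, Ht, R]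
      rw [expect_prod]
      rfl
    have e2 : Jt (R (fun q => Ht f q - Jt f q)) p = Jt (R (Ht f)) p - avgOp G g p.1 := by
      simp only [Jt, R, avgOp, g]
      rw [expect_sub_distrib]
    have e3 : 𝔼 w, f w = 𝔼 w, g w := expect_prod f
    rw [e1, e2, e3]
    ring
  simp only [key]
  refine (ms_add3 _ _ _).trans ?_
  have a1 : ms (fun p => Ht (R (Ht f)) p - Jt (R (Ht f)) p) ≤ κH * ms f := by
    refine (hHJ _).trans (mul_le_mul_of_nonneg_left ?_ hκH)
    rw [hR]
    exact hHt f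
  have a2 : ms (Jt (R (fun q => Ht f q - Jt f q))) ≤ κH * ms f := by
    exact (hJt _).trans ((hR (fun q => Ht f q - Jt f q)).le.trans (hHJ f))
  have a2' : ms (fun v => Jt (R (fun q => Ht f q - Jt f q)) v) ≤ κH * ms f := a2
  linarith

/-- Cayley graph -/
def cayley {Γ S : Type} [AddCommGroup Γ] (s : S → Γ) : Γ × S ≃ Γ × S where
  toFun p := (p.1 + s p.2, p.2)
  invFun p := (p.1 - s p.2, p.2)
  left_inv p := by simp
  right_inv p := by simp

lemma ms_sum_char {Γ : Type} [AddCommGroup Γ] [Fintype Γ] (c : AddChar Γ ℂ → ℂ) :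
    ms (fun v => ∑ χ : AddChar Γ ℂ, c χ * χ v) = ∑ χ, ‖c χ‖ ^ 2 := by
  classical
  have h : ((ms (fun v => ∑ χ : AddChar Γ ℂ, c χ * χ v) : ℝ) : ℂ) = ((∑ χ, ‖c χ‖ ^ 2 : ℝ) : ℂ) := by
    unfold ms
    have e1 : ∀ v : Γ, ((‖∑ χ : AddChar Γ ℂ, c χ * χ v‖ ^ 2 : ℝ) : ℂ) =
        ∑ χ : AddChar Γ ℂ, ∑ ψ : AddChar Γ ℂ, (c χ * starRingEnd ℂ (c ψ)) * (χ - ψ) v := by
      intro v
      rw [← Complex.normSq_eq_norm_sq, ← Complex.mul_conj, map_sum, sum_mul_sum]
      refine sum_congr rfl fun χ _ => sum_congr rfl fun ψ _ => ?_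
      rw [AddChar.sub_apply', map_mul, div_eq_mul_inv, ← AddChar.map_neg_eq_inv,
        AddChar.map_neg_eq_conj]
      ring
    rw [Complex.ofReal_expect]
    simp only [e1]
    rw [expect_sum_comm]
    push_cast
    refine sum_congr rfl fun χ _ => ?_
    rw [expect_sum_comm, sum_eq_single χ]
    · rw [← mul_expect, AddChar.expect_eq_ite, if_pos (sub_self χ), mul_one, Complex.mul_conj,
        Complex.normSq_eq_norm_sq]
      push_cast
      rfl
    · intro ψ _ hψ
      rw [← mul_expect, AddChar.expect_eq_ite, if_neg (sub_ne_zero.2 (Ne.symm hψ)), mul_zero]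
    · simp
  exact_mod_cast h

lemma isExp_cayley {Γ S : Type} [AddCommGroup Γ] [Fintype Γ] [Fintype S] [Nonempty S] (s : S → Γ)
    {l : ℝ} (hl : ∀ χ : AddChar Γ ℂ, χ ≠ 0 → ‖𝔼 g : S, χ (s g)‖ ≤ l) :
    IsExp (cayley s) (l ^ 2) := by
  classical
  intro f
  set c : AddChar Γ ℂ → ℂ := fun χ => (AddChar.complexBasis Γ).repr f χ with hc
  have hf : ∀ v, f v = ∑ χ : AddChar Γ ℂ, c χ * χ v := by
    intro v
    have := congrFun ((AddChar.complexBasis Γ).sum_repr f) v
    rw [← this]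
    simp [hc]
  have hf' : f = fun v => ∑ χ : AddChar Γ ℂ, c χ * χ v := funext hf
  have e1 : ∀ v, avgOp (cayley s) f v - 𝔼 w, f w =
      ∑ χ : AddChar Γ ℂ, (if χ = 0 then 0 else c χ * 𝔼 g : S, χ (s g)) * χ v := by
    intro v
    simp only [avgOp, cayley, Equiv.coe_fn_mk]
    simp only [hf]
    rw [expect_sum_comm, expect_sum_comm, ← sum_sub_distrib]
    refine sum_congr rfl fun χ _ => ?_
    rw [← mul_expect, ← mul_expect, AddChar.expect_eq_ite]
    by_cases h : χ = 0
    · subst h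
      simp
    · simp only [h, if_false, AddChar.map_add_eq_mul]
      rw [← mul_expect]
      ring
  simp only [e1]
  rw [ms_sum_char, hf', ms_sum_char, mul_sum]
  refine sum_le_sum fun χ _ => ?_
  by_cases h : χ = 0
  · simp only [h, if_true, norm_zero]
    have : (0 : ℝ) ≤ l ^ 2 * ‖(AddChar.complexBasis Γ).repr f 0‖ ^ 2 := by positivity
    simpa [hc] using this
  · simp only [h, if_false, norm_mul, mul_pow]
    rw [mul_comm]
    have := hl χ h
    gcongr

lemma base_char (p : ℕ) [Fact p.Prime] (χ : AddChar (Fin 8 → ZMod p) ℂ) (hχ : χ ≠ 0) :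
    ‖𝔼 g : ZMod p × ZMod p, χ (fun i : Fin 8 => g.2 * g.1 ^ (i : ℕ))‖ ≤ 7 / p := by
  classical
  let ψ : ZMod p → AddChar (ZMod p) ℂ := fun x =>
    χ.compAddMonoidHom
      { toFun := fun y i => y * x ^ (i : ℕ)
        map_zero' := by ext i; simp
        map_add' := fun a b => by ext i; simp [add_mul] }
  have e1 : 𝔼 g : ZMod p × ZMod p, χ (fun i : Fin 8 => g.2 * g.1 ^ (i : ℕ)) =
      𝔼 x : ZMod p, if ψ x = 0 then (1 : ℂ) else 0 := by
    rw [expect_prod]
    refine expect_congr rfl fun x _ => ?_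
    rw [← AddChar.expect_eq_ite]
    rfl
  have hcard : (univ.filter fun x : ZMod p => ψ x = 0).card ≤ 7 := by
    by_contra hcon
    push Not at hcon
    obtain ⟨t, ht, htc⟩ := exists_subset_card_eq (n := 8) hcon
    let e : Fin 8 → ZMod p := fun j => (t.equivFinOfCardEq htc).symm j
    have he : Function.Injective e :=
      Subtype.val_injective.comp (t.equivFinOfCardEq htc).symm.injective
    have hψ : ∀ j, ψ (e j) = 0 := fun j =>
      (mem_filter.1 (ht ((t.equivFinOfCardEq htc).symm j).2)).2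
    have hdet : (Matrix.vandermonde e).det ≠ 0 := Matrix.det_vandermonde_ne_zero_iff.2 he
    apply hχ
    ext v
    have hu : IsUnit (Matrix.vandermonde e) :=
      (Matrix.isUnit_iff_isUnit_det _).2 (isUnit_iff_ne_zero.2 hdet)
    obtain ⟨y, hy⟩ := Matrix.vecMul_surjective_iff_isUnit.2 hu v
    have hv : v = ∑ j, (fun i : Fin 8 => y j * e j ^ (i : ℕ)) := by
      rw [← hy]
      ext i
      simp [Matrix.vecMul, dotProduct, Matrix.vandermonde]
    have hs : ∀ s : Finset (Fin 8), χ (∑ j ∈ s, (fun i : Fin 8 => y j * e j ^ (i : ℕ))) = 1 := by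
      intro s
      induction s using Finset.induction_on with
      | empty => simp
      | insert j s hj ih =>
        rw [sum_insert hj, AddChar.map_add_eq_mul, ih, mul_one]
        have := DFunLike.congr_fun (hψ j) (y j)
        simpa [ψ] using this
    rw [hv, hs]
    simp
  rw [e1, Fintype.expect_eq_sum_div_card, sum_boole, ZMod.card, norm_div]
  simp only [Complex.norm_natCast]
  have hp : (0 : ℝ) < p := by exact_mod_cast (Fact.out : p.Prime).pos
  gcongr
  exact_mod_cast hcard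

theorem exists_expander (κ : ℝ) (hκ : 0 < κ) :
    ∃ r : ℕ, 0 < r ∧ ∀ M : ℕ, ∃ N : ℕ, M ≤ N ∧ 0 < N ∧
      ∃ rot : Fin N × Fin r ≃ Fin N × Fin r, IsExp rot κ := by
  classical
  set k : ℝ := min κ (1 / 6) with hk
  have hk0 : 0 < k := lt_min hκ (by norm_num)
  have hk6 : k ≤ 1 / 6 := min_le_right _ _
  obtain ⟨n, hn⟩ := exists_nat_ge (600 / k)
  obtain ⟨p, hpn, hp⟩ := Nat.exists_infinite_primes n
  haveI : Fact p.Prime := ⟨hp⟩
  have hp1 : (1 : ℝ) ≤ p := by exact_mod_cast hp.one_le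
  have hpk : 600 / k ≤ p := hn.trans (by exact_mod_cast hpn)
  have hκH : (7 / (p : ℝ)) ^ 2 ≤ k / 12 := by
    rw [div_le_iff₀ hk0] at hpk
    rw [div_pow, div_le_div_iff₀ (by positivity) (by norm_num)]
    nlinarith
  let d := ZMod p × ZMod p
  let s : d → (Fin 8 → ZMod p) := fun g i => g.2 * g.1 ^ (i : ℕ)
  have hH0 : IsExp (cayley s) (k / 12) :=
    (isExp_cayley s (l := 7 / p) (fun χ hχ => base_char p χ hχ)).mono hκH
  have hcard : Fintype.card (Fin 8 → ZMod p) = Fintype.card ((d × d) × (d × d)) := by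
    simp only [d, Fintype.card_prod, Fintype.card_fun, ZMod.card, Fintype.card_fin]
    ring
  let H := relabel (Fintype.equivOfCardEq hcard) (Equiv.refl d) (cayley s)
  have hH : IsExp H (k / 12) := hH0.relabel _ _
  have hW : 2 ≤ Fintype.card ((d × d) × (d × d)) := by
    rw [← hcard]
    simp only [Fintype.card_fun, ZMod.card, Fintype.card_fin]
    exact hp.two_le.trans (Nat.le_self_pow (by norm_num) p)
  have main : ∀ t : ℕ, ∃ N : ℕ, t + 1 ≤ N ∧
      ∃ rot : Fin N × (d × d) ≃ Fin N × (d × d), IsExp rot k := by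
    intro t
    induction t with
    | zero =>
      refine ⟨Fintype.card ((d × d) × (d × d)), by omega,
        relabel (Fintype.equivFin _) (Equiv.refl _) (sqRot H), IsExp.relabel _ _ ?_⟩
      refine (hH.sq (by positivity)).mono ?_
      nlinarith
    | succ t ih =>
      obtain ⟨N, hN, rot, hrot⟩ := ih
      haveI : Nonempty (Fin N) := ⟨⟨0, by omega⟩⟩
      refine ⟨Fintype.card (Fin N × ((d × d) × (d × d))), ?_,
        relabel (Fintype.equivFin _) (Equiv.refl _) (zigzag (sqRot rot) H), IsExp.relabel _ _ ?_⟩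
      · rw [Fintype.card_prod, Fintype.card_fin]
        nlinarith
      · refine (IsExp.zigzag (by positivity) (by positivity) (hrot.sq hk0.le) hH).mono ?_
        nlinarith
  refine ⟨Fintype.card (d × d), Fintype.card_pos, fun M => ?_⟩
  obtain ⟨N, hN, rot, hrot⟩ := main M
  exact ⟨N, by omega, by omega, relabel (Equiv.refl _) (Fintype.equivFin _) rot,
    (hrot.relabel _ _).mono (min_le_left _ _)⟩

end

end Pool.Agent.P.MP_a35bd4_an
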