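import Pool.Agent.P.MP_a35bd4_an.CPAP

/-! Reduction of the general case to unital homogeneous maps. -/

open scoped BigOperators Topology
open Filter

namespace Pool.Agent.P.MP_a35bd4_an

noncomputable section

universe u v

variable {A : Type u} [NonUnitalCStarAlgebra A] {H : Type v} [NormedAddCommGroup H]
  [InnerProductSpace ℂ H] [CompleteSpace H] {φ Φ : A → H →L[ℂ] H} {ε : ℝ}

/-- approximate star homomorphism on the unit ball -/
def AH (ε : ℝ) (φ : A → H →L[ℂ] H) : Prop :=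
  ∀ (a b : A) (c : ℂ), ‖a‖ ≤ 1 → ‖b‖ ≤ 1 → ‖c‖ ≤ 1 →
    ‖φ a‖ ≤ 1 ∧ ‖φ (a + b) - φ a - φ b‖ ≤ ε ∧ ‖φ (a * b) - φ a * φ b‖ ≤ ε ∧
      ‖φ (star a) - star (φ a)‖ ≤ ε ∧ ‖φ (c • a) - c • φ a‖ ≤ ε

/-- homogeneous approximate star homomorphism -/
structure QH0 (Φ : A → H →L[ℂ] H) (ε : ℝ) : Prop where
  norm_le : ∀ a, ‖Φ a‖ ≤ ‖a‖
  add : ∀ a b, ‖Φ (a + b) - Φ a - Φ b‖ ≤ ε * (‖a‖ + ‖b‖)
  mul : ∀ a b, ‖Φ (a * b) - Φ a * Φ b‖ ≤ ε * (‖a‖ * ‖b‖)
  star : ∀ a, ‖Φ (star a) - star (Φ a)‖ ≤ ε * ‖a‖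
  smul : ∀ (c : ℂ) a, ‖Φ (c • a) - c • Φ a‖ ≤ ε * (‖c‖ * ‖a‖)
  hom : ∀ (t : ℝ) a, 0 ≤ t → Φ (t • a) = t • Φ a

/-- homogenisation -/
def hmg (φ : A → H →L[ℂ] H) (a : A) : H →L[ℂ] H := ‖a‖ • φ (‖a‖⁻¹ • a)

lemma norm_inv_smul_le {X : Type*} [NormedAddCommGroup X] [NormedSpace ℝ X] {a : X} {r : ℝ}
    (h : ‖a‖ ≤ r) : ‖r⁻¹ • a‖ ≤ 1 := by
  have hr : 0 ≤ r := (norm_nonneg _).trans h
  rw [norm_smul, norm_inv, Real.norm_of_nonneg hr]
  exact inv_mul_le_one_of_le₀ h hr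

lemma AH.near (h : AH ε φ) {a : A} {r : ℝ} (hr : 0 < r) (ha : ‖a‖ ≤ r) :
    ‖hmg φ a - r • φ (r⁻¹ • a)‖ ≤ r * ε := by
  have h1 := (h (‖a‖⁻¹ • a) 0 ((‖a‖ / r : ℝ) : ℂ) (norm_inv_smul_le le_rfl) (by simp) (by
    rw [Complex.norm_real, Real.norm_of_nonneg (by positivity)]
    exact div_le_one_of_le₀ ha hr.le)).2.2.2.2
  have e : (‖a‖ / r) • ‖a‖⁻¹ • a = r⁻¹ • a := by
    by_cases h0 : a = 0
    · simp [h0]
    · rw [smul_smul]
      congr 1
      have := norm_ne_zero_iff.2 h0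
      field_simp
  rw [Complex.coe_smul, Complex.coe_smul, e] at h1
  have e2 : hmg φ a - r • φ (r⁻¹ • a) = -(r • (φ (r⁻¹ • a) - (‖a‖ / r) • φ (‖a‖⁻¹ • a))) := by
    rw [smul_sub, smul_smul, mul_div_cancel₀ _ hr.ne', neg_sub, hmg]
  rw [e2, norm_neg, norm_smul, Real.norm_of_nonneg hr.le]
  gcongr

lemma AH.qh0 (h : AH ε φ) (hε : 0 ≤ ε) : QH0 (hmg φ) (4 * ε) := by
  have u1 : ∀ a : A, ‖‖a‖⁻¹ • a‖ ≤ 1 := fun a => norm_inv_smul_le le_rfl
  have z : hmg φ 0 = 0 := by simp [hmg]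
  refine ⟨fun a => ?_, fun a b => ?_, fun a b => ?_, fun a => ?_, fun c a => ?_, fun t a ht => ?_⟩
  · rw [hmg, norm_smul, norm_norm]
    exact mul_le_of_le_one_right (norm_nonneg _) (h _ 0 0 (u1 a) (by simp) (by simp)).1
  · rcases (add_nonneg (norm_nonneg a) (norm_nonneg b)).eq_or_lt with h0 | h0
    · have ha : a = 0 := norm_le_zero_iff.1 (by linarith [norm_nonneg b])
      have hb : b = 0 := norm_le_zero_iff.1 (by linarith [norm_nonneg a])
      simp [ha, hb, z]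
    set r := ‖a‖ + ‖b‖ with hr
    have ha : ‖a‖ ≤ r := by linarith [norm_nonneg b]
    have hb : ‖b‖ ≤ r := by linarith [norm_nonneg a]
    have h1 := h.near h0 (norm_add_le a b)
    have h2 := h.near h0 ha
    have h3 := h.near h0 hb
    have h4 := (h _ _ 0 (norm_inv_smul_le ha) (norm_inv_smul_le hb) (by simp)).2.1
    have e : hmg φ (a + b) - hmg φ a - hmg φ b = (hmg φ (a + b) - r • φ (r⁻¹ • (a + b))) -
        (hmg φ a - r • φ (r⁻¹ • a)) - (hmg φ b - r • φ (r⁻¹ • b)) +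
        r • (φ (r⁻¹ • a + r⁻¹ • b) - φ (r⁻¹ • a) - φ (r⁻¹ • b)) := by
      rw [smul_add]
      module
    rw [e]
    refine (norm_add_le _ _).trans ((add_le_add ((norm_sub_le _ _).trans (add_le_add
      ((norm_sub_le _ _).trans (add_le_add h1 h2)) h3)) (norm_smul _ _).le).trans ?_)
    rw [Real.norm_of_nonneg h0.le]
    nlinarith [mul_le_mul_of_nonneg_left h4 h0.le]
  · rcases (mul_nonneg (norm_nonneg a) (norm_nonneg b)).eq_or_lt with h0 | h0
    · rcases mul_eq_zero.1 h0.symm with ha | ha <;> simp [norm_eq_zero.1 ha, z]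
    have h1 := h.near h0 (norm_mul_le a b)
    have h4 := (h _ _ 0 (u1 a) (u1 b) (by simp)).2.2.1
    have e : hmg φ (a * b) - hmg φ a * hmg φ b =
        (hmg φ (a * b) - (‖a‖ * ‖b‖) • φ ((‖a‖ * ‖b‖)⁻¹ • (a * b))) +
        (‖a‖ * ‖b‖) • (φ (‖a‖⁻¹ • a * ‖b‖⁻¹ • b) - φ (‖a‖⁻¹ • a) * φ (‖b‖⁻¹ • b)) := by
      rw [smul_mul_smul_comm, ← mul_inv, hmg, hmg, hmg, smul_mul_smul_comm]
      module
    rw [e]
    refine (norm_add_le _ _).trans ((add_le_add h1 (norm_smul _ _).le).trans ?_)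
    rw [Real.norm_of_nonneg h0.le]
    nlinarith [mul_le_mul_of_nonneg_left h4 h0.le, mul_nonneg h0.le hε]
  · have h4 := (h _ 0 0 (u1 a) (by simp) (by simp)).2.2.2.1
    rw [hmg, hmg, norm_star, star_smul, star_trivial ‖a‖, ← smul_sub, norm_smul, norm_norm]
    rw [star_smul, star_trivial ‖a‖⁻¹] at h4
    nlinarith [mul_le_mul_of_nonneg_left h4 (norm_nonneg a), mul_nonneg (norm_nonneg a) hε]
  · by_cases hc : c = 0
    · simp [hc, z]
    have hc' := norm_ne_zero_iff.2 hc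
    have h4 := (h _ 0 (‖c‖⁻¹ • c) (u1 a) (by simp) (norm_inv_smul_le le_rfl)).2.2.2.2
    have e : hmg φ (c • a) - c • hmg φ a = (‖c‖ * ‖a‖) •
        (φ ((‖c‖⁻¹ • c) • ‖a‖⁻¹ • a) - (‖c‖⁻¹ • c) • φ (‖a‖⁻¹ • a)) := by
      rw [hmg, hmg, norm_smul, smul_sub]
      congr 1
      · congr 2
        rw [mul_inv, mul_smul, smul_assoc, smul_comm c]
      · rw [smul_assoc, smul_smul, mul_right_comm, mul_inv_cancel₀ hc', one_mul, smul_comm]
    rw [e, norm_smul, Real.norm_of_nonneg (by positivity)]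
    have h0 : 0 ≤ ‖c‖ * ‖a‖ := by positivity
    nlinarith [mul_le_mul_of_nonneg_left h4 h0, mul_nonneg h0 hε]
  · rcases ht.eq_or_lt with h0 | h0
    · simp [← h0, z]
    rw [hmg, hmg, norm_smul, Real.norm_of_nonneg ht, smul_smul, smul_smul, mul_inv,
      mul_right_comm, inv_mul_cancel₀ h0.ne', one_mul]

lemma norm_fst_le' (x : Unitization ℂ A) : ‖x.fst‖ ≤ ‖x‖ := by
  rw [Unitization.norm_eq_sup]
  exact le_sup_left

lemma norm_snd_le' (x : Unitization ℂ A) : ‖x.snd‖ ≤ 2 * ‖x‖ := by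
  have e : (x.snd : Unitization ℂ A) = x - x.fst • 1 := by
    ext <;> simp [sub_eq_add_neg]
  rw [← Unitization.norm_inr (𝕜 := ℂ), e]
  refine (norm_sub_le _ _).trans ?_
  rw [norm_smul, norm_one]
  linarith [norm_fst_le' x]

lemma QH0.qh (h : QH0 Φ ε) (hε : 0 ≤ ε) :
    QH (fun x : Unitization ℂ A => Φ x.snd + x.fst • 1) (20 * ε) := by
  have z : Φ 0 = 0 := by simpa using h.hom 0 0 le_rfl
  refine ⟨by positivity, fun a => ?_, fun a b => ?_, fun x y => ?_, fun a => ?_, fun c a => ?_,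
    fun t a ht => ?_, by simp [z]⟩
  · refine (norm_add_le _ _).trans ?_
    rw [norm_smul]
    have := mul_le_mul (norm_fst_le' a) (norm_one_le' (B := H →L[ℂ] H)) (norm_nonneg _)
      (norm_nonneg _)
    linarith [h.norm_le a.snd, norm_snd_le' a]
  · have e : Φ (a + b).snd + (a + b).fst • 1 - (Φ a.snd + a.fst • 1) - (Φ b.snd + b.fst • 1) =
        Φ (a.snd + b.snd) - Φ a.snd - Φ b.snd := by
      rw [Unitization.snd_add, Unitization.fst_add]
      module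
    rw [e]
    refine (h.add _ _).trans ?_
    have := mul_le_mul_of_nonneg_left (add_le_add (norm_snd_le' a) (norm_snd_le' b)) hε
    nlinarith [mul_nonneg hε (norm_nonneg a), mul_nonneg hε (norm_nonneg b)]
  · have e : Φ (x * y).snd + (x * y).fst • 1 - (Φ x.snd + x.fst • 1) * (Φ y.snd + y.fst • 1) =
        (Φ (x.fst • y.snd + y.fst • x.snd + x.snd * y.snd) - Φ (x.fst • y.snd + y.fst • x.snd) -
          Φ (x.snd * y.snd)) + (Φ (x.fst • y.snd + y.fst • x.snd) - Φ (x.fst • y.snd) -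
          Φ (y.fst • x.snd)) + (Φ (x.fst • y.snd) - x.fst • Φ y.snd) +
          (Φ (y.fst • x.snd) - y.fst • Φ x.snd) + (Φ (x.snd * y.snd) - Φ x.snd * Φ y.snd) := by
      rw [Unitization.snd_mul, Unitization.fst_mul]
      simp only [add_mul, mul_add, smul_mul_assoc, mul_smul_comm, one_mul, mul_one]
      module
    have n1 : ‖x.fst‖ * ‖y.snd‖ ≤ 2 * (‖x‖ * ‖y‖) :=
      (mul_le_mul (norm_fst_le' x) (norm_snd_le' y) (norm_nonneg _) (norm_nonneg _)).trans_eq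
        (by ring)
    have n2 : ‖y.fst‖ * ‖x.snd‖ ≤ 2 * (‖x‖ * ‖y‖) :=
      (mul_le_mul (norm_fst_le' y) (norm_snd_le' x) (norm_nonneg _) (norm_nonneg _)).trans_eq
        (by ring)
    have n3 : ‖x.snd‖ * ‖y.snd‖ ≤ 4 * (‖x‖ * ‖y‖) :=
      (mul_le_mul (norm_snd_le' x) (norm_snd_le' y) (norm_nonneg _) (by positivity)).trans_eq
        (by ring)
    have n4 := norm_add_le (x.fst • y.snd) (y.fst • x.snd)
    have n5 := norm_mul_le x.snd y.snd
    have a1 := h.add (x.fst • y.snd + y.fst • x.snd) (x.snd * y.snd)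
    have a2 := h.add (x.fst • y.snd) (y.fst • x.snd)
    rw [norm_smul, norm_smul] at n4 a2
    have a3 := mul_le_mul_of_nonneg_left (add_le_add n4 n5) hε
    rw [e]
    refine (norm_add_le _ _).trans ((add_le_add ((norm_add_le _ _).trans (add_le_add
      (norm_add₃_le.trans (add_le_add (add_le_add (a1.trans a3) a2) (h.smul _ _))) (h.smul _ _)))
      (h.mul _ _)).trans ?_)
    nlinarith [mul_le_mul_of_nonneg_left n1 hε, mul_le_mul_of_nonneg_left n2 hε,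
      mul_le_mul_of_nonneg_left n3 hε]
  · have e : Φ (Star.star a).snd + (Star.star a).fst • 1 - Star.star (Φ a.snd + a.fst • 1) =
        Φ (Star.star a.snd) - Star.star (Φ a.snd) := by simp
    rw [e]
    refine (h.star _).trans ?_
    nlinarith [mul_le_mul_of_nonneg_left (norm_snd_le' a) hε, mul_nonneg hε (norm_nonneg a)]
  · have e : Φ (c • a).snd + (c • a).fst • 1 - c • (Φ a.snd + a.fst • 1) =
        Φ (c • a.snd) - c • Φ a.snd := by simp [smul_smul]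
    rw [e]
    refine (h.smul _ _).trans ?_
    have h0 : 0 ≤ ε * ‖c‖ := by positivity
    nlinarith [mul_le_mul_of_nonneg_left (norm_snd_le' a) h0, mul_nonneg h0 (norm_nonneg a)]
  · rw [Unitization.snd_smul, Unitization.fst_smul, h.hom _ _ ht, smul_add, smul_assoc]

lemma mem_of_commute (B : VonNeumannAlgebra H) {x : H →L[ℂ] H}
    (h : ∀ w ∈ B.commutant, star w * w = 1 → Commute w x) : x ∈ B := by
  rw [← B.commutant_commutant, VonNeumannAlgebra.mem_commutant_iff]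
  intro T hT
  haveI : IsClosed (B.commutant.toStarSubalgebra : Set (H →L[ℂ] H)) := by
    rw [VonNeumannAlgebra.coe_toStarSubalgebra, VonNeumannAlgebra.coe_commutant]
    exact Set.isClosed_centralizer _
  obtain ⟨U, c, hU, -⟩ := CStarAlgebra.exists_sum_four_unitary
    (⟨T, hT⟩ : B.commutant.toStarSubalgebra)
  have e : T = ∑ i, c i • ((U i : B.commutant.toStarSubalgebra) : H →L[ℂ] H) := by
    simpa using congrArg Subtype.val hU
  rw [e]
  refine Commute.sum_left _ _ _ fun i _ => (h _ (U i).1.2 ?_).smul_left _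
  exact congrArg Subtype.val (U i).2.1

lemma hmg_mem (B : VonNeumannAlgebra H) (hφ : ∀ a, φ a ∈ B) (a : A) : hmg φ a ∈ B := by
  rw [hmg, ← Complex.coe_smul]
  exact B.toStarSubalgebra.smul_mem (hφ _) _

lemma AH.near_one (h : AH ε φ) {a : A} (ha : ‖a‖ ≤ 1) : ‖hmg φ a - φ a‖ ≤ ε := by
  simpa using h.near one_pos ha

/-- the stability statement for given tolerances -/
def Good (ε η : ℝ) : Prop :=
  ∀ (A : Type u) [NonUnitalCStarAlgebra A], (∀ (F : Finset A) (η : ℝ), 0 < η →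
    ∃ (k : ℕ) (φ : A →ₗ[ℂ] Matrix (Fin k) (Fin k) ℂ) (ψ : Matrix (Fin k) (Fin k) ℂ →ₗ[ℂ] A),
      (∀ (n : ℕ) (y : Matrix (Fin n) (Fin n) A),
        ∃ z : Matrix (Fin n) (Fin n) (Matrix (Fin k) (Fin k) ℂ), (star y * y).map φ = star z * z) ∧
      (∀ (n : ℕ) (y : Matrix (Fin n) (Fin n) (Matrix (Fin k) (Fin k) ℂ)),
        ∃ z : Matrix (Fin n) (Fin n) A, (star y * y).map ψ = star z * z) ∧
      (∀ a, ‖Matrix.toEuclideanCLM (𝕜 := ℂ) (φ a)‖ ≤ ‖a‖) ∧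
      (∀ M, ‖ψ M‖ ≤ ‖Matrix.toEuclideanCLM (𝕜 := ℂ) M‖) ∧ ∀ a ∈ F, ‖ψ (φ a) - a‖ < η) →
    ∀ (H : Type v) [NormedAddCommGroup H] [InnerProductSpace ℂ H] [CompleteSpace H]
      (B : VonNeumannAlgebra H), 0 ≤ ε → ∀ φ : A → H →L[ℂ] H, (∀ a, φ a ∈ B) → AH ε φ →
      ∃ ψ : A →⋆ₙₐ[ℂ] (H →L[ℂ] H), (∀ a, ψ a ∈ B) ∧ ∀ a, ‖a‖ ≤ 1 → ‖φ a - ψ a‖ ≤ η

lemma Good.mono {ε η η' : ℝ} (h : Good.{u, v} ε η) (h' : η ≤ η') : Good.{u, v} ε η' := by
  intro A _ hA H _ _ _ B hε φ hφ hh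
  obtain ⟨ψ, h1, h2⟩ := h A hA H B hε φ hφ hh
  exact ⟨ψ, h1, fun a ha => (h2 a ha).trans h'⟩

lemma good_one (ε : ℝ) : Good.{u, v} ε 1 := by
  intro A _ hA H _ _ _ B hε φ hφ hh
  exact ⟨0, fun a => zero_mem B, fun a ha => by
    simpa using (hh a 0 0 ha (by simp) (by simp)).1⟩

lemma good_zero : Good.{u, v} 0 0 := by
  intro A _ hA H _ _ _ B hε φ hφ hh
  have h := hh.qh0 le_rfl
  refine ⟨⟨⟨⟨⟨hmg φ, fun c a => ?_⟩, ?_, fun a b => ?_⟩, fun a b => ?_⟩, fun a => ?_⟩,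
    hmg_mem B hφ, fun a ha => ?_⟩
  · simpa [sub_eq_zero] using h.smul c a
  · simp [hmg]
  · simpa [sub_sub, sub_eq_zero] using h.add a b
  · simpa [sub_eq_zero] using h.mul a b
  · simpa [sub_eq_zero] using h.star a
  · rw [norm_sub_rev]
    exact hh.near_one ha

lemma exists_good (η : ℝ) (hη : 0 < η) : ∃ ε₀ : ℝ, 0 < ε₀ ∧ ∀ ε, ε ≤ ε₀ → Good.{u, v} ε η := by
  obtain ⟨ε₁, hε₁, hs⟩ := unital_stab.{u, v} (η / 2) (by positivity)
  refine ⟨min (ε₁ / 80) (η / 2), by positivity, fun ε hε => ?_⟩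
  intro A _ hA H _ _ _ B hε0 φ hφ hh
  letI := CStarAlgebra.spectralOrder A
  haveI := CStarAlgebra.spectralOrderedRing A
  have h1 := hε.trans (min_le_left _ _)
  have h2 := hε.trans (min_le_right _ _)
  obtain ⟨ψ, hψ1, hψ2⟩ := hs ((hh.qh0 hε0).qh (by positivity)) (by linarith) (hasEC_of_cpap hA)
  have hc : ∀ w ∈ B.commutant, ∀ x : Unitization ℂ A,
      Commute w (hmg φ x.snd + x.fst • 1) := fun w hw x =>
    (show Commute w _ from (VonNeumannAlgebra.mem_commutant_iff.1 hw _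
      (hmg_mem B hφ _)).symm).add_right ((Commute.one_right w).smul_right _)
  refine ⟨ψ.comp (Unitization.inrNonUnitalStarAlgHom ℂ A), fun a => mem_of_commute B
    fun w hw hw1 => hψ2 w hw1 (hc w hw) (hc _ (star_mem hw)) _, fun a ha => ?_⟩
  have b1 := hψ1 a
  simp only [Unitization.snd_inr, Unitization.fst_inr, zero_smul, add_zero,
    Unitization.norm_inr] at b1
  have b2 := hh.near_one ha
  have b3 := norm_sub_le_norm_sub_add_norm_sub (ψ a) (hmg φ a) (φ a)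
  have b4 := mul_le_of_le_one_right (show 0 ≤ η / 2 by positivity) ha
  rw [norm_sub_rev]
  change ‖ψ a - φ a‖ ≤ η
  linarith

theorem exists_modulus : ∃ f : ℝ → ℝ, Tendsto f (𝓝 0) (𝓝 0) ∧ ∀ ε, Good.{u, v} ε (f ε) := by
  let S : ℝ → Set ℝ := fun ε => {η | 0 ≤ η ∧ Good.{u, v} ε η}
  have hne : ∀ ε, (S ε).Nonempty := fun ε => ⟨1, zero_le_one, good_one ε⟩
  have hbd : ∀ ε, BddBelow (S ε) := fun ε => ⟨0, fun η h => h.1⟩
  have h0 : ∀ ε, 0 ≤ sInf (S ε) := fun ε => le_csInf (hne ε) fun η h => h.1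
  refine ⟨fun ε => sInf (S ε) + |ε|, ?_, fun ε => ?_⟩
  · have t1 : Tendsto (fun ε => sInf (S ε)) (𝓝 0) (𝓝 0) := by
      refine tendsto_order.2 ⟨fun a ha => Eventually.of_forall fun ε => ha.trans_le (h0 ε),
        fun a ha => ?_⟩
      obtain ⟨ε₀, h1, h2⟩ := exists_good.{u, v} (a / 2) (by positivity)
      filter_upwards [ge_mem_nhds h1] with ε hε
      exact (csInf_le (hbd ε) ⟨by positivity, h2 ε hε⟩).trans_lt (by linarith)
    simpa using t1.add (continuous_abs.tendsto 0)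
  · by_cases hε : ε = 0
    · subst hε
      exact good_zero.mono (by simpa using h0 0)
    · obtain ⟨η, h1, h2⟩ := exists_lt_of_csInf_lt (hne ε)
        (lt_add_of_pos_right _ (abs_pos.2 hε))
      exact h1.2.mono h2.le

end

end Pool.Agent.P.MP_a35bd4_an
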