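import Pool.Agent.P.MP_a35bd4_an.Moments
import Pool.Agent.P.MP_a35bd4_an.Dom

/-! Gaussian linearisation of a quasi homomorphism along a column. -/

open scoped BigOperators InnerProductSpace Matrix.Norms.L2Operator
open MeasureTheory ProbabilityTheory

namespace Pool.Agent.P.MP_a35bd4_an

noncomputable section

universe u v

section vec

variable {X : Type*} [NormedAddCommGroup X] [MeasurableSpace X] [NormedSpace ℝ X] [BorelSpace X]
  [SecondCountableTopology X] [CompleteSpace X] (μ : Measure X) [IsGaussian μ]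
  {H : Type*} [NormedAddCommGroup H] [InnerProductSpace ℂ H]

lemma abs_integral_re_inner_le {f g : X → H} (hf : PG f) (hg : PG g) {a b : ℝ} (ha : 0 ≤ a)
    (hb : 0 ≤ b) (h : ∫ x, ‖f x‖ ^ 2 ∂μ ≤ a ^ 2) (h' : ∫ x, ‖g x‖ ^ 2 ∂μ ≤ b ^ 2) :
    |∫ x, (⟪f x, g x⟫_ℂ).re ∂μ| ≤ a * b := by
  letI := InnerProductSpace.rclikeToReal ℂ H
  have h1 := integral_inner_sq_le (μ := μ) (hf.norm.sq.integrable _) (hg.norm.sq.integrable _)
    ((hf.inner (𝕜 := ℝ) hg).integrable _)
  refine abs_le_of_sq_le_sq (h1.trans ?_) (by positivity)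
  rw [mul_pow]
  exact mul_le_mul h h' (integral_nonneg fun _ => by positivity) (by positivity)

omit [InnerProductSpace ℂ H] in
lemma integral_norm_add_sq_le {f g : X → H} (hf : PG f) (hg : PG g) :
    ∫ x, ‖f x + g x‖ ^ 2 ∂μ ≤ 2 * ∫ x, ‖f x‖ ^ 2 ∂μ + 2 * ∫ x, ‖g x‖ ^ 2 ∂μ := by
  rw [← integral_const_mul, ← integral_const_mul,
    ← integral_add (((PG.const _).mul hf.norm.sq).integrable _)
      (((PG.const _).mul hg.norm.sq).integrable _)]
  refine integral_mono ((hf.add hg).norm.sq.integrable _)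
    ((((PG.const _).mul hf.norm.sq).add ((PG.const _).mul hg.norm.sq)).integrable _) fun x => ?_
  have := pow_le_pow_left₀ (norm_nonneg _) (norm_add_le (f x) (g x)) 2
  simp only
  nlinarith [sq_nonneg (‖f x‖ - ‖g x‖)]

omit [InnerProductSpace ℂ H] [NormedSpace ℝ X] [BorelSpace X]
  [SecondCountableTopology X] [CompleteSpace X] [IsGaussian μ] in
lemma integral_norm_sq_comp {f : X → H} (hf : PG f) {T : X → X} (hT : MeasurePreserving T μ μ) :
    ∫ x, ‖f (T x)‖ ^ 2 ∂μ = ∫ x, ‖f x‖ ^ 2 ∂μ := by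
  conv_rhs => rw [← hT.map_eq]
  rw [integral_map hT.measurable.aemeasurable hf.norm.sq.sm.aestronglyMeasurable]

omit [InnerProductSpace ℂ H] in
lemma norm_le_of_re_inner' [InnerProductSpace ℂ H] (w : H) {c : ℝ} (hc : 0 ≤ c)
    (h : ∀ η : H, ‖η‖ ≤ 1 → (⟪η, w⟫_ℂ).re ≤ c) : ‖w‖ ≤ c := by
  by_cases h0 : w = 0
  · simpa [h0] using hc
  · have hn : 0 < ‖w‖ := norm_pos_iff.2 h0
    have := h (((‖w‖⁻¹ : ℝ) : ℂ) • w) (by
      rw [norm_smul, Complex.norm_real, norm_inv, norm_norm, inv_mul_cancel₀ hn.ne'])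
    rw [inner_smul_left, Complex.conj_ofReal, Complex.re_ofReal_mul,
      show (⟪w, w⟫_ℂ).re = ‖w‖ ^ 2 from inner_self_eq_norm_sq (𝕜 := ℂ) _] at this
    calc ‖w‖ = ‖w‖⁻¹ * ‖w‖ ^ 2 := by field_simp
      _ ≤ c := this

end vec

variable {A : Type u} [CStarAlgebra A] [PartialOrder A] [StarOrderedRing A] {H : Type v}
  [NormedAddCommGroup H] [InnerProductSpace ℂ H] [CompleteSpace H] {Φ : A → H →L[ℂ] H} {ε δ : ℝ}

omit [PartialOrder A] [StarOrderedRing A] in
lemma QH.abs_lin_le (h : QH Φ ε) {ζ η : H} (hζ : ‖ζ‖ ≤ 1) (hη : ‖η‖ ≤ 1) {l : A →L[ℝ] ℝ}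
    (hl : ∀ a, |(⟪η, Φ a ζ⟫_ℂ).re - l a| ≤ δ * ‖a‖) (hδ : δ ≤ 1) (a : A) : |l a| ≤ 4 * ‖a‖ := by
  have a1 := abs_le.1 (hl a)
  have a2 := abs_le.1 (h.re_le a hζ hη)
  have := mul_le_mul_of_nonneg_right hδ (norm_nonneg a)
  rw [abs_le]
  constructor <;> linarith

section gauss

variable {V : Type*} [NormedAddCommGroup V] [InnerProductSpace ℝ V] [FiniteDimensional ℝ V]
  [MeasurableSpace V] [BorelSpace V]

omit [PartialOrder A] [StarOrderedRing A] in
lemma L2small (h : QH Φ ε) (hL : Lin Φ δ) (hδ0 : 0 ≤ δ) (hδ : δ ≤ 1) {a : V → A} (pa : PG a)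
    {r : ℝ} (ha : ∀ x, ‖a x‖ ≤ r) {ζ : H} (hζ : ‖ζ‖ ≤ 1) {g : V → H} (pg : PG g) {θ : ℝ}
    (hg : ∀ x, ‖g x - Φ (a x) ζ‖ ≤ θ) :
    ∫ x, ‖g x‖ ^ 2 ∂(stdGaussian V) ≤
      2 * θ ^ 2 + 2 * (δ + 4 * ε) * r ^ 2 + 8 * sq2 (stdGaussian V) a := by
  obtain ⟨l, hl⟩ := hL ζ ζ hζ hζ
  have pl := (pa.star.mul pa).clm_comp l
  have hε := h.eps_nonneg
  calc _ ≤ ∫ x, (2 * θ ^ 2 + 2 * (δ + 4 * ε) * r ^ 2) + 2 * l (star (a x) * a x)
        ∂(stdGaussian V) := by
        refine integral_mono (pg.norm.sq.integrable _)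
          (((PG.const _).add ((PG.const _).mul pl)).integrable _) fun x => ?_
        have a1 := (abs_le.1 (hl (star (a x) * a x))).2
        have a2 := (abs_le.1 (h.norm_sq (a x) hζ)).1
        rw [CStarRing.norm_star_mul_self, ← sq] at a1
        have a3 : ‖a x‖ ^ 2 ≤ r ^ 2 := pow_le_pow_left₀ (norm_nonneg _) (ha x) 2
        have a4 : ‖g x‖ ≤ θ + ‖Φ (a x) ζ‖ := by
          have := norm_le_norm_sub_add (g x) (Φ (a x) ζ)
          linarith [hg x]
        have a5 := pow_le_pow_left₀ (norm_nonneg _) a4 2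
        have a6 := mul_le_mul_of_nonneg_left a3 hδ0
        have a7 := mul_le_mul_of_nonneg_left a3 hε
        simp only
        nlinarith [sq_nonneg (θ - ‖Φ (a x) ζ‖)]
    _ ≤ _ := by
        rw [integral_add (integrable_const _) (((PG.const _).mul pl).integrable _),
          integral_const_mul, l.integral_comp_comm ((pa.star.mul pa).integrable _)]
        have := (abs_le.1 (h.abs_lin_le hζ hζ hl hδ
          (∫ x, star (a x) * a x ∂(stdGaussian V)))).2
        simp only [integral_const, probReal_univ, smul_eq_mul, one_mul, sq2]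
        linarith

omit [PartialOrder A] [StarOrderedRing A] [InnerProductSpace ℝ V] [FiniteDimensional ℝ V]
  [BorelSpace V] in
lemma QH.pg (h : QH Φ ε) {u : V → A} (hu : Simple u) {R : ℝ} (hR : ∀ x, ‖u x‖ ≤ R) :
    PG (fun x => Φ (u x)) :=
  PG.bdd (hu.sm Φ) (C := 3 * R) fun x => (h.norm_le _).trans (by linarith [hR x])

lemma near_lin (h : QH Φ ε) (hL : Lin Φ δ) (hδ0 : 0 ≤ δ) (hδ : δ ≤ 1) (y : V →L[ℝ] A)
    {u : V → A} (hu : Simple u) {R κ : ℝ} (hR : ∀ x, ‖u x‖ ≤ R) (h1 : δ * R ^ 2 ≤ κ)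
    (h2 : ε * R ^ 2 ≤ κ) (h3 : sq2 (stdGaussian V) (fun x => u x - y x) ≤ 42 * κ) {ζ : H}
    (hζ : ‖ζ‖ ≤ 1) :
    ∫ x, ‖Φ (u x) ζ - linPart (fun x => Φ (u x)) x ζ‖ ^ 2 ∂(stdGaussian V) ≤ 40000 * κ := by
  have pu : PG u := PG.bdd (hu.sm id) hR
  have py : PG y := PG.clm y
  have pΦ := h.pg hu hR
  have pF := pΦ.apply ζ
  have hR0 : 0 ≤ R := (norm_nonneg _).trans (hR 0)
  have e : ∀ x, linPart (fun x => Φ (u x)) x ζ = linPart (fun x => Φ (u x) ζ) x := fun x => by
    rw [linPart_apply pΦ, linPart_apply pF,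
      ContinuousLinearMap.integral_apply (((PG.inner_id x).smul pΦ).integrable _)]
    rfl
  simp only [e]
  refine (gap pF).trans ?_
  let a : V → A := fun x => meh (1 / 2) u x - (1 / 2 : ℝ) • u x
  have pa : PG a := (pu.meh _).sub (pu.const_smul _)
  have hm : ∀ x, ‖meh (1 / 2) u x‖ ≤ R := fun x => by
    simpa [meh] using norm_integral_le_of_norm_le_const (μ := stdGaussian V)
      (f := fun z => u (mix (1 / 2) (x, z))) (Filter.Eventually.of_forall fun z => hR _)
  have ha : ∀ x, ‖a x‖ ≤ 3 / 2 * R := fun x => by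
    refine (norm_sub_le _ _).trans ?_
    rw [norm_smul, Real.norm_of_nonneg (by norm_num)]
    linarith [hm x, hR x]
  have hg : ∀ x, ‖(meh (1 / 2) (fun x => Φ (u x) ζ) x - (1 / 2 : ℝ) • Φ (u x) ζ) - Φ (a x) ζ‖ ≤
      3 * δ * R := fun x => by
    refine norm_le_of_re_inner' _ (by positivity) fun η hη => ?_
    obtain ⟨l, hl⟩ := hL ζ η hζ hη
    have p1 := (pF.comp_clm (mix (1 / 2))).sec x
    have p2 := (pu.comp_clm (mix (1 / 2))).sec x
    have b1 : (⟪η, meh (1 / 2) (fun x => Φ (u x) ζ) x⟫_ℂ).re ≤ l (meh (1 / 2) u x) + δ * R := by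
      rw [meh, meh, ← integral_inner (p1.integrable _), ← l.integral_comp_comm (p2.integrable _),
        ← Complex.reCLM_apply,
        ← Complex.reCLM.integral_comp_comm (((PG.const η).inner p1).integrable _)]
      have := integral_mono (μ := stdGaussian V) (((PG.const η).inner (𝕜 := ℂ) p1).re.integrable _)
        (((p2.clm_comp l).add (PG.const (δ * R))).integrable _) fun z => by
          have := (abs_le.1 (hl (u (mix (1 / 2) (x, z))))).2
          have := mul_le_mul_of_nonneg_left (hR (mix (1 / 2) (x, z))) hδ0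
          simp only
          linarith
      rw [integral_add ((p2.clm_comp l).integrable _) (integrable_const _)] at this
      simpa using this
    have b2 := (abs_le.1 (hl (u x))).1
    have b3 := (abs_le.1 (hl (a x))).1
    have b4 : l (a x) = l (meh (1 / 2) u x) - 1 / 2 * l (u x) := by simp [a]
    have b5 := mul_le_mul_of_nonneg_left (hR x) hδ0
    have b6 := mul_le_mul_of_nonneg_left (ha x) hδ0
    rw [inner_sub_right, inner_sub_right, Complex.sub_re, Complex.sub_re, ← Complex.coe_smul,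
      inner_smul_right, Complex.re_ofReal_mul]
    linarith
  have c1 := L2small h hL hδ0 hδ pa ha hζ ((pF.meh _).sub (pF.const_smul _)) hg
  have e2 : ∀ x, a x = meh (1 / 2) (fun x => u x - y x) x - (1 / 2 : ℝ) • (u x - y x) := fun x => by
    have : meh (1 / 2) (fun x => u x - y x) x = meh (1 / 2) u x - meh (1 / 2) y x :=
      integral_sub (((pu.comp_clm (mix (1 / 2))).sec x).integrable _)
        (((py.comp_clm (mix (1 / 2))).sec x).integrable _)
    rw [this, meh_clm]
    simp only [a]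
    module
  have c2 : sq2 (stdGaussian V) a ≤ 105 * κ := by
    have d1 := sq2_sub_le (stdGaussian V) ((pu.sub py).meh (1 / 2))
      ((pu.sub py).const_smul (1 / 2 : ℝ))
    have d2 := sq2_meh (pu.sub py) (ρ := 1 / 2) (by norm_num)
    rw [sq2_real_smul] at d1
    simp only [← e2] at d1
    change sq2 _ a ≤ _ at d1
    linarith
  have c3 : δ * (δ * R ^ 2) ≤ κ := (mul_le_of_le_one_left (by positivity) hδ).trans h1
  have hκ : 0 ≤ κ := le_trans (by positivity) h1
  nlinarith

end gauss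

variable {E : Type} [Fintype E] [DecidableEq E]

/-- the complex linear part of a real linear map -/
def cpart {Y : Type*} [NormedAddCommGroup Y] [NormedSpace ℂ Y]
    (l : EuclideanSpace ℂ E →L[ℝ] Y) : EuclideanSpace ℂ E →ₗ[ℂ] Y where
  toFun G := (1 / 2 : ℝ) • (l G - Complex.I • l (Complex.I • G))
  map_add' G G' := by
    simp only [smul_add, map_add]
    module
  map_smul' c G := by
    have e1 : c • G = c.re • G + c.im • (Complex.I • G) := by
      conv_lhs => rw [← Complex.re_add_im c]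
      rw [add_smul, mul_smul, Complex.coe_smul, Complex.coe_smul]
    have e2 : Complex.I • c • G = c.re • (Complex.I • G) - c.im • G := by
      rw [e1, smul_add, smul_comm Complex.I c.re, smul_comm Complex.I c.im, smul_smul Complex.I,
        Complex.I_mul_I, neg_smul, one_smul, smul_neg, sub_eq_add_neg]
    rw [e2, e1, map_add, map_sub, l.map_smul, l.map_smul, l.map_smul, l.map_smul, RingHom.id_apply]
    generalize l G = a
    generalize l (Complex.I • G) = b
    conv_rhs => rw [← Complex.re_add_im c]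
    simp only [← Complex.coe_smul]
    match_scalars
    · ring
    · linear_combination (c.im / 2) * Complex.I_mul_I

lemma cpart_eq_col {Y : Type*} [NormedAddCommGroup Y] [NormedSpace ℂ Y]
    (l : EuclideanSpace ℂ E →L[ℝ] Y) (G : EuclideanSpace ℂ E) :
    cpart l G = col (fun e => cpart l (EuclideanSpace.single e 1)) G := by
  rw [col_apply]
  simp only [← map_smul, ← map_sum]
  congr 1
  ext e
  simp [Pi.single_apply]

lemma exists_col {Y : Type*} [NormedAddCommGroup Y] [NormedSpace ℂ Y]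
    (l : EuclideanSpace ℂ E →L[ℝ] Y) : ∃ W : E → Y,
      (∀ e, W e = cpart l (EuclideanSpace.single e 1)) ∧ ∀ G, cpart l G = col W G :=
  ⟨_, fun _ => rfl, cpart_eq_col l⟩

omit [DecidableEq E] in
lemma measurePreserving_I : MeasurePreserving (fun G : EuclideanSpace ℂ E => Complex.I • G)
    (stdGaussian (EuclideanSpace ℂ E)) (stdGaussian (EuclideanSpace ℂ E)) :=
  measurePreserving_isometry
    ((Complex.I • ContinuousLinearMap.id ℂ (EuclideanSpace ℂ E)).restrictScalars ℝ)
    fun x => by simp [norm_smul]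

omit [DecidableEq E] in
lemma PG.comp_cclm {Y : Type*} [NormedAddCommGroup Y] {f : EuclideanSpace ℂ E → Y} (hf : PG f)
    (T : EuclideanSpace ℂ E →L[ℂ] EuclideanSpace ℂ E) : PG (fun G => f (T G)) :=
  hf.comp_clm (T.restrictScalars ℝ)

omit [DecidableEq E] in
lemma near_clin (h : QH Φ ε) (hL : Lin Φ δ) (hδ0 : 0 ≤ δ) (hδ : δ ≤ 1) (hε : ε ≤ 1) (z : E → A)
    {u : EuclideanSpace ℂ E → A} (hu : Simple u) {R κ : ℝ} (hR : ∀ x, ‖u x‖ ≤ R)
    (h1 : δ * R ^ 2 ≤ κ) (h2 : ε * R ^ 2 ≤ κ)
    (h3 : sq2 (stdGaussian _) (fun x => u x - col z x) ≤ 42 * κ) {ζ : H} (hζ : ‖ζ‖ ≤ 1) :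
    ∫ x, ‖Φ (u x) ζ - cpart (linPart (fun x => Φ (u x))) x ζ‖ ^ 2 ∂(stdGaussian _) ≤
      62500 * κ := by
  have pu : PG u := PG.bdd (hu.sm id) hR
  have py := pg_col z
  have pΦ := h.pg hu hR
  have pF := pΦ.apply ζ
  have hR0 : 0 ≤ R := (norm_nonneg _).trans (hR 0)
  have hε0 := h.eps_nonneg
  have hI : ∀ {Y : Type _} [NormedAddCommGroup Y] {f : EuclideanSpace ℂ E → Y}, PG f →
      PG (fun G => f (Complex.I • G)) := fun hf =>
    hf.comp_cclm (Complex.I • ContinuousLinearMap.id ℂ _)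
  set l := linPart (fun x => Φ (u x)) with hl
  have c1 := near_lin h hL hδ0 hδ ((col z).restrictScalars ℝ) hu hR h1 h2 h3 hζ
  rw [← hl] at c1
  have pd : PG fun x => Φ (u x) ζ - l x ζ := pF.sub ((PG.clm l).apply ζ)
  have c2 := integral_norm_sq_comp _ pd measurePreserving_I
  let a : EuclideanSpace ℂ E → A := fun x => u x + Complex.I • u (Complex.I • x)
  have pa : PG a := pu.add ((pu.comp_cclm (Complex.I • ContinuousLinearMap.id ℂ _)).const_smul _)
  have ha : ∀ x, ‖a x‖ ≤ 2 * R := fun x => by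
    refine (norm_add_le _ _).trans ?_
    rw [norm_smul, Complex.norm_I]
    linarith [hR x, hR (Complex.I • x)]
  have pg : PG fun x => Φ (u x) ζ + Complex.I • Φ (u (Complex.I • x)) ζ :=
    pF.add ((hI pF).const_smul _)
  have c3 := L2small h hL hδ0 hδ pa ha hζ pg (θ := 3 * ε * R) fun x => by
    have b1 := h.add (u x) (Complex.I • u (Complex.I • x))
    have b2 := h.smul Complex.I (u (Complex.I • x))
    rw [norm_smul, Complex.norm_I, one_mul] at b1
    rw [Complex.norm_I, one_mul] at b2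
    have e : Φ (u x) ζ + Complex.I • Φ (u (Complex.I • x)) ζ - Φ (a x) ζ =
        (-(Φ (a x) - Φ (u x) - Φ (Complex.I • u (Complex.I • x))) -
          (Φ (Complex.I • u (Complex.I • x)) - Complex.I • Φ (u (Complex.I • x)))) ζ := by
      simp only [ContinuousLinearMap.sub_apply, ContinuousLinearMap.neg_apply,
        ContinuousLinearMap.smul_apply]
      abel
    rw [e]
    refine ((ContinuousLinearMap.le_opNorm _ _).trans
      (mul_le_of_le_one_right (norm_nonneg _) hζ)).trans ((norm_sub_le _ _).trans ?_)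
    rw [norm_neg]
    have := mul_le_mul_of_nonneg_left (hR x) hε0
    have := mul_le_mul_of_nonneg_left (hR (Complex.I • x)) hε0
    simp only [a]
    linarith
  have c4 : sq2 (stdGaussian _) a ≤ 168 * κ := by
    have d1 := sq2_add_le (stdGaussian _) (pu.sub py)
      (((pu.sub py).comp_cclm (Complex.I • ContinuousLinearMap.id ℂ _)).const_smul Complex.I)
    have d2 := sq2_comp _ (pu.sub py) measurePreserving_I
    rw [sq2_smul] at d1
    have e : a = fun x => u x - col z x + Complex.I • (u (Complex.I • x) -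
        col z (Complex.I • x)) := by
      funext x
      simp only [a, map_smul, smul_sub, smul_smul, Complex.I_mul_I]
      module
    rw [e]
    simp only [ContinuousLinearMap.smul_apply, ContinuousLinearMap.id_apply, Complex.norm_I]
      at d1
    linarith
  have c5 : ε * (ε * R ^ 2) ≤ κ := (mul_le_of_le_one_left (by positivity) hε).trans h2
  have hκ : 0 ≤ κ := le_trans (by positivity) h1
  have q1 := pd.norm.sq
  have q2 := pg.norm.sq
  have q3 := (hI pd).norm.sq
  calc _ ≤ ∫ x, 3 / 4 * (‖Φ (u x) ζ - l x ζ‖ ^ 2 +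
        ‖Φ (u x) ζ + Complex.I • Φ (u (Complex.I • x)) ζ‖ ^ 2 +
        ‖Φ (u (Complex.I • x)) ζ - l (Complex.I • x) ζ‖ ^ 2) ∂(stdGaussian _) := by
        refine integral_mono ?_ (((PG.const _).mul ((q1.add q2).add q3)).integrable _) fun x => ?_
        · classical
          obtain ⟨W, -, hW⟩ := exists_col l
          simp only [hW]
          exact (pF.sub ((pg_col _).apply ζ)).norm.sq.integrable _
        have e : Φ (u x) ζ - cpart l x ζ = (1 / 2 : ℝ) • ((Φ (u x) ζ - l x ζ) +
            (Φ (u x) ζ + Complex.I • Φ (u (Complex.I • x)) ζ) -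
            Complex.I • (Φ (u (Complex.I • x)) ζ - l (Complex.I • x) ζ)) := by
          simp only [cpart, LinearMap.coe_mk, AddHom.coe_mk, ContinuousLinearMap.smul_apply,
            ContinuousLinearMap.sub_apply]
          module
        simp only
        rw [e, norm_smul, Real.norm_of_nonneg (by norm_num)]
        set s1 := Φ (u x) ζ - l x ζ
        set s2 := Φ (u x) ζ + Complex.I • Φ (u (Complex.I • x)) ζ
        set s3 := Φ (u (Complex.I • x)) ζ - l (Complex.I • x) ζ
        have b1 : ‖s1 + s2 - Complex.I • s3‖ ≤ ‖s1‖ + ‖s2‖ + ‖s3‖ := by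
          refine (norm_sub_le _ _).trans ?_
          rw [norm_smul, Complex.norm_I, one_mul]
          linarith [norm_add_le s1 s2]
        have b2 := pow_le_pow_left₀ (norm_nonneg _) b1 2
        nlinarith [sq_nonneg (‖s1‖ - ‖s2‖), sq_nonneg (‖s1‖ - ‖s3‖), sq_nonneg (‖s2‖ - ‖s3‖)]
    _ ≤ _ := by
        rw [integral_const_mul, integral_add ((q1.add q2).integrable _) (q3.integrable _),
          integral_add (q1.integrable _) (q2.integrable _)]
        nlinarith

lemma norm_sand_le (z : E → A) (hz : ‖∑ e, star (z e) * z e‖ ≤ 1) {U : Matrix E E ℂ}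
    (hU : U ∈ unitary (Matrix E E ℂ)) : ‖sand z U‖ ≤ 2 := by
  have s1 : sq2 (stdGaussian _) (col z) ≤ 2 ^ 2 := by
    rw [sq2, integral_col, norm_smul, Real.norm_of_nonneg (by norm_num)]
    linarith
  have := norm_integral_star_mul_le (stdGaussian _) (pg_col z) ((pg_col z).comp_cclm (act U))
    two_pos zero_le_two s1 (by rwa [sq2_comp _ (pg_col z) (measurePreserving_act hU)])
  rw [integral_col_act, norm_smul, Real.norm_of_nonneg (by norm_num)] at this
  linarith

lemma GL_unitary (h : QH Φ ε) (hL : Lin Φ δ) {R : ℝ} (hR1 : 1 ≤ R) (hδ0 : 0 ≤ δ)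
    (hδ : δ ≤ 1 / R ^ 4) (hε : ε ≤ 1 / R ^ 4) (z : E → A) (hz : ‖∑ e, star (z e) * z e‖ ≤ 1)
    (hz' : ‖∑ e, z e * star (z e)‖ ≤ 2) :
    ∃ W : E → H →L[ℂ] H, (∀ T, (∀ a, Commute T (Φ a)) → ∀ e, Commute T (W e)) ∧
      ∀ U ∈ unitary (Matrix E E ℂ), ‖Φ (sand z U) - sand W U‖ ≤ 50000 / R := by
  have hR0 : 0 < R := by linarith
  have hε0 := h.eps_nonneg
  set t := 1 / R with ht
  have ht0 : 0 < t := by positivity
  have ht1 : t ≤ 1 := by rw [ht, div_le_one hR0]; exact hR1
  have hκ : ∀ s : ℝ, s ≤ 1 / R ^ 4 → s * R ^ 2 ≤ t ^ 2 := fun s hs => by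
    calc s * R ^ 2 ≤ 1 / R ^ 4 * R ^ 2 := by gcongr
      _ = t ^ 2 := by rw [ht]; field_simp
  have ht2 : t ^ 2 ≤ t := by nlinarith
  have hle : ∀ s : ℝ, 0 ≤ s → s ≤ 1 / R ^ 4 → s ≤ t := fun s hs0 hs => by
    have := hκ s hs
    have : s ≤ s * R ^ 2 := le_mul_of_one_le_right hs0 (one_le_pow₀ hR1)
    linarith
  have hδt := hle δ hδ0 hδ
  have hεt := hle ε hε0 hε
  have s1 : sq2 (stdGaussian _) (col z) ≤ 2 := by
    rw [sq2, integral_col, norm_smul, Real.norm_of_nonneg (by norm_num)]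
    linarith
  obtain ⟨u, hu, hR, h3⟩ := exists_trunc ((col z).restrictScalars ℝ) s1 (by
    simp only [sq2, star_star, ContinuousLinearMap.coe_restrictScalars']
    rw [integral_col', norm_smul, Real.norm_of_nonneg (by norm_num)]
    linarith) hR0
  have h3 : sq2 (stdGaussian _) (fun x => u x - col z x) ≤ 42 * t ^ 2 := by
    refine h3.trans (le_of_eq ?_)
    rw [ht]
    field_simp
  have pu : PG u := PG.bdd (hu.sm id) hR
  have py := pg_col z
  have pΦ := h.pg hu hR
  set l := linPart (fun x => Φ (u x)) with hl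
  obtain ⟨W, hW0, hW⟩ := exists_col l
  have pW := pg_col W
  refine ⟨W, fun T hT e => ?_, fun U hU => ?_⟩
  · have : ∀ w, Commute T (l w) := fun w => by
      have i1 := ((PG.inner_id w).smul pΦ).integrable (stdGaussian _)
      rw [hl, linPart_apply pΦ, Commute, SemiconjBy, ← integral_const_mul_of_integrable i1,
        ← integral_mul_const_of_integrable i1]
      simp only [mul_smul_comm, smul_mul_assoc, (hT _).eq]
    rw [hW0]
    exact ((this _).sub_right ((this _).smul_right _)).smul_right _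
  have hT := measurePreserving_act hU
  have c1 : ∀ ζ : H, ‖ζ‖ ≤ 1 →
      ∫ x, ‖Φ (u x) ζ - col W x ζ‖ ^ 2 ∂(stdGaussian _) ≤ (250 * t) ^ 2 := fun ζ hζ => by
    have := near_clin h hL hδ0 (by linarith) (by linarith) z hu hR (hκ δ hδ) (hκ ε hε) h3 hζ
    simp only [← hl, hW] at this
    linarith
  have s2 : sq2 (stdGaussian _) u ≤ 88 := by
    have := sq2_add_le (stdGaussian _) (pu.sub py) py
    simp only [sub_add_cancel] at this
    change sq2 _ u ≤ _ at this
    linarith
  have c2 : ∀ ζ : H, ‖ζ‖ ≤ 1 → ∫ x, ‖Φ (u x) ζ‖ ^ 2 ∂(stdGaussian _) ≤ 27 ^ 2 := fun ζ hζ => by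
    have := L2small h hL hδ0 (by linarith) pu hR hζ (pΦ.apply ζ) (θ := 0) (by simp)
    have := hκ δ hδ
    have := hκ ε hε
    nlinarith
  have c3 : ∀ ζ : H, ‖ζ‖ ≤ 1 → ∫ x, ‖col W x ζ‖ ^ 2 ∂(stdGaussian _) ≤ 360 ^ 2 := fun ζ hζ => by
    have := integral_norm_add_sq_le (stdGaussian _) (pΦ.apply ζ)
      ((pΦ.apply ζ).sub (pW.apply ζ)).neg
    simp only [norm_neg, ← sub_eq_add_neg, sub_sub_cancel] at this
    have := c1 ζ hζ
    have := c2 ζ hζ
    nlinarith
  have c4 : ‖∫ x, star (u x) * u (act U x) ∂(stdGaussian _) - (2 : ℝ) • sand z U‖ ≤ 84 * t := by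
    have d1 := norm_integral_star_mul_le (stdGaussian _) (pu.sub py) (py.comp_cclm (act U))
      (a := 7 * t) (b := 2) (by positivity) zero_le_two (by nlinarith)
      (by rw [sq2_comp _ py hT]; linarith)
    have d2 := norm_integral_star_mul_le (stdGaussian _) pu ((pu.sub py).comp_cclm (act U))
      (a := 10) (b := 7 * t) (by positivity) (by positivity) (by linarith)
      (by rw [sq2_comp _ (pu.sub py) hT]; nlinarith)
    have i1 := ((pu.sub py).star.mul (py.comp_cclm (act U))).integrable (stdGaussian _)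
    have i2 := (pu.star.mul ((pu.sub py).comp_cclm (act U))).integrable (stdGaussian _)
    rw [← integral_col_act, ← integral_sub ((pu.star.mul (pu.comp_cclm _)).integrable _)
      ((py.star.mul (py.comp_cclm _)).integrable _)]
    have e : ∀ x, star (u x) * u (act U x) - star (col z x) * col z (act U x) =
        star (u x - col z x) * col z (act U x) + star (u x) * (u (act U x) - col z (act U x)) :=
      fun x => by
        rw [star_sub]
        noncomm_ring
    simp only [e]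
    rw [integral_add i1 i2]
    linarith [norm_add_le (∫ x, star (u x - col z x) * col z (act U x) ∂(stdGaussian _))
      (∫ x, star (u x) * (u (act U x) - col z (act U x)) ∂(stdGaussian _))]
  rw [norm_sub_rev]
  refine norm_le_of_re_inner _ (by positivity) fun ζ η hζ hη => ?_
  obtain ⟨m, hm⟩ := hL ζ η hζ hη
  have pFη := pΦ.apply η
  have pFζ := (pΦ.apply ζ).comp_cclm (act U)
  have pWη := pW.apply η
  have pWζ := (pW.apply ζ).comp_cclm (act U)
  have b1 : 2 * (⟪η, sand W U ζ⟫_ℂ).re =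
      ∫ x, (⟪col W x η, col W (act U x) ζ⟫_ℂ).re ∂(stdGaussian _) := by
    have i1 := (pW.star.mul (pW.comp_cclm (act U)))
    simp only [← re_inner_star_mul, ← Complex.reCLM_apply]
    rw [Complex.reCLM.integral_comp_comm (((PG.const η).inner (i1.apply ζ)).integrable _),
      integral_inner ((i1.apply ζ).integrable _),
      ← ContinuousLinearMap.integral_apply (i1.integrable _), integral_col_act,
      ContinuousLinearMap.smul_apply, ← Complex.coe_smul, inner_smul_right]
    simp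
  have b2 := abs_integral_re_inner_le (stdGaussian _) (pFη.sub pWη) pFζ (b := 27) (by positivity)
    (by positivity) (c1 η hη) (by rw [integral_norm_sq_comp _ (pΦ.apply ζ) hT]; exact c2 ζ hζ)
  have b3 := abs_integral_re_inner_le (stdGaussian _) pWη (pFζ.sub pWζ) (b := 250 * t)
    (by positivity)     (by positivity) (c3 η hη) (by
      rw [integral_norm_sq_comp _ ((pΦ.apply ζ).sub (pW.apply ζ)) hT]; exact c1 ζ hζ)
  simp only [inner_sub_left, inner_sub_right, Complex.sub_re] at b2 b3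
  rw [integral_sub ((pFη.inner pFζ).re.integrable _) ((pWη.inner pFζ).re.integrable _)] at b2
  rw [integral_sub ((pWη.inner pFζ).re.integrable _) ((pWη.inner pWζ).re.integrable _)] at b3
  have puu := pu.star.mul (pu.comp_cclm (act U))
  have b4 : ∫ x, (⟪Φ (u x) η, Φ (u (act U x)) ζ⟫_ℂ).re ∂(stdGaussian _) ≤
      m (∫ x, star (u x) * u (act U x) ∂(stdGaussian _)) + 5 * t := by
    rw [← m.integral_comp_comm (puu.integrable _)]
    have := integral_mono (μ := stdGaussian _) ((pFη.inner pFζ).re.integrable _)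
      (((puu.clm_comp m).add (PG.const (5 * t))).integrable _) fun x => by
        have a1 := (abs_le.1 (hm (star (u x) * u (act U x)))).2
        have a2 := (abs_le.1 (h.inner_star_mul (u x) (u (act U x)) hζ hη)).1
        have a3 : ‖u x‖ * ‖u (act U x)‖ ≤ R ^ 2 := by
          rw [sq]
          exact mul_le_mul (hR _) (hR _) (norm_nonneg _) hR0.le
        have a4 : ‖star (u x) * u (act U x)‖ ≤ R ^ 2 := by
          refine (norm_mul_le _ _).trans ?_
          rwa [norm_star]
        have := mul_le_mul_of_nonneg_left a3 hε0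
        have := mul_le_mul_of_nonneg_left a4 hδ0
        have := hκ δ hδ
        have := hκ ε hε
        simp only
        linarith
    rw [integral_add ((puu.clm_comp m).integrable _) (integrable_const _)] at this
    simpa using this
  have b5 := (abs_le.1 (h.abs_lin_le hζ hη hm (by linarith)
    (∫ x, star (u x) * u (act U x) ∂(stdGaussian _) - (2 : ℝ) • sand z U))).2
  rw [map_sub, map_smul, smul_eq_mul] at b5
  have b6 := (abs_le.1 (hm (sand z U))).1
  have b7 := mul_le_mul hδt (norm_sand_le z hz hU) (norm_nonneg _) ht0.le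
  have b8 := (abs_le.1 b2).1
  have b9 := (abs_le.1 b3).1
  rw [ContinuousLinearMap.sub_apply, inner_sub_right, Complex.sub_re, div_eq_mul_one_div, ← ht]
  linarith

theorem exists_GL (β : ℝ) (hβ : 0 < β) : ∃ ε₀ : ℝ, 0 < ε₀ ∧
    ∀ {A : Type u} [CStarAlgebra A] [PartialOrder A] [StarOrderedRing A] {H : Type v}
      [NormedAddCommGroup H] [InnerProductSpace ℂ H] [CompleteSpace H] {Φ : A → H →L[ℂ] H}
      {ε : ℝ}, QH Φ ε → ε ≤ ε₀ → HasEC A → ∀ d : ECData A,
      ∃ W : d.E → H →L[ℂ] H, (∀ T, (∀ a, Commute T (Φ a)) → ∀ e, Commute T (W e)) ∧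
        ∀ y : Matrix d.E d.E ℂ, ‖Φ (sand d.z y) - sand W y‖ ≤ β * ‖y‖ := by
  set R := max 1 (200000 / β) with hR
  have hR1 : 1 ≤ R := le_max_left _ _
  have hR2 : 50000 / R ≤ β / 4 := by
    have : 200000 / β ≤ R := le_max_right _ _
    rw [div_le_iff₀ hβ] at this
    rw [div_le_iff₀ (by linarith)]
    linarith
  obtain ⟨ε₁, hε₁, hlin⟩ := exists_lin.{u, v} (1 / R ^ 4) (by positivity)
  refine ⟨min (min ε₁ (1 / R ^ 4)) (β / 40), by positivity, ?_⟩
  intro A _ _ _ H _ _ _ Φ ε h hε hA d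
  have hε1 : ε ≤ ε₁ := hε.trans ((min_le_left _ _).trans (min_le_left _ _))
  have hε2 : ε ≤ 1 / R ^ 4 := hε.trans ((min_le_left _ _).trans (min_le_right _ _))
  have hε3 : ε ≤ β / 40 := hε.trans (min_le_right _ _)
  have hε0 := h.eps_nonneg
  have hz : ‖∑ e, star (d.z e) * d.z e‖ ≤ 1 := by
    rw [d.col]
    simpa using norm_smul_one_le (A := A) 1 zero_le_one
  obtain ⟨W, hW1, hW2⟩ := GL_unitary h (hlin h hε1 hA) hR1 (by positivity) le_rfl hε2 d.z hz
    (norm_le_of_le_smul_one (Finset.sum_nonneg fun e _ => mul_star_self_nonneg _) zero_le_two d.row)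
  refine ⟨W, hW1, fun y => ?_⟩
  obtain ⟨U, c, hy, hc⟩ := CStarAlgebra.exists_sum_four_unitary y
  have n1 : ∀ i, ‖sand d.z (U i)‖ ≤ 2 := fun i => norm_sand_le d.z hz (U i).2
  have n2 : ∀ i, ‖c i‖ * ‖sand d.z (U i)‖ ≤ ‖y‖ := fun i => by
    have := mul_le_mul (hc i) (n1 i) (norm_nonneg _) (by positivity)
    linarith
  have a1 := h.sum Finset.univ (fun i => c i • sand d.z (U i))
  have a2 : ∑ i, ‖c i • sand d.z (U i)‖ ≤ 4 * ‖y‖ := by
    simpa [norm_smul] using Finset.sum_le_sum (s := Finset.univ) fun i _ => n2 i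
  have a3 : ‖∑ i, Φ (c i • sand d.z (U i)) - ∑ i, c i • sand W (U i)‖ ≤
      4 * (ε * ‖y‖ + ‖y‖ / 2 * (β / 4)) := by
    rw [← Finset.sum_sub_distrib]
    refine (norm_sum_le _ _).trans ?_
    have : ∀ i, ‖Φ (c i • sand d.z (U i)) - c i • sand W (U i)‖ ≤
        ε * ‖y‖ + ‖y‖ / 2 * (β / 4) := fun i => by
      refine (norm_sub_le_norm_sub_add_norm_sub _ (c i • Φ (sand d.z (U i))) _).trans
        (add_le_add ((h.smul _ _).trans (mul_le_mul_of_nonneg_left (n2 i) hε0)) ?_)
      rw [← smul_sub, norm_smul]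
      exact mul_le_mul (hc i) ((hW2 _ (U i).2).trans hR2) (norm_nonneg _) (by positivity)
    simpa [mul_add] using Finset.sum_le_sum (s := Finset.univ) fun i _ => this i
  have e1 : sand d.z y = ∑ i, c i • sand d.z (U i) := by
    conv_lhs => rw [hy]
    simp only [map_sum, map_smul]
  have e2 : sand W y = ∑ i, c i • sand W (U i) := by
    conv_lhs => rw [hy]
    simp only [map_sum, map_smul]
  rw [e1, e2]
  refine (norm_sub_le_norm_sub_add_norm_sub _ (∑ i, Φ (c i • sand d.z (U i))) _).trans ?_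
  simp only [Finset.card_univ, Fintype.card_fin, Nat.cast_ofNat] at a1
  have a4 := mul_le_mul_of_nonneg_left a2 (show 0 ≤ ε * 4 by positivity)
  have a5 := mul_le_mul_of_nonneg_right hε3 (norm_nonneg y)
  linarith

end

end Pool.Agent.P.MP_a35bd4_an
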