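import Pool.Agent.P.MP_a35bd4_an.PG

/-! The second spectral gap of the Mehler semigroup. -/

open scoped BigOperators InnerProductSpace
open MeasureTheory ProbabilityTheory InnerProductSpace

namespace Pool.Agent.P.MP_a35bd4_an

noncomputable section

variable {V : Type*} [NormedAddCommGroup V] [InnerProductSpace ℝ V] [FiniteDimensional ℝ V]
  [MeasurableSpace V] [BorelSpace V]

/-- the correlated combination -/
def mix (ρ : ℝ) : V × V →L[ℝ] V :=
  ρ • ContinuousLinearMap.fst ℝ V V + √(1 - ρ ^ 2) • ContinuousLinearMap.snd ℝ V V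

omit [FiniteDimensional ℝ V] [MeasurableSpace V] [BorelSpace V] in
lemma mix_apply (ρ : ℝ) (x z : V) : mix ρ (x, z) = ρ • x + √(1 - ρ ^ 2) • z := rfl

lemma cf_std {L : StrongDual ℝ V} (a : V) (h : ∀ x, L x = ⟪a, x⟫_ℝ) :
    charFunDual (stdGaussian V) L = Complex.exp (((-‖a‖ ^ 2 / 2 : ℝ) : ℂ)) := by
  have : L = toDual ℝ V a := by
    ext x
    simp [h]
  rw [charFunDual_stdGaussian, this, LinearIsometryEquiv.norm_map]
  push_cast
  rfl

lemma map_mix {ρ : ℝ} (hρ : ρ ^ 2 ≤ 1) :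
    ((stdGaussian V).prod (stdGaussian V)).map (mix ρ) = stdGaussian V := by
  apply Measure.ext_of_charFunDual
  funext L
  obtain ⟨a, rfl⟩ := (toDual ℝ V).surjective L
  rw [charFunDual_map, charFunDual_prod, cf_std (ρ • a), cf_std (√(1 - ρ ^ 2) • a), cf_std a,
    ← Complex.exp_add, ← Complex.ofReal_add]
  · congr 2
    simp only [norm_smul, mul_pow, Real.norm_eq_abs, sq_abs]
    rw [Real.sq_sqrt (by linarith)]
    ring
  · simp
  · simp [mix_apply, inner_smul_left, inner_smul_right]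
  · simp [mix_apply, inner_smul_left, inner_smul_right]

lemma map_mix3 {ρ : ℝ} (hρ : ρ ^ 2 ≤ 1) :
    ((stdGaussian V).prod ((stdGaussian V).prod (stdGaussian V))).map
      (fun p => (mix ρ (p.1, p.2.1), mix ρ (p.1, p.2.2))) =
    ((stdGaussian V).prod (stdGaussian V)).map (fun p => (p.1, mix (ρ ^ 2) p)) := by
  let A : V × V × V →L[ℝ] V × V :=
    ((mix ρ).comp ((ContinuousLinearMap.fst ℝ _ _).prod
      ((ContinuousLinearMap.fst ℝ _ _).comp (ContinuousLinearMap.snd ℝ _ _)))).prod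
    ((mix ρ).comp ((ContinuousLinearMap.fst ℝ _ _).prod
      ((ContinuousLinearMap.snd ℝ _ _).comp (ContinuousLinearMap.snd ℝ _ _))))
  let B : V × V →L[ℝ] V × V := (ContinuousLinearMap.fst ℝ _ _).prod (mix (ρ ^ 2))
  change Measure.map A _ = Measure.map B _
  apply Measure.ext_of_charFunDual
  funext L
  obtain ⟨a, ha⟩ := (toDual ℝ V).surjective (L.comp (.inl ℝ V V))
  obtain ⟨b, hb⟩ := (toDual ℝ V).surjective (L.comp (.inr ℝ V V))
  have hL : ∀ x y, L (x, y) = ⟪a, x⟫_ℝ + ⟪b, y⟫_ℝ := fun x y => by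
    rw [← toDual_apply_apply, ← toDual_apply_apply, ha, hb]
    exact (L.comp_inl_add_comp_inr (x, y)).symm
  have h4 : (ρ ^ 2) ^ 2 ≤ 1 := pow_le_one₀ (sq_nonneg _) hρ
  rw [charFunDual_map, charFunDual_map, charFunDual_prod, charFunDual_prod, charFunDual_prod,
    cf_std (ρ • (a + b)), cf_std (√(1 - ρ ^ 2) • a), cf_std (√(1 - ρ ^ 2) • b),
    cf_std (a + ρ ^ 2 • b), cf_std (√(1 - (ρ ^ 2) ^ 2) • b),
    ← Complex.exp_add, ← Complex.exp_add, ← Complex.exp_add, ← Complex.ofReal_add,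
    ← Complex.ofReal_add, ← Complex.ofReal_add]
  · congr 2
    simp only [norm_smul, mul_pow, Real.norm_eq_abs, sq_abs, norm_add_sq_real,
      real_inner_smul_right]
    rw [Real.sq_sqrt (by linarith), Real.sq_sqrt (by linarith)]
    ring
  all_goals
    intro x
    simp [A, B, hL, mix_apply, inner_smul_left, inner_smul_right, inner_add_left, mul_add]

lemma integral_cexp (h t : V) :
    ∫ z, Complex.exp (⟪h, z⟫_ℝ + ⟪z, t⟫_ℝ * Complex.I) ∂(stdGaussian V) =
      Complex.exp (((‖h‖ ^ 2 - ‖t‖ ^ 2) / 2 : ℝ) + ⟪h, t⟫_ℝ * Complex.I) := by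
  let b := stdOrthonormalBasis ℝ V
  rw [stdGaussian_eq_map_pi_orthonormalBasis b,
    integral_map (Measurable.aemeasurable (by fun_prop))
    (Measurable.aestronglyMeasurable (by fun_prop))]
  have e : ∀ x : Fin (Module.finrank ℝ V) → ℝ,
      Complex.exp (⟪h, ∑ i, x i • b i⟫_ℝ + ⟪∑ i, x i • b i, t⟫_ℝ * Complex.I) =
      ∏ i, Complex.exp ((⟪h, b i⟫_ℝ + ⟪b i, t⟫_ℝ * Complex.I) * x i) := fun x => by
    rw [← Complex.exp_sum]
    congr 1
    simp only [inner_sum, sum_inner, real_inner_smul_left, real_inner_smul_right]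
    push_cast
    rw [Finset.sum_mul, ← Finset.sum_add_distrib]
    exact Finset.sum_congr rfl fun i _ => by ring
  simp only [e]
  rw [integral_fintype_prod_eq_prod
    (f := fun i (x : ℝ) => Complex.exp ((⟪h, b i⟫_ℝ + ⟪b i, t⟫_ℝ * Complex.I) * x))]
  have e2 : ∀ w : ℂ, ∫ x : ℝ, Complex.exp (w * x) ∂(gaussianReal 0 1) =
      Complex.exp (w ^ 2 / 2) := fun w => by
    have := complexMGF_id_gaussianReal (μ := 0) (v := 1) w
    simpa [complexMGF] using this
  simp only [e2]
  rw [← Complex.exp_sum]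
  congr 1
  rw [← b.sum_sq_inner_left h, ← b.sum_sq_inner_right t, ← b.sum_inner_mul_inner h t]
  push_cast
  rw [← Finset.sum_sub_distrib, Finset.sum_div, Finset.sum_mul, ← Finset.sum_add_distrib]
  refine Finset.sum_congr rfl fun i _ => ?_
  linear_combination ((⟪b i, t⟫_ℝ : ℂ) ^ 2 / 2) * Complex.I_mul_I

lemma integrable_exp_inner (h : V) :
    Integrable (fun z => Real.exp ⟪h, z⟫_ℝ) (stdGaussian V) := by
  have := integrable_exp_mul_gaussianReal (μ := (stdGaussian V)[toDual ℝ V h])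
    (v := (Var[toDual ℝ V h; stdGaussian V]).toNNReal) 1
  rw [← IsGaussian.map_eq_gaussianReal,
    integrable_map_measure (by fun_prop) (by fun_prop)] at this
  simpa [Function.comp_def] using this

/-- the density of the shifted Gaussian measure -/
def cmd (h z : V) : ℝ := Real.exp (⟪h, z⟫_ℝ - ‖h‖ ^ 2 / 2)

lemma integrable_cmd (h : V) : Integrable (cmd h) (stdGaussian V) := by
  have := (integrable_exp_inner h).mul_const (Real.exp (-(‖h‖ ^ 2 / 2)))
  refine this.congr (Filter.Eventually.of_forall fun z => ?_)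
  simp only [cmd]
  rw [← Real.exp_add, sub_eq_add_neg]

omit [FiniteDimensional ℝ V] [MeasurableSpace V] [BorelSpace V] in
lemma continuous_cmd (h : V) : Continuous (cmd h) := by
  unfold cmd
  fun_prop

lemma map_add_eq (h : V) : (stdGaussian V).map (fun z => z + h) =
    (stdGaussian V).withDensity (fun z => ENNReal.ofReal (cmd h z)) := by
  haveI : IsFiniteMeasure ((stdGaussian V).withDensity (fun z => ENNReal.ofReal (cmd h z))) :=
    isFiniteMeasure_withDensity_ofReal (integrable_cmd h).2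
  apply Measure.ext_of_charFun
  funext t
  rw [charFun_map_add_const, charFun_stdGaussian, charFun_apply,
    integral_withDensity_eq_integral_toReal_smul (continuous_cmd h).measurable.ennreal_ofReal
      (Filter.Eventually.of_forall fun _ => ENNReal.ofReal_lt_top)]
  have e : ∀ z, (ENNReal.ofReal (cmd h z)).toReal • Complex.exp (⟪z, t⟫_ℝ * Complex.I) =
      Complex.exp (((-(‖h‖ ^ 2 / 2) : ℝ) : ℂ)) *
        Complex.exp (⟪h, z⟫_ℝ + ⟪z, t⟫_ℝ * Complex.I) := fun z => by
    rw [cmd, ENNReal.toReal_ofReal (Real.exp_pos _).le, Complex.real_smul, Complex.ofReal_exp,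
      ← Complex.exp_add, ← Complex.exp_add]
    congr 1
    push_cast
    ring
  simp only [e]
  rw [integral_const_mul, integral_cexp, ← Complex.exp_add, ← Complex.exp_add]
  congr 1
  push_cast
  ring

lemma integral_shift {Y : Type*} [NormedAddCommGroup Y] [NormedSpace ℝ Y] {f : V → Y}
    (hf : StronglyMeasurable f) (h : V) :
    ∫ z, f (z + h) ∂(stdGaussian V) = ∫ z, cmd h z • f z ∂(stdGaussian V) := by
  rw [← integral_map (φ := fun z => z + h) (by fun_prop) hf.aestronglyMeasurable, map_add_eq,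
    integral_withDensity_eq_integral_toReal_smul (continuous_cmd h).measurable.ennreal_ofReal
      (Filter.Eventually.of_forall fun _ => ENNReal.ofReal_lt_top)]
  simp only [ENNReal.toReal_ofReal (Real.exp_pos _).le, cmd]

lemma integrable_shift {Y : Type*} [NormedAddCommGroup Y] [NormedSpace ℝ Y] {f : V → Y}
    (hf : StronglyMeasurable f) (h : V) (hi : Integrable (fun z => f (z + h)) (stdGaussian V)) :
    Integrable (fun z => cmd h z • f z) (stdGaussian V) := by
  have : Integrable f ((stdGaussian V).map (fun z => z + h)) :=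
    (integrable_map_measure hf.aestronglyMeasurable (by fun_prop)).2 hi
  rw [map_add_eq, integrable_withDensity_iff_integrable_smul'
    (continuous_cmd h).measurable.ennreal_ofReal
    (Filter.Eventually.of_forall fun _ => ENNReal.ofReal_lt_top)] at this
  simpa only [ENNReal.toReal_ofReal (Real.exp_pos _).le, cmd] using this

lemma integral_inner_std (h : V) : ∫ z, ⟪h, z⟫_ℝ ∂(stdGaussian V) = 0 :=
  integral_strongDual_stdGaussian (toDual ℝ V h)

lemma integral_inner_mul_inner (a b : V) :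
    ∫ z, ⟪a, z⟫_ℝ * ⟪b, z⟫_ℝ ∂(stdGaussian V) = ⟪a, b⟫_ℝ := by
  have := covarianceBilin_apply (μ := stdGaussian V) IsGaussian.memLp_two_id a b
  rw [covarianceBilin_stdGaussian] at this
  simp only [id, integral_id_stdGaussian, sub_zero] at this
  exact this.symm

lemma PG.inner_id (h : V) : PG (fun z : V => ⟪h, z⟫_ℝ) := (PG.const h).inner PG.id

lemma integral_inner_smul (a : V) : ∫ z, ⟪a, z⟫_ℝ • z ∂(stdGaussian V) = a := by
  refine ext_inner_left ℝ fun b => ?_
  rw [← integral_inner (((PG.inner_id a).smul PG.id).integrable _)]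
  simp only [real_inner_smul_right]
  rw [integral_inner_mul_inner, real_inner_comm]

lemma integral_cmd (h : V) : ∫ z, cmd h z ∂(stdGaussian V) = 1 := by
  have := integral_shift (f := fun _ : V => (1 : ℝ)) stronglyMeasurable_const h
  simpa using this.symm

omit [FiniteDimensional ℝ V] [MeasurableSpace V] [BorelSpace V] in
lemma cmd_add (h z : V) : cmd h (z + h) = Real.exp (‖h‖ ^ 2) * cmd h z := by
  rw [cmd, cmd, ← Real.exp_add, inner_add_right, real_inner_self_eq_norm_sq]
  congr 1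
  ring

lemma cmd_rem (h : V) :
    Integrable (fun z => (cmd h z - (1 + ⟪h, z⟫_ℝ)) ^ 2) (stdGaussian V) ∧
    ∫ z, (cmd h z - (1 + ⟪h, z⟫_ℝ)) ^ 2 ∂(stdGaussian V) =
      Real.exp (‖h‖ ^ 2) - 1 - ‖h‖ ^ 2 := by
  have p1 : PG (fun z : V => 1 + ⟪h, z⟫_ℝ) := (PG.const 1).add (PG.inner_id h)
  have i1 : Integrable (fun z => cmd h z * cmd h z) (stdGaussian V) :=
    integrable_shift (continuous_cmd h).stronglyMeasurable h (by
      simp only [cmd_add]
      exact (integrable_cmd h).const_mul _)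
  have e1 : ∫ z, cmd h z * cmd h z ∂(stdGaussian V) = Real.exp (‖h‖ ^ 2) := by
    have := integral_shift (continuous_cmd h).stronglyMeasurable h
    simp only [cmd_add] at this
    rw [integral_const_mul, integral_cmd, mul_one] at this
    exact this.symm
  have e0 : ∀ z, 1 + ⟪h, z + h⟫_ℝ = (1 + ‖h‖ ^ 2) + ⟪h, z⟫_ℝ := fun z => by
    rw [inner_add_right, real_inner_self_eq_norm_sq]
    ring
  have i2 : Integrable (fun z => cmd h z * (1 + ⟪h, z⟫_ℝ)) (stdGaussian V) :=
    integrable_shift p1.sm h (by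
      simp only [e0]
      exact ((PG.const _).add (PG.inner_id h)).integrable _)
  have e2 : ∫ z, cmd h z * (1 + ⟪h, z⟫_ℝ) ∂(stdGaussian V) = 1 + ‖h‖ ^ 2 := by
    have := integral_shift p1.sm h
    simp only [e0] at this
    rw [integral_add (integrable_const _) ((PG.inner_id h).integrable _), integral_inner_std]
      at this
    simpa using this.symm
  have e3 : ∫ z, (1 + ⟪h, z⟫_ℝ) ^ 2 ∂(stdGaussian V) = 1 + ‖h‖ ^ 2 := by
    have : ∀ z, (1 + ⟪h, z⟫_ℝ) ^ 2 = 1 + 2 * ⟪h, z⟫_ℝ + ⟪h, z⟫_ℝ * ⟪h, z⟫_ℝ := fun z => by ring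
    simp only [this]
    rw [integral_add (((PG.const _).add ((PG.const _).mul (PG.inner_id h))).integrable _)
      (((PG.inner_id h).mul (PG.inner_id h)).integrable _),
      integral_add (integrable_const _) (((PG.const _).mul (PG.inner_id h)).integrable _),
      integral_const_mul, integral_inner_std, integral_inner_mul_inner,
      real_inner_self_eq_norm_sq]
    simp
  have e : ∀ z, (cmd h z - (1 + ⟪h, z⟫_ℝ)) ^ 2 = cmd h z * cmd h z -
      2 * (cmd h z * (1 + ⟪h, z⟫_ℝ)) + (1 + ⟪h, z⟫_ℝ) ^ 2 := fun z => by ring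
  simp only [e]
  refine ⟨(i1.sub (i2.const_mul _)).add (p1.sq.integrable _), ?_⟩
  rw [integral_add (by exact i1.sub (i2.const_mul _)) (p1.sq.integrable _),
    integral_sub i1 (i2.const_mul _), integral_const_mul, e1, e2, e3]
  ring

variable {H : Type*} [NormedAddCommGroup H]

section

variable [NormedSpace ℝ H]

/-- the linear part of a function -/
def linPart (g : V → H) : V →L[ℝ] H :=
  ∫ z, (innerSL ℝ z).smulRight (g z) ∂(stdGaussian V)

lemma linPart_apply [CompleteSpace H] {g : V → H} (hg : PG g) (w : V) :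
    linPart g w = ∫ z, ⟪w, z⟫_ℝ • g z ∂(stdGaussian V) := by
  have : PG (fun z : V => (innerSL ℝ z).smulRight (g z)) :=
    PG.id.of_le_mul hg (((ContinuousLinearMap.smulRightL ℝ V H).continuous₂).comp_stronglyMeasurable
      (((innerSL ℝ).continuous.stronglyMeasurable (f := fun z : V => innerSL ℝ z)).prodMk hg.sm))
      fun z => by simp
  rw [linPart, ContinuousLinearMap.integral_apply (this.integrable _)]
  simp [real_inner_comm]

lemma shift_rem [CompleteSpace H] {g : V → H} (hg : PG g) (h : V) :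
    ‖∫ z, g (z + h) ∂(stdGaussian V) - ∫ z, g z ∂(stdGaussian V) - linPart g h‖ ^ 2 ≤
      (Real.exp (‖h‖ ^ 2) - 1 - ‖h‖ ^ 2) * ∫ z, ‖g z‖ ^ 2 ∂(stdGaussian V) := by
  have p1 : PG (fun z => g (z + h)) := hg.comp (by fun_prop) (c := 1 + ‖h‖) fun x => by
    have := norm_add_le x h
    nlinarith [norm_nonneg x, norm_nonneg h]
  have i1 := integrable_shift hg.sm h (p1.integrable _)
  have i2 := hg.integrable (stdGaussian V)
  have i3 := ((PG.inner_id h).smul hg).integrable (stdGaussian V)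
  rw [integral_shift hg.sm, linPart_apply hg, ← integral_sub i1 i2,
    ← integral_sub (by exact i1.sub i2) i3, ← (cmd_rem h).2]
  have e : ∀ z, cmd h z • g z - g z - ⟪h, z⟫_ℝ • g z = (cmd h z - (1 + ⟪h, z⟫_ℝ)) • g z :=
    fun z => by simp only [sub_smul, add_smul, one_smul]; abel
  have i4 : Integrable (fun z => (cmd h z - (1 + ⟪h, z⟫_ℝ)) • g z) (stdGaussian V) := by
    simp only [← e]
    exact (i1.sub i2).sub i3
  simp only [e]
  have := integral_inner_sq_le (μ := stdGaussian V) (f := fun z => ‖cmd h z - (1 + ⟪h, z⟫_ℝ)‖)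
    (g := fun z => ‖g z‖) (by simpa using (cmd_rem h).1) (by simpa using hg.norm.sq.integrable _)
    (by simpa [norm_smul, mul_comm] using i4.norm)
  simp only [norm_norm, Real.norm_eq_abs, sq_abs, abs_abs, abs_norm] at this
  refine le_trans (pow_le_pow_left₀ (norm_nonneg _) ?_ 2) this
  refine (norm_integral_le_integral_norm _).trans (le_of_eq ?_)
  simp [norm_smul, mul_comm]

/-- the Mehler operator -/
def meh (ρ : ℝ) (f : V → H) (x : V) : H := ∫ z, f (mix ρ (x, z)) ∂(stdGaussian V)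

lemma PG.meh {f : V → H} (hf : PG f) (ρ : ℝ) : PG (meh ρ f) :=
  (hf.comp_clm (mix ρ)).integral _

lemma integral_meh {f : V → H} (hf : PG f) {ρ : ℝ} (hρ : ρ ^ 2 ≤ 1) :
    ∫ x, meh ρ f x ∂(stdGaussian V) = ∫ x, f x ∂(stdGaussian V) := by
  conv_rhs => rw [← map_mix hρ]
  rw [integral_map (by fun_prop) hf.sm.aestronglyMeasurable,
    integral_prod _ ((hf.comp_clm (mix ρ)).integrable _)]
  rfl

lemma meh_clm [CompleteSpace H] (m : V →L[ℝ] H) (ρ : ℝ) (x : V) : meh ρ m x = ρ • m x := by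
  simp only [meh, mix_apply, map_add, map_smul]
  rw [integral_add (integrable_const _) (((PG.clm m).const_smul _).integrable _), integral_smul,
    integral_smul, m.integral_comp_comm (PG.id.integrable _)]
  simp

end

variable [InnerProductSpace ℝ H] [CompleteSpace H]

lemma orth_lin {f : V → H} (hf : PG f) (h1 : ∀ w, ∫ z, ⟪w, z⟫_ℝ • f z ∂(stdGaussian V) = 0)
    (m : V →L[ℝ] H) : ∫ z, ⟪f z, m z⟫_ℝ ∂(stdGaussian V) = 0 := by
  let b := stdOrthonormalBasis ℝ V
  have e : ∀ z, ⟪f z, m z⟫_ℝ = ∑ i, ⟪m (b i), ⟪b i, z⟫_ℝ • f z⟫_ℝ := fun z => by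
    conv_lhs => arg 3; rw [← b.sum_repr' z]
    simp only [map_sum, map_smul, inner_sum, real_inner_smul_right, real_inner_comm]
  simp only [e]
  rw [integral_finsetSum _ fun i _ =>
    ((PG.const _).inner ((PG.inner_id _).smul hf)).integrable _]
  refine Finset.sum_eq_zero fun i _ => ?_
  rw [integral_inner (((PG.inner_id _).smul hf).integrable _), h1, inner_zero_right]

lemma orth_const {f : V → H} (hf : PG f) (h0 : ∫ z, f z ∂(stdGaussian V) = 0) (c : H) :
    ∫ z, ⟪f z, c⟫_ℝ ∂(stdGaussian V) = 0 := by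
  simp only [real_inner_comm c]
  rw [integral_inner (hf.integrable _), h0, inner_zero_right]

/-- the correlation function -/
def corr (f : V → H) (ρ : ℝ) : ℝ := ∫ x, ⟪f x, meh ρ f x⟫_ℝ ∂(stdGaussian V)

lemma corr_eq {f : V → H} (hf : PG f) (ρ : ℝ) :
    corr f ρ = ∫ p, ⟪f p.1, f (mix ρ p)⟫_ℝ ∂((stdGaussian V).prod (stdGaussian V)) := by
  rw [integral_prod _ ((hf.fst.inner (hf.comp_clm (mix ρ))).integrable _)]
  refine integral_congr_ae (Filter.Eventually.of_forall fun x => ?_)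
  exact (integral_inner (((hf.comp_clm (mix ρ)).sec x).integrable _) _).symm

lemma integral_meh_sq {f : V → H} (hf : PG f) {ρ : ℝ} (hρ : ρ ^ 2 ≤ 1) :
    ∫ x, ‖meh ρ f x‖ ^ 2 ∂(stdGaussian V) = corr f (ρ ^ 2) := by
  have m1 : StronglyMeasurable fun p : V × V => ⟪f p.1, f p.2⟫_ℝ := (hf.fst.inner hf.snd).sm
  have h3 := congrArg (fun μ => ∫ p : V × V, ⟪f p.1, f p.2⟫_ℝ ∂μ) (map_mix3 (V := V) hρ)
  rw [integral_map (by fun_prop) m1.aestronglyMeasurable,
    integral_map (by fun_prop) m1.aestronglyMeasurable] at h3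
  have p1 : PG (fun p : V × V × V => f (mix ρ (p.1, p.2.1))) :=
    hf.comp_clm ((mix ρ).comp ((ContinuousLinearMap.fst ℝ V (V × V)).prod
      ((ContinuousLinearMap.fst ℝ V V).comp (ContinuousLinearMap.snd ℝ V (V × V)))))
  have p2 : PG (fun p : V × V × V => f (mix ρ (p.1, p.2.2))) :=
    hf.comp_clm ((mix ρ).comp ((ContinuousLinearMap.fst ℝ V (V × V)).prod
      ((ContinuousLinearMap.snd ℝ V V).comp (ContinuousLinearMap.snd ℝ V (V × V)))))
  rw [corr_eq hf, ← h3, integral_prod _ ((p1.inner p2).integrable _)]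
  refine integral_congr_ae (Filter.Eventually.of_forall fun x => ?_)
  have i1 := ((hf.comp_clm (mix ρ)).sec x).integrable (stdGaussian V)
  simp only
  rw [integral_prod _ (((p1.inner p2).sec x).integrable _)]
  simp only [integral_inner i1]
  simp only [real_inner_comm (∫ z, f (mix ρ (x, z)) ∂(stdGaussian V)), integral_inner i1]
  rw [real_inner_self_eq_norm_sq, meh]

lemma corr_sq_le {f : V → H} (hf : PG f) {ρ : ℝ} (hρ : ρ ^ 2 ≤ 1) :
    corr f ρ ^ 2 ≤ (∫ x, ‖f x‖ ^ 2 ∂(stdGaussian V)) * corr f (ρ ^ 2) := by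
  rw [← integral_meh_sq hf hρ]
  exact integral_inner_sq_le (hf.norm.sq.integrable _) ((hf.meh ρ).norm.sq.integrable _)
    ((hf.inner (hf.meh ρ)).integrable _)

lemma exp_rem_le {l t : ℝ} (hl0 : 0 ≤ l) (hl : l ≤ 1 / 2) (ht : 0 ≤ t) :
    Real.exp (l * t) - 1 - l * t ≤ 8 * l ^ 2 * Real.exp t := by
  set v := l * t with hv
  have hv0 : 0 ≤ v := by positivity
  have h1 : Real.exp v - 1 ≤ v * Real.exp v := by
    have := Real.add_one_le_exp (-v)
    have h2 := mul_le_mul_of_nonneg_right this (Real.exp_pos v).le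
    rw [← Real.exp_add, neg_add_cancel, Real.exp_zero] at h2
    linarith
  have h2 : Real.exp v - 1 - v ≤ v ^ 2 * Real.exp v := by
    have := mul_le_mul_of_nonneg_left h1 hv0
    nlinarith
  have h3 : Real.exp v ≤ Real.exp (t / 2) := Real.exp_le_exp.2 (by nlinarith)
  have h4 : t ^ 2 ≤ 8 * Real.exp (t / 2) := by
    have := Real.quadratic_le_exp_of_nonneg (x := t / 2) (by positivity)
    nlinarith
  have h5 : Real.exp t = Real.exp (t / 2) * Real.exp (t / 2) := by
    rw [← Real.exp_add]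
    ring_nf
  calc _ ≤ v ^ 2 * Real.exp v := h2
    _ = l ^ 2 * (t ^ 2 * Real.exp v) := by rw [hv]; ring
    _ ≤ l ^ 2 * ((8 * Real.exp (t / 2)) * Real.exp (t / 2)) := by gcongr
    _ = _ := by rw [h5]; ring

lemma corr_small {f : V → H} (hf : PG f) (h0 : ∫ z, f z ∂(stdGaussian V) = 0)
    (h1 : ∀ w, ∫ z, ⟪w, z⟫_ℝ • f z ∂(stdGaussian V) = 0) :
    ∃ K r : ℝ, 0 < r ∧ ∀ ρ : ℝ, ρ ^ 2 ≤ r → corr f ρ ^ 2 ≤ K * (ρ ^ 2) ^ 2 := by
  obtain ⟨C, hC, hCi⟩ := IsGaussian.exists_integrable_exp_sq (stdGaussian V)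
  obtain ⟨-, D, n, hD, hb⟩ := id hf
  set N := ∫ x, ‖f x‖ ^ 2 ∂(stdGaussian V) with hN
  set M := ∫ x : V, (D * (1 + ‖x‖) ^ n) ^ 2 ∂(stdGaussian V) with hM
  have hN0 : 0 ≤ N := integral_nonneg fun _ => by positivity
  have hM0 : 0 ≤ M := integral_nonneg fun _ => by positivity
  set I := ∫ x : V, Real.exp (C * ‖x‖ ^ 2) ∂(stdGaussian V) with hI
  have hI0 : 0 ≤ I := integral_nonneg fun _ => by positivity
  refine ⟨N * (8 * (2 / C) ^ 2 * M * I), min (1 / 2) (C / 4), by positivity, fun ρ hρ => ?_⟩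
  have hρ1 : ρ ^ 2 ≤ 1 / 2 := hρ.trans (min_le_left _ _)
  have hρ2 : ρ ^ 2 ≤ C / 4 := hρ.trans (min_le_right _ _)
  set σ := √(1 - ρ ^ 2) with hσ
  have hσ2 : σ ^ 2 = 1 - ρ ^ 2 := Real.sq_sqrt (by linarith)
  have hσ0 : 0 < σ := Real.sqrt_pos.2 (by linarith)
  have hσ1 : σ ≤ 1 := by nlinarith [sq_nonneg ρ]
  let g : V → H := fun z => f (σ • z)
  have hg : PG g := hf.comp_clm (σ • ContinuousLinearMap.id ℝ V)
  have hgM : ∫ z, ‖g z‖ ^ 2 ∂(stdGaussian V) ≤ M := by
    refine integral_mono (hg.norm.sq.integrable _) ?_ fun z => ?_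
    · simpa only [mul_pow, ← pow_mul] using (integrable_one_add_pow _ (n * 2)).const_mul (D ^ 2)
    · refine pow_le_pow_left₀ (norm_nonneg _) ((hb _).trans ?_) 2
      rw [norm_smul, Real.norm_of_nonneg hσ0.le]
      gcongr
      exact mul_le_of_le_one_left (norm_nonneg _) hσ1
  let m : V →L[ℝ] H := (linPart g).comp ((ρ / σ) • ContinuousLinearMap.id ℝ V)
  let r : V → H := fun x => meh ρ f x - ∫ z, g z ∂(stdGaussian V) - m x
  have hr : PG r := ((hf.meh ρ).sub (PG.const _)).sub (PG.clm m)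
  set l := (ρ / σ) ^ 2 / C with hl
  have hl1 : l ≤ 2 / C * ρ ^ 2 := by
    rw [hl, div_pow, hσ2, div_le_iff₀ hC, div_le_iff₀ (by linarith)]
    have : 2 / C * ρ ^ 2 * C = 2 * ρ ^ 2 := by field_simp
    rw [this]
    nlinarith [sq_nonneg ρ]
  have hl2 : l ≤ 1 / 2 := by
    refine hl1.trans ?_
    rw [div_mul_eq_mul_div, div_le_iff₀ hC]
    linarith
  have hl0 : 0 ≤ l := by positivity
  have hrb : ∀ x, ‖r x‖ ^ 2 ≤ 8 * l ^ 2 * M * Real.exp (C * ‖x‖ ^ 2) := fun x => by
    have := shift_rem hg ((ρ / σ) • x)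
    have e1 : ∫ z, g (z + (ρ / σ) • x) ∂(stdGaussian V) = meh ρ f x := by
      simp only [g, meh, mix_apply, smul_add, smul_smul, mul_div_cancel₀ _ hσ0.ne', add_comm]
      rfl
    have e2 : ‖(ρ / σ) • x‖ ^ 2 = l * (C * ‖x‖ ^ 2) := by
      rw [norm_smul, mul_pow, Real.norm_eq_abs, sq_abs, hl]
      field_simp
    rw [e1, e2] at this
    refine this.trans ?_
    have h2 := exp_rem_le hl0 hl2 (t := C * ‖x‖ ^ 2) (by positivity)
    calc _ ≤ (8 * l ^ 2 * Real.exp (C * ‖x‖ ^ 2)) * M :=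
          mul_le_mul h2 hgM (integral_nonneg fun _ => by positivity) (by positivity)
      _ = _ := by ring
  have hri : ∫ x, ‖r x‖ ^ 2 ∂(stdGaussian V) ≤ 8 * l ^ 2 * M * I := by
    rw [hI, ← integral_const_mul]
    exact integral_mono (hr.norm.sq.integrable _) (hCi.const_mul _) hrb
  have e : corr f ρ = ∫ x, ⟪f x, r x⟫_ℝ ∂(stdGaussian V) := by
    simp only [r, inner_sub_right]
    rw [integral_sub (((hf.inner (hf.meh ρ)).sub (hf.inner (PG.const _))).integrable _)
      ((hf.inner (PG.clm m)).integrable _), integral_sub ((hf.inner (hf.meh ρ)).integrable _)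
      ((hf.inner (PG.const _)).integrable _), orth_lin hf h1, orth_const hf h0, sub_zero, sub_zero,
      corr]
  rw [e]
  refine (integral_inner_sq_le (hf.norm.sq.integrable _) (hr.norm.sq.integrable _)
    ((hf.inner hr).integrable _)).trans ?_
  rw [mul_assoc N]
  refine mul_le_mul_of_nonneg_left (hri.trans ?_) hN0
  calc 8 * l ^ 2 * M * I ≤ 8 * (2 / C * ρ ^ 2) ^ 2 * M * I := by gcongr
    _ = _ := by ring

lemma corr_le {f : V → H} (hf : PG f) (h0 : ∫ z, f z ∂(stdGaussian V) = 0)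
    (h1 : ∀ w, ∫ z, ⟪w, z⟫_ℝ • f z ∂(stdGaussian V) = 0) {ρ : ℝ} (hρ0 : 0 < ρ) (hρ : ρ < 1) :
    corr f ρ ≤ ρ ^ 2 * ∫ x, ‖f x‖ ^ 2 ∂(stdGaussian V) := by
  obtain ⟨K, r, hr, hK⟩ := corr_small hf h0 h1
  set N := ∫ x, ‖f x‖ ^ 2 ∂(stdGaussian V) with hN
  have hN0 : 0 ≤ N := integral_nonneg fun _ => by positivity
  have hp : ∀ m : ℕ, (ρ ^ m) ^ 2 ≤ 1 := fun m =>
    pow_le_one₀ (by positivity) (pow_le_one₀ hρ0.le hρ.le)
  by_contra hc
  rw [not_le] at hc
  have hN1 : 0 < N := by
    refine lt_of_le_of_ne hN0 fun h => ?_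
    have := corr_sq_le hf (ρ := ρ) (by simpa using hp 1)
    rw [← hN, ← h] at this
    rw [← h] at hc
    nlinarith
  set q := corr f ρ / (ρ ^ 2 * N) with hq
  have hq1 : 1 < q := by rw [hq, one_lt_div (by positivity)]; exact hc
  have key : ∀ m : ℕ, q ^ 2 ^ m * (ρ ^ 2 ^ m) ^ 2 * N ≤ corr f (ρ ^ 2 ^ m) := fun m => by
    induction m with
    | zero =>
      rw [hq]
      simp only [pow_zero, pow_one]
      apply le_of_eq
      field_simp
    | succ m ih =>
      have h2 := corr_sq_le hf (hp (2 ^ m))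
      have h3 := pow_le_pow_left₀ (by positivity) ih 2
      rw [pow_succ 2 m, pow_mul, pow_mul]
      refine le_of_mul_le_mul_left ?_ hN1
      calc _ = (q ^ 2 ^ m * (ρ ^ 2 ^ m) ^ 2 * N) ^ 2 := by ring
        _ ≤ _ := h3.trans h2
  have t1 : Filter.Tendsto (fun m : ℕ => 2 ^ m) Filter.atTop Filter.atTop :=
    tendsto_pow_atTop_atTop_of_one_lt one_lt_two
  have t2 := (tendsto_pow_atTop_nhds_zero_of_lt_one hρ0.le hρ).comp t1
  have t3 := (tendsto_pow_atTop_atTop_of_one_lt hq1).comp t1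
  obtain ⟨m, hm1, hm2⟩ := ((t2.eventually (gt_mem_nhds hr)).and
    (t3.eventually (Filter.eventually_gt_atTop (max 1 (K / N ^ 2))))).exists
  simp only [Function.comp] at hm1 hm2
  set s := ρ ^ 2 ^ m with hs
  have hs0 : 0 < s := by positivity
  have hs1 : s ≤ 1 := pow_le_one₀ hρ0.le hρ.le
  have h4 := hK s (by nlinarith)
  have h5 := pow_le_pow_left₀ (by positivity) (key m) 2
  have h6 : K < q ^ 2 ^ m * N ^ 2 := by
    have := (le_max_right _ _).trans_lt hm2
    rwa [div_lt_iff₀ (by positivity)] at this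
  have h7 : 1 < q ^ 2 ^ m := (le_max_left _ _).trans_lt hm2
  have h8 : (q ^ 2 ^ m) ^ 2 * N ^ 2 ≤ K := by
    refine le_of_mul_le_mul_right ?_ (show 0 < (s ^ 2) ^ 2 by positivity)
    calc _ = (q ^ 2 ^ m * s ^ 2 * N) ^ 2 := by ring
      _ ≤ _ := h5.trans h4
  have : 0 < N ^ 2 := by positivity
  nlinarith [mul_pos (sub_pos.2 h7) (mul_pos (zero_lt_one.trans h7) this)]

theorem gap_real {F : V → H} (hF : PG F) :
    ∫ x, ‖F x - linPart F x‖ ^ 2 ∂(stdGaussian V) ≤
      40 * ∫ x, ‖meh (1 / 2) F x - (1 / 2 : ℝ) • F x‖ ^ 2 ∂(stdGaussian V) := by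
  set c := ∫ x, F x ∂(stdGaussian V) with hc
  set l := linPart F with hl
  let f : V → H := fun x => F x - c - l x
  have hf : PG f := (hF.sub (PG.const _)).sub (PG.clm l)
  let d : V → H := fun x => meh (1 / 2) F x - (1 / 2 : ℝ) • F x
  have hd : PG d := (hF.meh _).sub (hF.const_smul _)
  set S := ∫ x, ‖d x‖ ^ 2 ∂(stdGaussian V) with hS
  have hS0 : 0 ≤ S := integral_nonneg fun _ => by positivity
  have h0 : ∫ z, f z ∂(stdGaussian V) = 0 := by
    simp only [f]
    rw [integral_sub ((hF.sub (PG.const _)).integrable _) ((PG.clm l).integrable _),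
      integral_sub (hF.integrable _) (integrable_const _),
      l.integral_comp_comm (PG.id.integrable _)]
    simp [hc]
  have h1 : ∀ w, ∫ z, ⟪w, z⟫_ℝ • f z ∂(stdGaussian V) = 0 := fun w => by
    simp only [f, smul_sub, ← map_smul]
    rw [integral_sub ((((PG.inner_id w).smul hF).sub
        ((PG.inner_id w).smul (PG.const _))).integrable _)
      ((((PG.inner_id w).smul PG.id).clm_comp l).integrable _),
      integral_sub (((PG.inner_id w).smul hF).integrable _)
        (((PG.inner_id w).smul (PG.const _)).integrable _),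
      l.integral_comp_comm (((PG.inner_id w).smul PG.id).integrable _), integral_inner_smul,
      integral_smul_const, integral_inner_std, ← linPart_apply hF]
    simp [hl]
  have h2 := corr_le hf h0 h1 (ρ := 1 / 2) (by norm_num) (by norm_num)
  set N := ∫ x, ‖f x‖ ^ 2 ∂(stdGaussian V) with hN
  have hN0 : 0 ≤ N := integral_nonneg fun _ => by positivity
  have e1 : ∀ x, d x = meh (1 / 2) f x - (1 / 2 : ℝ) • f x + (1 / 2 : ℝ) • c := fun x => by
    have : meh (1 / 2) f x = meh (1 / 2) F x - c - meh (1 / 2) l x := by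
      simp only [meh, f]
      rw [integral_sub ((((hF.comp_clm (mix _)).sec x).sub (PG.const _)).integrable _)
        ((((PG.clm l).comp_clm (mix _)).sec x).integrable _),
        integral_sub (((hF.comp_clm (mix _)).sec x).integrable _) (integrable_const _)]
      simp
    rw [this, meh_clm]
    simp only [d, f]
    module
  have e2 : ∫ x, ⟪f x, d x⟫_ℝ ∂(stdGaussian V) = corr f (1 / 2) - 1 / 2 * N := by
    simp only [e1, inner_add_right, inner_sub_right, real_inner_smul_right,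
      real_inner_self_eq_norm_sq]
    rw [integral_add (((hf.inner (hf.meh _)).sub ((PG.const _).mul hf.norm.sq)).integrable _)
      (((PG.const _).mul (hf.inner (PG.const _))).integrable _),
      integral_sub ((hf.inner (hf.meh _)).integrable _)
      (((PG.const _).mul hf.norm.sq).integrable _), integral_const_mul, integral_const_mul,
      orth_const hf h0, corr]
    simp [hN]
  have h3 := integral_inner_sq_le (μ := stdGaussian V) (hf.norm.sq.integrable _)
    (hd.norm.sq.integrable _) ((hf.inner hd).integrable _)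
  rw [e2, ← hN, ← hS] at h3
  have h4 : N ≤ 16 * S := by
    by_contra hcon
    rw [not_le] at hcon
    have : (1 / 4 * N) ^ 2 ≤ (corr f (1 / 2) - 1 / 2 * N) ^ 2 := by
      rw [← neg_sq (corr f (1 / 2) - 1 / 2 * N)]
      exact pow_le_pow_left₀ (by positivity) (by linarith) 2
    nlinarith
  have h5 : ‖c‖ ^ 2 ≤ 4 * S := by
    have := norm_integral_sq_le (μ := stdGaussian V) (hd.integrable _) (hd.norm.sq.integrable _)
    have e : ∫ x, d x ∂(stdGaussian V) = (1 / 2 : ℝ) • c := by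
      simp only [d]
      rw [integral_sub ((hF.meh _).integrable _) ((hF.const_smul _).integrable _),
        integral_meh hF (by norm_num), integral_smul, ← hc]
      module
    rw [e, norm_smul, mul_pow] at this
    norm_num at this
    linarith
  calc ∫ x, ‖F x - l x‖ ^ 2 ∂(stdGaussian V)
      ≤ ∫ x, (2 * ‖f x‖ ^ 2 + 2 * ‖c‖ ^ 2) ∂(stdGaussian V) := by
        refine integral_mono ((hF.sub (PG.clm l)).norm.sq.integrable _)
          ((((PG.const _).mul hf.norm.sq).add (PG.const _)).integrable _) fun x => ?_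
        have e : F x - l x = f x + c := by simp only [f]; abel
        have := norm_add_le (f x) c
        have h6 := pow_le_pow_left₀ (norm_nonneg _) this 2
        simp only [e]
        nlinarith [sq_nonneg (‖f x‖ - ‖c‖)]
    _ = 2 * N + 2 * ‖c‖ ^ 2 := by
        rw [integral_add (((PG.const _).mul hf.norm.sq).integrable _) (integrable_const _),
          integral_const_mul]
        simp [hN]
    _ ≤ 40 * S := by linarith

theorem gap {K : Type*} [NormedAddCommGroup K] [InnerProductSpace ℂ K] [CompleteSpace K]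
    {F : V → K} (hF : PG F) :
    ∫ x, ‖F x - linPart F x‖ ^ 2 ∂(stdGaussian V) ≤
      40 * ∫ x, ‖meh (1 / 2) F x - (1 / 2 : ℝ) • F x‖ ^ 2 ∂(stdGaussian V) :=
  letI := InnerProductSpace.rclikeToReal ℂ K
  gap_real hF

end

end Pool.Agent.P.MP_a35bd4_an
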