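import Pool.Agent.P.MP_a35bd4_an.Gauss
import Pool.Agent.P.MP_a35bd4_an.Basic

/-! Operator valued Gaussian moments and truncation. -/

open scoped BigOperators InnerProductSpace
open MeasureTheory ProbabilityTheory

namespace Pool.Agent.P.MP_a35bd4_an

noncomputable section

variable {A : Type*} [CStarAlgebra A] [PartialOrder A] [StarOrderedRing A]

section general

variable {X : Type*} [NormedAddCommGroup X] [MeasurableSpace X] [NormedSpace ℝ X] [BorelSpace X]
  [SecondCountableTopology X] [CompleteSpace X] (μ : Measure X) [IsGaussian μ]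

omit [PartialOrder A] [StarOrderedRing A] in
lemma integral_star' {f : X → A} (hf : PG f) : ∫ x, star (f x) ∂μ = star (∫ x, f x ∂μ) :=
  (starL' ℝ : A ≃L[ℝ] A).toContinuousLinearMap.integral_comp_comm (hf.integrable μ)

/-- the norm of the second moment -/
def sq2 (f : X → A) : ℝ := ‖∫ x, star (f x) * f x ∂μ‖

omit [PartialOrder A] [StarOrderedRing A] [NormedAddCommGroup X] [NormedSpace ℝ X] [BorelSpace X]
  [SecondCountableTopology X] [CompleteSpace X] [IsGaussian μ] in
lemma sq2_nonneg (f : X → A) : 0 ≤ sq2 μ f := norm_nonneg _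

omit [NormedAddCommGroup X] [NormedSpace ℝ X] [BorelSpace X]
  [SecondCountableTopology X] [CompleteSpace X] [IsGaussian μ] in
lemma integral_sq_nonneg (f : X → A) : 0 ≤ ∫ x, star (f x) * f x ∂μ :=
  integral_nonneg fun _ => star_mul_self_nonneg _

lemma opCS {f g : X → A} (hf : PG f) (hg : PG g) {a : ℝ} (ha : 0 < a) (h : sq2 μ f ≤ a) :
    star (∫ x, star (f x) * g x ∂μ) * (∫ x, star (f x) * g x ∂μ) ≤
      a • ∫ x, star (g x) * g x ∂μ := by
  set Z := ∫ x, star (f x) * g x ∂μ with hZ
  set P := ∫ x, star (f x) * f x ∂μ with hP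
  have h0 := integral_sq_nonneg μ (fun x => f x * Z - a • g x)
  have e : ∀ x, star (f x * Z - a • g x) * (f x * Z - a • g x) =
      star Z * (star (f x) * f x) * Z - a • (star Z * (star (f x) * g x)) -
        a • (star (star (f x) * g x) * Z) + (a * a) • (star (g x) * g x) := fun x => by
    simp only [star_sub, star_mul, star_smul, star_trivial, star_star, sub_mul, mul_sub,
      smul_mul_assoc, mul_smul_comm, smul_smul, mul_assoc, smul_sub]
    abel
  have p1 := hf.star.mul hf
  have p2 := hf.star.mul hg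
  have p3 := hg.star.mul hg
  have q1 := ((PG.const (star Z)).mul p1).mul (PG.const Z)
  have q2 := ((PG.const (star Z)).mul p2).const_smul a
  have q3 := (p2.star.mul (PG.const Z)).const_smul a
  simp only [e] at h0
  rw [integral_add (((q1.sub q2).sub q3).integrable _) ((p3.const_smul _).integrable _),
    integral_sub ((q1.sub q2).integrable _) (q3.integrable _),
    integral_sub (q1.integrable _) (q2.integrable _), integral_smul, integral_smul, integral_smul,
    integral_mul_const_of_integrable (((PG.const (star Z)).mul p1).integrable _),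
    integral_const_mul_of_integrable (p1.integrable _),
    integral_const_mul_of_integrable (p2.integrable _),
    integral_mul_const_of_integrable (p2.star.integrable _), integral_star' μ p2, ← hZ, ← hP]
    at h0
  have h1 : star Z * P * Z ≤ a • (star Z * Z) := by
    have := star_left_conjugate_le_conjugate
      (le_smul_one_of_norm (star_eq_of_nonneg (integral_sq_nonneg μ f)) h) Z
    simpa using this
  have h2 : a • (star Z * Z) ≤ a • (a • ∫ x, star (g x) * g x ∂μ) := by
    rw [smul_smul, ← sub_nonneg]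
    convert add_nonneg h0 (sub_nonneg.2 h1) using 1
    abel
  exact le_of_smul_le_smul_left h2 ha

lemma norm_integral_star_mul_le {f g : X → A} (hf : PG f) (hg : PG g) {a b : ℝ} (ha : 0 < a)
    (hb : 0 ≤ b) (h : sq2 μ f ≤ a ^ 2) (h' : sq2 μ g ≤ b ^ 2) :
    ‖∫ x, star (f x) * g x ∂μ‖ ≤ a * b := by
  have h1 := CStarAlgebra.norm_le_norm_of_nonneg_of_le (star_mul_self_nonneg _)
    (opCS μ hf hg (by positivity) h)
  rw [CStarRing.norm_star_mul_self, norm_smul, Real.norm_of_nonneg (by positivity)] at h1
  refine abs_le_of_sq_le_sq' ?_ (by positivity) |>.2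
  calc _ = _ := sq _
    _ ≤ _ := h1
    _ ≤ a ^ 2 * b ^ 2 := by gcongr; exact h'
    _ = _ := by ring

lemma op_jensen {g : X → A} (hg : PG g) :
    star (∫ x, g x ∂μ) * (∫ x, g x ∂μ) ≤ ∫ x, star (g x) * g x ∂μ := by
  have := opCS μ (PG.const (1 : A)) hg one_pos (by
    simpa [sq2] using norm_smul_one_le (A := A) 1 zero_le_one)
  simpa using this

lemma sq2_le_of_le {f k : X → A} (hf : PG f) (hk : PG k) (h : ∀ x, star (f x) * f x ≤ k x) :
    sq2 μ f ≤ ‖∫ x, k x ∂μ‖ :=
  CStarAlgebra.norm_le_norm_of_nonneg_of_le (integral_sq_nonneg μ f)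
    (integral_mono ((hf.star.mul hf).integrable _) (hk.integrable _) h)

lemma sq2_add_le {f g : X → A} (hf : PG f) (hg : PG g) :
    sq2 μ (fun x => f x + g x) ≤ 2 * sq2 μ f + 2 * sq2 μ g := by
  have p1 := (hf.star.mul hf).const_smul (2 : ℝ)
  have p2 := (hg.star.mul hg).const_smul (2 : ℝ)
  refine (sq2_le_of_le μ (hf.add hg) (p1.add p2) fun x => star_add_mul_self_le _ _).trans ?_
  rw [integral_add (p1.integrable _) (p2.integrable _), integral_smul, integral_smul]
  refine (norm_add_le _ _).trans (le_of_eq ?_)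
  simp [norm_smul, sq2]

omit [PartialOrder A] [StarOrderedRing A] [NormedAddCommGroup X] [NormedSpace ℝ X] [BorelSpace X]
  [SecondCountableTopology X] [CompleteSpace X] [IsGaussian μ] in
lemma sq2_smul (c : ℂ) (f : X → A) : sq2 μ (fun x => c • f x) = ‖c‖ ^ 2 * sq2 μ f := by
  simp only [sq2, star_smul, smul_mul_smul_comm]
  rw [integral_smul, norm_smul, norm_mul, norm_star, sq]

omit [PartialOrder A] [StarOrderedRing A] [NormedAddCommGroup X] [NormedSpace ℝ X] [BorelSpace X]
  [SecondCountableTopology X] [CompleteSpace X] [IsGaussian μ] in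
lemma sq2_real_smul (c : ℝ) (f : X → A) : sq2 μ (fun x => c • f x) = c ^ 2 * sq2 μ f := by
  simp only [sq2, star_smul, smul_mul_smul_comm]
  rw [integral_smul, norm_smul, norm_mul, norm_star, ← sq, Real.norm_eq_abs, sq_abs]

lemma sq2_sub_le {f g : X → A} (hf : PG f) (hg : PG g) :
    sq2 μ (fun x => f x - g x) ≤ 2 * sq2 μ f + 2 * sq2 μ g := by
  have := sq2_add_le μ hf (hg.const_smul (-1 : ℝ))
  rw [sq2_real_smul] at this
  simpa [sub_eq_add_neg] using this

omit [PartialOrder A] [StarOrderedRing A] in
lemma sq2_le_of_norm {f : X → A} {c : ℝ} (h : ∀ x, ‖f x‖ ≤ c) : sq2 μ f ≤ c ^ 2 := by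
  have := norm_integral_le_of_norm_le_const (μ := μ) (f := fun x => star (f x) * f x) (C := c ^ 2)
    (Filter.Eventually.of_forall fun x => by
      rw [CStarRing.norm_star_mul_self, sq]
      exact mul_le_mul (h x) (h x) (norm_nonneg _) ((norm_nonneg _).trans (h x)))
  simpa [sq2] using this

omit [PartialOrder A] [StarOrderedRing A] [NormedSpace ℝ X] [BorelSpace X]
  [SecondCountableTopology X] [CompleteSpace X] [IsGaussian μ] in
lemma sq2_comp {f : X → A} (hf : PG f) {T : X → X} (hT : MeasurePreserving T μ μ) :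
    sq2 μ (fun x => f (T x)) = sq2 μ f := by
  simp only [sq2]
  conv_rhs => rw [← hT.map_eq]
  rw [integral_map hT.measurable.aemeasurable (hf.star.mul hf).sm.aestronglyMeasurable]

omit [PartialOrder A] [StarOrderedRing A] in
lemma integral_prod_mul' {f g : X → A} (hf : PG f) (hg : PG g) :
    ∫ p : X × X, f p.1 * g p.2 ∂(μ.prod μ) = (∫ x, f x ∂μ) * ∫ x, g x ∂μ := by
  rw [integral_prod _ ((hf.fst.mul hg.snd).integrable _)]
  simp only [integral_const_mul_of_integrable (hg.integrable μ)]
  rw [integral_mul_const_of_integrable (hf.integrable μ)]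

end general

section std

variable {V : Type*} [NormedAddCommGroup V] [InnerProductSpace ℝ V] [FiniteDimensional ℝ V]
  [MeasurableSpace V] [BorelSpace V]

lemma sq2_meh {f : V → A} (hf : PG f) {ρ : ℝ} (hρ : ρ ^ 2 ≤ 1) :
    sq2 (stdGaussian V) (meh ρ f) ≤ sq2 (stdGaussian V) f := by
  refine (sq2_le_of_le _ (hf.meh ρ) ((hf.star.mul hf).meh ρ) fun x =>
    op_jensen _ ((hf.comp_clm (mix ρ)).sec x)).trans (le_of_eq ?_)
  rw [integral_meh (hf.star.mul hf) hρ, sq2]

omit [PartialOrder A] [StarOrderedRing A] in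
lemma integral_mix {f : V → A} (hf : PG f) {ρ : ℝ} (hρ : ρ ^ 2 ≤ 1) :
    ∫ p, f (mix ρ p) ∂((stdGaussian V).prod (stdGaussian V)) = ∫ x, f x ∂(stdGaussian V) := by
  conv_rhs => rw [← map_mix hρ]
  rw [integral_map (by fun_prop) hf.sm.aestronglyMeasurable]

lemma fourth_moment (y : V →L[ℝ] A) :
    sq2 (stdGaussian V) (fun x => star (y x) * y x) ≤ sq2 (stdGaussian V) y ^ 2 +
      2 * sq2 (stdGaussian V) (fun x => star (y x)) * sq2 (stdGaussian V) y := by
  set γ := stdGaussian V with hγ
  have py : PG y := PG.clm y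
  let q : V → A := fun x => star (y x) * y x
  have pq : PG q := py.star.mul py
  have pqq : PG (fun x => star (q x) * q x) := pq.star.mul pq
  let a : V × V → A := fun p => star (y p.1) * y p.2
  have pa : PG a := py.fst.star.mul py.snd
  set M := ∫ x, star (q x) * q x ∂γ with hM
  set P := ∫ x, q x ∂γ with hP
  set Q := sq2 γ (fun x => star (y x)) with hQ
  set S := ∫ p, star (a p + star (a p)) * (a p + star (a p)) ∂(γ.prod γ) with hS
  set r := √(1 / 2 : ℝ) with hr
  have hr2 : r ^ 2 = 1 / 2 := Real.sq_sqrt (by norm_num)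
  have hr3 : √(1 - r ^ 2) = r := by rw [hr2, hr]; norm_num
  have hr4 : √(1 - (-r) ^ 2) = r := by rw [neg_sq, hr3]
  have hrr : r * r = 1 / 2 := by rw [← sq, hr2]
  have e1 : ∀ p : V × V, q (mix r p) = (1 / 2 : ℝ) • (q p.1 + q p.2 + (a p + star (a p))) := by
    rintro ⟨x, z⟩
    simp only [q, a, mix_apply, hr3, map_add, map_smul, ← smul_add, star_smul, star_trivial,
      smul_mul_smul_comm, hrr, star_add, star_mul, star_star]
    congr 1
    noncomm_ring
  have e2 : ∀ p : V × V, q (mix (-r) p) = (1 / 2 : ℝ) • (q p.1 + q p.2 - (a p + star (a p))) := by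
    rintro ⟨x, z⟩
    have : (-r) • y x + r • y z = r • (y z - y x) := by module
    simp only [q, a, mix_apply, hr4, map_add, map_smul, this, star_smul, star_trivial,
      smul_mul_smul_comm, hrr, star_sub, star_mul, star_star]
    congr 1
    noncomm_ring
  have hq : ∀ x, star (q x) = q x := fun x => by simp [q]
  have e3 : ∀ p : V × V, (2 : ℝ) • (star (q (mix r p)) * q (mix r p) +
      star (q (mix (-r) p)) * q (mix (-r) p)) = star (q p.1) * q p.1 + star (q p.2) * q p.2 +
        q p.1 * q p.2 + star (q p.1 * q p.2) +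
        star (a p + star (a p)) * (a p + star (a p)) := fun p => by
    have hs : star (a p + star (a p)) = a p + star (a p) := by simp [add_comm]
    rw [hq, hq, e1, e2, hs, star_mul (q p.1)]
    simp only [hq, smul_mul_smul_comm, ← smul_add, smul_smul]
    generalize a p + star (a p) = s
    have : ((q p.1 + q p.2 + s) * (q p.1 + q p.2 + s) + (q p.1 + q p.2 - s) * (q p.1 + q p.2 - s))
        = (2 : ℝ) • (q p.1 * q p.1 + q p.2 * q p.2 + q p.1 * q p.2 + q p.2 * q p.1 + s * s) := by
      rw [two_smul]
      noncomm_ring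
    rw [this, smul_smul]
    norm_num
  have ps := (pa.add pa.star).star.mul (pa.add pa.star)
  have e4 := integral_congr_ae (μ := γ.prod γ) (Filter.Eventually.of_forall e3)
  rw [integral_smul, integral_add ((pqq.comp_clm _).integrable _) ((pqq.comp_clm _).integrable _),
    integral_mix pqq (by rw [hr2]; norm_num), integral_mix pqq (by rw [neg_sq, hr2]; norm_num),
    integral_add ((((pqq.fst.add pqq.snd).add (pq.fst.mul pq.snd)).add
      (pq.fst.mul pq.snd).star).integrable _) (ps.integrable _),
    integral_add (((pqq.fst.add pqq.snd).add (pq.fst.mul pq.snd)).integrable _)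
      ((pq.fst.mul pq.snd).star.integrable _),
    integral_add ((pqq.fst.add pqq.snd).integrable _) ((pq.fst.mul pq.snd).integrable _),
    integral_add (pqq.fst.integrable _) (pqq.snd.integrable _),
    integral_star' _ (pq.fst.mul pq.snd), integral_prod_mul' _ pq pq,
    integral_fun_fst (fun x => star (q x) * q x), integral_fun_snd (fun x => star (q x) * q x),
    ← hM, ← hP, ← hS] at e4
  simp only [probReal_univ, one_smul] at e4
  have e5 : (2 : ℝ) • M = P * P + star (P * P) + S := by
    have : (2 : ℝ) • M = (2 : ℝ) • (M + M) - (M + M) := by module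
    rw [this, e4]
    abel
  have hQ1 : ∫ x, y x * star (y x) ∂γ ≤ Q • (1 : A) := by
    have := le_smul_one_of_norm (star_eq_of_nonneg (integral_sq_nonneg γ fun x => star (y x)))
      (le_refl Q)
    simpa using this
  have hQ0 : 0 ≤ Q := sq2_nonneg _ _
  have hP0 : 0 ≤ P := integral_sq_nonneg γ y
  have b1 : ∀ x, ∫ z, star (y x) * (y z * star (y z)) * y x ∂γ ≤ Q • q x := fun x => by
    rw [integral_mul_const_of_integrable (((PG.const _).mul (py.mul py.star)).integrable _),
      integral_const_mul_of_integrable ((py.mul py.star).integrable _)]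
    have := star_left_conjugate_le_conjugate hQ1 (y x)
    simpa using this
  have pb : PG (fun p : V × V => star (y p.1) * (y p.2 * star (y p.2)) * y p.1) :=
    (py.fst.star.mul (py.snd.mul py.snd.star)).mul py.fst
  have b2 : ∫ p : V × V, star (y p.1) * (y p.2 * star (y p.2)) * y p.1 ∂(γ.prod γ) ≤ Q • P := by
    rw [integral_prod _ (pb.integrable _), hP, ← integral_smul]
    exact integral_mono ((pb.integral _).integrable _) ((pq.const_smul _).integrable _) b1
  have c1 : sq2 (γ.prod γ) (fun p => star (a p)) ≤ Q * ‖P‖ := by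
    have := CStarAlgebra.norm_le_norm_of_nonneg_of_le (by
      refine integral_nonneg fun p => ?_
      have := star_mul_self_nonneg (star (y p.2) * y p.1)
      simpa [mul_assoc] using this) b2
    rw [norm_smul, Real.norm_of_nonneg hQ0] at this
    simpa [sq2, a, mul_assoc] using this
  have c2 : sq2 (γ.prod γ) a = sq2 (γ.prod γ) (fun p => star (a p)) := by
    rw [← sq2_comp _ pa (Measure.measurePreserving_swap)]
    simp [a]
  have c3 : ‖S‖ ≤ 4 * (Q * ‖P‖) := by
    have := sq2_add_le (γ.prod γ) pa pa.star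
    rw [c2] at this
    change ‖S‖ ≤ _ at this
    linarith
  have c4 : ‖(2 : ℝ) • M‖ ≤ ‖P‖ * ‖P‖ + ‖P‖ * ‖P‖ + ‖S‖ := by
    rw [e5]
    refine (norm_add_le _ _).trans (add_le_add_left ((norm_add_le _ _).trans ?_) _)
    rw [norm_star]
    exact add_le_add (norm_mul_le _ _) (norm_mul_le _ _)
  rw [norm_smul, Real.norm_of_nonneg (by norm_num)] at c4
  change ‖M‖ ≤ ‖P‖ ^ 2 + 2 * Q * ‖P‖
  nlinarith

omit [CStarAlgebra A] [PartialOrder A] [StarOrderedRing A] in
/-- a measurable function with countable range -/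
def Simple {X : Type*} [MeasurableSpace X] (u : X → A) : Prop :=
  ∃ (N : X → ℕ) (h : ℕ → A), Measurable N ∧ ∀ x, u x = h (N x)

omit [CStarAlgebra A] [PartialOrder A] [StarOrderedRing A] in
lemma Simple.sm {X Y : Type*} [MeasurableSpace X] [NormedAddCommGroup Y] {u : X → A}
    (hu : Simple u) (g : A → Y) : StronglyMeasurable (fun x => g (u x)) := by
  obtain ⟨N, h, hN, hu⟩ := hu
  simp only [hu]
  exact (StronglyMeasurable.of_discrete (f := fun n => g (h n))).comp_measurable hN

omit [PartialOrder A] [StarOrderedRing A] in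
lemma exists_simple {f : V → A} (hf : Continuous f) {η : ℝ} (hη : 0 < η) :
    ∃ u : V → A, Simple u ∧ (∀ x, ∃ x', u x = f x') ∧ ∀ x, ‖u x - f x‖ ≤ η := by
  classical
  let d := TopologicalSpace.denseSeq V
  have hp : ∀ x, ∃ n, ‖f (d n) - f x‖ < η := fun x => by
    have ho : IsOpen {w | ‖f w - f x‖ < η} := isOpen_lt (by fun_prop) continuous_const
    obtain ⟨n, hn⟩ := (TopologicalSpace.denseRange_denseSeq V).exists_mem_open ho
      ⟨x, by simpa using hη⟩
    exact ⟨n, hn⟩
  refine ⟨fun x => f (d (Nat.find (hp x))), ⟨fun x => Nat.find (hp x), fun n => f (d n),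
    measurable_find hp fun k => (isOpen_lt (by fun_prop) continuous_const).measurableSet,
    fun _ => rfl⟩, fun x => ⟨_, rfl⟩, fun x => (Nat.find_spec (hp x)).le⟩

lemma exists_cutoff {R : ℝ} (hR : 0 < R) : ∃ τ : A → A, Continuous τ ∧ (∀ a, ‖τ a‖ ≤ R) ∧
    ∀ a, star (τ a - a) * (τ a - a) ≤ (R ^ 2)⁻¹ • (star (star a * a) * (star a * a)) := by
  let w : A → A := fun a => (R ^ 2) • (1 : A) + star a * a
  have hw : ∀ a, IsUnit (w a) := fun a => by
    refine CStarAlgebra.isUnit_of_le ((R ^ 2) • (1 : A))
      (le_add_of_nonneg_right (star_mul_self_nonneg a)) ?_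
    exact isStrictlyPositive_one.smul (by positivity)
  have hs : ∀ a, ∃ s, Ring.inverse (w a) = s ∧ star s = s ∧ s * w a = 1 ∧ w a * s = 1 ∧
      s * (star a * a) = star a * a * s := fun a => by
    have h1 := Ring.inverse_mul_cancel _ (hw a)
    have h2 := Ring.mul_inverse_cancel _ (hw a)
    refine ⟨_, rfl, ?_, h1, h2, ?_⟩
    · rw [← Ring.inverse_star]
      simp [w]
    · have := h1.trans h2.symm
      simpa [w, mul_add, add_mul] using this
  refine ⟨fun a => (R ^ 2) • (a * Ring.inverse (w a)), ?_, fun a => ?_, fun a => ?_⟩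
  · refine continuous_const.smul (continuous_id.mul (continuous_iff_continuousAt.2 fun a => ?_))
    obtain ⟨v, hv⟩ := hw a
    have := NormedRing.inverse_continuousAt v
    rw [hv] at this
    exact this.comp (f := w) (by fun_prop)
  · obtain ⟨s, e, h0, h1, h2, h3⟩ := hs a
    simp only [e]
    refine abs_le_of_sq_le_sq' ?_ hR.le |>.2
    refine norm_sq_le_of_star_mul_self_le (by positivity) ?_
    set p := star a * a with hp
    have hp0 : 0 ≤ p := star_mul_self_nonneg a
    have k1 : (R ^ 2) • p ≤ w a * w a := by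
      rw [← sub_nonneg]
      have : w a * w a - (R ^ 2) • p = (R ^ 2 * R ^ 2) • (1 : A) + (R ^ 2) • p + star p * p := by
        simp only [w, ← hp, star_eq_of_nonneg hp0, mul_add, add_mul, smul_mul_assoc,
          mul_smul_comm, one_mul, mul_one, smul_smul, smul_add]
        abel
      rw [this]
      exact add_nonneg (add_nonneg (smul_nonneg (by positivity) zero_le_one)
        (smul_nonneg (by positivity) hp0)) (star_mul_self_nonneg _)
    have k2 := smul_le_smul_of_nonneg_left (star_left_conjugate_le_conjugate k1 s)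
      (show 0 ≤ R ^ 2 by positivity)
    rw [h0, mul_assoc s (w a * w a), mul_assoc (w a), h2, mul_one, h1] at k2
    convert k2 using 1
    simp only [star_smul, star_trivial, star_mul, h0, smul_mul_assoc, mul_smul_comm, hp, mul_assoc]
  · obtain ⟨s, e, h0, h1, h2, h3⟩ := hs a
    simp only [e]
    set p := star a * a with hp
    have hp0 : 0 ≤ p := star_mul_self_nonneg a
    have hp1 := star_eq_of_nonneg hp0
    have k0 : (R ^ 2) • (a * s) - a = -(a * (s * p)) := by
      have : (R ^ 2) • s = 1 - s * p := by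
        rw [← h1]
        simp [w, mul_add, ← hp]
      rw [← mul_smul_comm, this]
      noncomm_ring
    have k1 : (R ^ 2) • p ≤ w a * w a := by
      rw [← sub_nonneg]
      have : w a * w a - (R ^ 2) • p = (R ^ 2 * R ^ 2) • (1 : A) + (R ^ 2) • p + star p * p := by
        simp only [w, ← hp, star_eq_of_nonneg hp0, mul_add, add_mul, smul_mul_assoc,
          mul_smul_comm, one_mul, mul_one, smul_smul, smul_add]
        abel
      rw [this]
      exact add_nonneg (add_nonneg (smul_nonneg (by positivity) zero_le_one)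
        (smul_nonneg (by positivity) hp0)) (star_mul_self_nonneg _)
    have k2 := smul_le_smul_of_nonneg_left (star_left_conjugate_le_conjugate k1 (s * p))
      (show 0 ≤ (R ^ 2)⁻¹ by positivity)
    have k3 : star (s * p) * (w a * w a) * (s * p) = star p * p := by
      rw [star_mul, h0]
      calc _ = star p * (s * w a) * (w a * s) * p := by noncomm_ring
        _ = _ := by rw [h1, h2]; simp
    rw [k3] at k2
    rw [k0]
    convert k2 using 1
    simp only [star_neg, neg_mul_neg, star_mul, smul_mul_assoc, mul_smul_comm, smul_smul, hp,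
      mul_assoc]
    rw [inv_mul_cancel₀ (by positivity), one_smul]

lemma exists_trunc (y : V →L[ℝ] A) (h1 : sq2 (stdGaussian V) y ≤ 2)
    (h2 : sq2 (stdGaussian V) (fun x => star (y x)) ≤ 4) {R : ℝ} (hR : 0 < R) :
    ∃ u : V → A, Simple u ∧ (∀ x, ‖u x‖ ≤ R) ∧
      sq2 (stdGaussian V) (fun x => u x - y x) ≤ 42 / R ^ 2 := by
  obtain ⟨τ, hτ, hτ1, hτ2⟩ := exists_cutoff (A := A) hR
  obtain ⟨u, hu, hu1, hu2⟩ := exists_simple (hτ.comp y.continuous) (inv_pos.2 hR)
  have hub : ∀ x, ‖u x‖ ≤ R := fun x => by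
    obtain ⟨x', hx⟩ := hu1 x
    rw [hx]
    exact hτ1 _
  refine ⟨u, hu, hub, ?_⟩
  have py : PG y := PG.clm y
  have pt : PG (fun x => τ (y x)) :=
    PG.bdd (hτ.comp y.continuous).stronglyMeasurable fun x => hτ1 _
  have pu : PG u := PG.bdd (hu.sm id) hub
  have a1 := sq2_add_le (stdGaussian V) (pu.sub pt) (pt.sub py)
  simp only [sub_add_sub_cancel] at a1
  have a2 := sq2_le_of_norm (stdGaussian V) hu2
  have a3 := sq2_le_of_le (stdGaussian V) (pt.sub py)
    (((py.star.mul py).star.mul (py.star.mul py)).const_smul _) fun x => hτ2 (y x)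
  rw [integral_smul, norm_smul, Real.norm_of_nonneg (by positivity)] at a3
  have a4 := fourth_moment y
  have a5 : sq2 (stdGaussian V) (fun x => star (y x) * y x) ≤ 20 := by
    have := sq2_nonneg (stdGaussian V) y
    have := sq2_nonneg (stdGaussian V) (fun x => star (y x))
    nlinarith
  have a6 := mul_le_mul_of_nonneg_left a5 (show 0 ≤ (R ^ 2)⁻¹ by positivity)
  simp only [Function.comp] at a2
  rw [inv_pow] at a2
  rw [div_eq_mul_inv]
  simp only [sq2] at *
  linarith

lemma measurePreserving_isometry (T : V →L[ℝ] V) (h : ∀ x, ‖T x‖ = ‖x‖) :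
    MeasurePreserving T (stdGaussian V) (stdGaussian V) :=
  ⟨T.continuous.measurable,
    stdGaussian_map ((⟨T.toLinearMap, h⟩ : V →ₗᵢ[ℝ] V).toLinearIsometryEquiv rfl)⟩

end std

section col

variable {E : Type} [Fintype E] [DecidableEq E]

/-- the linear combination of a column -/
def col {Y : Type*} [NormedAddCommGroup Y] [NormedSpace ℂ Y] (z : E → Y) :
    EuclideanSpace ℂ E →L[ℂ] Y := ∑ e, (EuclideanSpace.proj e).smulRight (z e)

omit [DecidableEq E] in
lemma col_apply {Y : Type*} [NormedAddCommGroup Y] [NormedSpace ℂ Y] (z : E → Y)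
    (G : EuclideanSpace ℂ E) : col z G = ∑ e, G e • z e := by
  simp [col]

lemma integral_conj_mul (e e' : E) :
    ∫ G, star (G e) * G e' ∂(stdGaussian (EuclideanSpace ℂ E)) = if e = e' then 2 else 0 := by
  have h : ∀ (G : EuclideanSpace ℂ E) e, G e = ⟪EuclideanSpace.single e (1 : ℂ), G⟫_ℝ +
      ⟪EuclideanSpace.single e Complex.I, G⟫_ℝ * Complex.I := fun G e => by
    simp [PiLp.inner_apply, Pi.single_apply, apply_ite, Complex.inner]
  have e1 : ∀ a b c d : ℝ, star ((a : ℂ) + b * Complex.I) * (c + d * Complex.I) =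
      ((a * c : ℝ) : ℂ) + ((b * d : ℝ) : ℂ) + (((a * d : ℝ) : ℂ) - ((b * c : ℝ) : ℂ)) * Complex.I :=
    fun a b c d => by
      simp only [star_add, star_mul, RCLike.star_def, Complex.conj_ofReal, Complex.conj_I]
      push_cast
      linear_combination (-b * d) * Complex.I_mul_I
  have p : ∀ a b : EuclideanSpace ℂ E, PG fun G => ((⟪a, G⟫_ℝ * ⟪b, G⟫_ℝ : ℝ) : ℂ) := fun a b =>
    ((PG.inner_id a).mul (PG.inner_id b)).ofReal
  simp only [h _ e, h _ e', e1]
  rw [integral_add (((p _ _).add (p _ _)).integrable _)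
    ((((p _ _).sub (p _ _)).mul (PG.const _)).integrable _),
    integral_add ((p _ _).integrable _) ((p _ _).integrable _), integral_mul_const,
    integral_sub ((p _ _).integrable _) ((p _ _).integrable _)]
  simp only [integral_complex_ofReal, integral_inner_mul_inner]
  by_cases he : e = e'
  · subst he
    simp [PiLp.inner_apply, Pi.single_apply, apply_ite, Complex.inner]
    norm_num
  · simp [PiLp.inner_apply, Pi.single_apply, apply_ite, Complex.inner, he, Ne.symm he]

omit [DecidableEq E] in
lemma pg_col {Y : Type*} [NormedAddCommGroup Y] [NormedSpace ℂ Y] (z : E → Y) : PG (col z) :=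
  PG.id.clm_comp (col z)

omit [DecidableEq E] in
lemma PG.coord (e : E) : PG (fun G : EuclideanSpace ℂ E => G e) :=
  PG.id.clm_comp (EuclideanSpace.proj (𝕜 := ℂ) e)

omit [PartialOrder A] [StarOrderedRing A] [DecidableEq E] in
lemma integral_col (z w : E → A) :
    ∫ G, star (col z G) * col w G ∂(stdGaussian (EuclideanSpace ℂ E)) =
      (2 : ℝ) • ∑ e, star (z e) * w e := by
  classical
  simp only [col_apply, star_sum, star_smul, Finset.sum_mul_sum, smul_mul_smul_comm]
  have p : ∀ e e' : E, PG fun G : EuclideanSpace ℂ E => (star (G e) * G e') • (star (z e) * w e') :=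
    fun e e' => ((PG.coord e).star.mul (PG.coord e')).smul (PG.const _)
  rw [integral_finsetSum _ fun e _ => (PG.sum _ fun e' _ => p e e').integrable _, Finset.smul_sum]
  refine Finset.sum_congr rfl fun e _ => ?_
  rw [integral_finsetSum _ fun e' _ => (p e e').integrable _]
  simp only [integral_smul_const, integral_conj_mul]
  simp [two_smul]

omit [PartialOrder A] [StarOrderedRing A] [DecidableEq E] in
lemma integral_col' (z : E → A) :
    ∫ G, col z G * star (col z G) ∂(stdGaussian (EuclideanSpace ℂ E)) =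
      (2 : ℝ) • ∑ e, z e * star (z e) := by
  classical
  simp only [col_apply, star_sum, star_smul, Finset.sum_mul_sum, smul_mul_smul_comm]
  have p : ∀ e e' : E, PG fun G : EuclideanSpace ℂ E => (G e * star (G e')) • (z e * star (z e')) :=
    fun e e' => ((PG.coord e).mul (PG.coord e').star).smul (PG.const _)
  rw [integral_finsetSum _ fun e _ => (PG.sum _ fun e' _ => p e e').integrable _, Finset.smul_sum]
  refine Finset.sum_congr rfl fun e _ => ?_
  rw [integral_finsetSum _ fun e' _ => (p e e').integrable _]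
  simp only [integral_smul_const, mul_comm _ (star (_ : ℂ)), integral_conj_mul]
  simp [two_smul]

/-- right action of a matrix -/
def act (U : Matrix E E ℂ) : EuclideanSpace ℂ E →L[ℂ] EuclideanSpace ℂ E :=
  Matrix.toEuclideanCLM (𝕜 := ℂ) U.transpose

lemma col_act {Y : Type*} [NormedAddCommGroup Y] [NormedSpace ℂ Y] (z : E → Y) (U : Matrix E E ℂ)
    (G : EuclideanSpace ℂ E) : col z (act U G) = col (fun e => ∑ e', U e e' • z e') G := by
  simp only [col_apply, act, Finset.smul_sum, smul_smul]
  rw [Finset.sum_comm]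
  refine Finset.sum_congr rfl fun e _ => ?_
  rw [← Finset.sum_smul]
  congr 1
  simp [Matrix.mulVec, dotProduct, mul_comm]

lemma measurePreserving_act {U : Matrix E E ℂ} (hU : U ∈ unitary (Matrix E E ℂ)) :
    MeasurePreserving (act U) (stdGaussian (EuclideanSpace ℂ E))
      (stdGaussian (EuclideanSpace ℂ E)) := by
  refine measurePreserving_isometry ((act U).restrictScalars ℝ) fun x => ?_
  have h1 : U.transpose ∈ unitary (Matrix E E ℂ) := Matrix.transpose_mem_unitaryGroup_iff.2 hU
  have h2 : act U ∈ unitary _ := Unitary.map_mem (Matrix.toEuclideanCLM (𝕜 := ℂ)) h1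
  exact ContinuousLinearMap.norm_map_of_mem_unitary h2 x

omit [PartialOrder A] [StarOrderedRing A] in
lemma integral_col_act (z : E → A) (U : Matrix E E ℂ) :
    ∫ G, star (col z G) * col z (act U G) ∂(stdGaussian (EuclideanSpace ℂ E)) =
      (2 : ℝ) • sand z U := by
  simp only [col_act, integral_col, sand_apply, Finset.mul_sum, mul_smul_comm]

end col

end

end Pool.Agent.P.MP_a35bd4_an
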