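import Mathlib

/-! Functions of polynomial growth and their Gaussian integrals. -/

open scoped BigOperators InnerProductSpace
open MeasureTheory ProbabilityTheory

namespace Pool.Agent.P.MP_a35bd4_an

noncomputable section

/-- strongly measurable of polynomial growth -/
def PG {X Y : Type*} [NormedAddCommGroup X] [MeasurableSpace X] [NormedAddCommGroup Y]
    (f : X → Y) : Prop :=
  StronglyMeasurable f ∧ ∃ (C : ℝ) (n : ℕ), 0 ≤ C ∧ ∀ x, ‖f x‖ ≤ C * (1 + ‖x‖) ^ n

section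

variable {X Y Z W : Type*} [NormedAddCommGroup X] [MeasurableSpace X] [NormedAddCommGroup Y]
  [NormedAddCommGroup Z] [NormedAddCommGroup W]

lemma PG.sm {f : X → Y} (h : PG f) : StronglyMeasurable f := h.1

lemma PG.bdd {f : X → Y} (hf : StronglyMeasurable f) {C : ℝ} (h : ∀ x, ‖f x‖ ≤ C) : PG f :=
  ⟨hf, C, 0, (norm_nonneg _).trans (h 0), fun x => by simpa using h x⟩

lemma PG.const (c : Y) : PG (fun _ : X => c) := PG.bdd stronglyMeasurable_const fun _ => le_rfl

lemma PG.of_le {f : X → Y} {g : X → Z} (hf : PG f) (hg : StronglyMeasurable g) (c : ℝ)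
    (h : ∀ x, ‖g x‖ ≤ c * ‖f x‖) : PG g := by
  obtain ⟨-, C, n, hC, hb⟩ := hf
  refine ⟨hg, |c| * C, n, by positivity, fun x => (h x).trans ?_⟩
  calc c * ‖f x‖ ≤ |c| * ‖f x‖ := by gcongr; exact le_abs_self c
    _ ≤ |c| * (C * (1 + ‖x‖) ^ n) := by gcongr; exact hb x
    _ = _ := by ring

lemma PG.of_le_mul {f : X → Y} {g : X → Z} {k : X → W} (hf : PG f) (hg : PG g)
    (hk : StronglyMeasurable k) (h : ∀ x, ‖k x‖ ≤ ‖f x‖ * ‖g x‖) : PG k := by
  obtain ⟨-, C, n, hC, hb⟩ := hf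
  obtain ⟨-, D, m, hD, hd⟩ := hg
  refine ⟨hk, C * D, n + m, by positivity, fun x => (h x).trans ?_⟩
  calc ‖f x‖ * ‖g x‖ ≤ (C * (1 + ‖x‖) ^ n) * (D * (1 + ‖x‖) ^ m) :=
        mul_le_mul (hb x) (hd x) (norm_nonneg _) (by positivity)
    _ = _ := by ring

lemma PG.of_le_add {f : X → Y} {g : X → Z} {k : X → W} (hf : PG f) (hg : PG g)
    (hk : StronglyMeasurable k) (h : ∀ x, ‖k x‖ ≤ ‖f x‖ + ‖g x‖) : PG k := by
  obtain ⟨-, C, n, hC, hb⟩ := hf
  obtain ⟨-, D, m, hD, hd⟩ := hg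
  refine ⟨hk, C + D, n + m, by positivity, fun x => (h x).trans ?_⟩
  have h1 : (1 : ℝ) ≤ 1 + ‖x‖ := by simp
  have h2 : (1 + ‖x‖) ^ n ≤ (1 + ‖x‖) ^ (n + m) := pow_le_pow_right₀ h1 (by omega)
  have h3 : (1 + ‖x‖) ^ m ≤ (1 + ‖x‖) ^ (n + m) := pow_le_pow_right₀ h1 (by omega)
  have := mul_le_mul_of_nonneg_left h2 hC
  have := mul_le_mul_of_nonneg_left h3 hD
  have := hb x
  have := hd x
  linarith

lemma PG.add {f g : X → Y} (hf : PG f) (hg : PG g) : PG (fun x => f x + g x) :=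
  hf.of_le_add hg (hf.1.add hg.1) fun _ => norm_add_le _ _

lemma PG.sub {f g : X → Y} (hf : PG f) (hg : PG g) : PG (fun x => f x - g x) :=
  hf.of_le_add hg (hf.1.sub hg.1) fun _ => norm_sub_le _ _

lemma PG.neg {f : X → Y} (hf : PG f) : PG (fun x => -f x) :=
  hf.of_le hf.1.neg 1 fun _ => by simp

lemma PG.sum {I : Type*} (s : Finset I) {f : I → X → Y} (hf : ∀ i ∈ s, PG (f i)) :
    PG (fun x => ∑ i ∈ s, f i x) := by
  classical
  induction s using Finset.induction_on with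
  | empty => simpa using PG.const 0
  | insert j s hj ih =>
    simp only [Finset.sum_insert hj]
    exact (hf j (by simp)).add (ih fun i hi => hf i (by simp [hi]))

lemma PG.norm {f : X → Y} (hf : PG f) : PG (fun x => ‖f x‖) :=
  hf.of_le hf.1.norm 1 fun _ => by simp

lemma PG.smul {𝕜 : Type*} [NormedField 𝕜] [NormedSpace 𝕜 Y] {c : X → 𝕜} {f : X → Y} (hc : PG c)
    (hf : PG f) : PG (fun x => c x • f x) :=
  hc.of_le_mul hf (hc.1.smul hf.1) fun _ => (norm_smul _ _).le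

lemma PG.const_smul {𝕜 : Type*} [NormedField 𝕜] [NormedSpace 𝕜 Y] (c : 𝕜) {f : X → Y}
    (hf : PG f) : PG (fun x => c • f x) := (PG.const c).smul hf

lemma PG.mul {R : Type*} [NonUnitalNormedRing R] {f g : X → R} (hf : PG f) (hg : PG g) :
    PG (fun x => f x * g x) :=
  hf.of_le_mul hg (hf.1.mul hg.1) fun _ => norm_mul_le _ _

lemma PG.star [StarAddMonoid Y] [NormedStarGroup Y] {f : X → Y} (hf : PG f) :
    PG (fun x => star (f x)) :=
  hf.of_le (continuous_star.comp_stronglyMeasurable hf.1) 1 fun _ => by simp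

lemma PG.sq {f : X → ℝ} (hf : PG f) : PG (fun x => f x ^ 2) := by
  simpa only [pow_two] using hf.mul hf

lemma PG.inner {𝕜 : Type*} [RCLike 𝕜] [InnerProductSpace 𝕜 Y] {f g : X → Y} (hf : PG f)
    (hg : PG g) : PG (fun x => ⟪f x, g x⟫_𝕜) :=
  hf.of_le_mul hg (hf.1.inner hg.1) fun _ => norm_inner_le_norm _ _

lemma PG.clm_comp {𝕜 : Type*} [NontriviallyNormedField 𝕜] [NormedSpace 𝕜 Y] [NormedSpace 𝕜 Z]
    (L : Y →L[𝕜] Z) {f : X → Y} (hf : PG f) : PG (fun x => L (f x)) :=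
  hf.of_le (L.continuous.comp_stronglyMeasurable hf.1) ‖L‖ fun _ => L.le_opNorm _

lemma PG.apply {𝕜 : Type*} [NontriviallyNormedField 𝕜] [NormedSpace 𝕜 Y] [NormedSpace 𝕜 Z]
    {f : X → Y →L[𝕜] Z} (hf : PG f) (y : Y) : PG (fun x => f x y) :=
  hf.clm_comp (ContinuousLinearMap.apply 𝕜 Z y)

lemma PG.re {f : X → ℂ} (hf : PG f) : PG (fun x => (f x).re) := hf.clm_comp Complex.reCLM

lemma PG.ofReal {f : X → ℝ} (hf : PG f) : PG (fun x => (f x : ℂ)) :=
  hf.clm_comp Complex.ofRealCLM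

lemma PG.id [OpensMeasurableSpace X] [SecondCountableTopology X] : PG (fun x : X => x) :=
  ⟨stronglyMeasurable_id, 1, 1, zero_le_one, fun x => by simp⟩

lemma PG.clm [OpensMeasurableSpace X] [SecondCountableTopology X] [NormedSpace ℝ X]
    [NormedSpace ℝ Y] (L : X →L[ℝ] Y) : PG (fun x => L x) := PG.id.clm_comp L

lemma PG.comp {X' : Type*} [NormedAddCommGroup X'] [MeasurableSpace X'] {f : X → Y} (hf : PG f)
    {g : X' → X} (hg : Measurable g) {c : ℝ} (hc : ∀ x, ‖g x‖ ≤ c * (1 + ‖x‖)) :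
    PG (fun x => f (g x)) := by
  obtain ⟨hm, C, n, hC, hb⟩ := hf
  have hc0 : 0 ≤ c := by simpa using (norm_nonneg _).trans (hc 0)
  refine ⟨hm.comp_measurable hg, C * (1 + c) ^ n, n, by positivity, fun x => (hb _).trans ?_⟩
  rw [mul_assoc, ← mul_pow]
  gcongr
  have := hc x
  have := norm_nonneg x
  nlinarith

lemma PG.comp_clm {X' : Type*} [NormedAddCommGroup X'] [MeasurableSpace X']
    [OpensMeasurableSpace X'] [BorelSpace X] [NormedSpace ℝ X] [NormedSpace ℝ X'] {f : X → Y}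
    (hf : PG f) (L : X' →L[ℝ] X) : PG (fun x => f (L x)) :=
  hf.comp L.continuous.measurable (c := ‖L‖) fun x => (L.le_opNorm x).trans (by
    gcongr
    simp)

lemma PG.fst {X' : Type*} [NormedAddCommGroup X'] [MeasurableSpace X'] {f : X → Y} (hf : PG f) :
    PG (fun p : X × X' => f p.1) :=
  hf.comp measurable_fst (c := 1) fun p => by
    have := norm_fst_le p
    linarith

lemma PG.snd {X' : Type*} [NormedAddCommGroup X'] [MeasurableSpace X'] {f : X → Y} (hf : PG f) :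
    PG (fun p : X' × X => f p.2) :=
  hf.comp measurable_snd (c := 1) fun p => by
    have := norm_snd_le p
    linarith

lemma PG.sec {X' : Type*} [NormedAddCommGroup X'] [MeasurableSpace X'] {f : X' × X → Y}
    (hf : PG f) (a : X') : PG (fun x => f (a, x)) :=
  hf.comp measurable_prodMk_left (c := 1 + ‖a‖) fun x => by
    rw [Prod.norm_def]
    have := norm_nonneg a
    have := norm_nonneg x
    refine max_le ?_ ?_ <;> nlinarith

variable [NormedSpace ℝ X] [BorelSpace X] [SecondCountableTopology X] [CompleteSpace X]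

lemma integrable_one_add_pow (μ : Measure X) [IsGaussian μ] (n : ℕ) :
    Integrable (fun x : X => (1 + ‖x‖) ^ n) μ := by
  have h0 : MemLp (fun x : X => ‖x‖) n μ := (IsGaussian.memLp_id μ n (by simp)).norm
  have h : MemLp (fun x : X => 1 + ‖x‖) n μ := (memLp_const (1 : ℝ)).add h0
  have := h.integrable_norm_pow'
  refine this.congr (Filter.Eventually.of_forall fun x => ?_)
  simp only
  rw [Real.norm_of_nonneg (by positivity)]

lemma PG.integrable {f : X → Y} (hf : PG f) (μ : Measure X) [IsGaussian μ] : Integrable f μ := by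
  obtain ⟨hm, C, n, hC, hb⟩ := hf
  exact ((integrable_one_add_pow μ n).const_mul C).mono' hm.aestronglyMeasurable
    (Filter.Eventually.of_forall hb)

lemma PG.integral {X' : Type*} [NormedAddCommGroup X'] [MeasurableSpace X'] [NormedSpace ℝ Y]
    {f : X' × X → Y} (hf : PG f) (μ : Measure X) [IsGaussian μ] :
    PG (fun a => ∫ x, f (a, x) ∂μ) := by
  obtain ⟨hm, C, n, hC, hb⟩ := hf
  refine ⟨hm.integral_prod_right', C * ∫ x, (1 + ‖x‖) ^ n ∂μ, n,
    mul_nonneg hC (integral_nonneg fun x => by positivity), fun a => ?_⟩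
  rw [mul_right_comm, ← integral_const_mul]
  refine norm_integral_le_of_norm_le ((integrable_one_add_pow μ n).const_mul _)
    (Filter.Eventually.of_forall fun x => (hb _).trans ?_)
  rw [mul_assoc, ← mul_pow]
  gcongr
  rw [Prod.norm_def]
  have := norm_nonneg a
  have := norm_nonneg x
  have : max ‖a‖ ‖x‖ ≤ ‖a‖ + ‖x‖ := max_le (by linarith) (by linarith)
  nlinarith

end

/-- Cauchy Schwarz for integrals of inner products -/
lemma integral_inner_sq_le {X H : Type*} [MeasurableSpace X] [NormedAddCommGroup H]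
    [InnerProductSpace ℝ H] {μ : Measure X} {f g : X → H}
    (hf : Integrable (fun x => ‖f x‖ ^ 2) μ) (hg : Integrable (fun x => ‖g x‖ ^ 2) μ)
    (hfg : Integrable (fun x => ⟪f x, g x⟫_ℝ) μ) :
    (∫ x, ⟪f x, g x⟫_ℝ ∂μ) ^ 2 ≤ (∫ x, ‖f x‖ ^ 2 ∂μ) * ∫ x, ‖g x‖ ^ 2 ∂μ := by
  have := discrim_le_zero (a := ∫ x, ‖f x‖ ^ 2 ∂μ) (b := 2 * ∫ x, ⟪f x, g x⟫_ℝ ∂μ)
    (c := ∫ x, ‖g x‖ ^ 2 ∂μ) (fun t => by
      have h0 : 0 ≤ ∫ x, ‖t • f x + g x‖ ^ 2 ∂μ := integral_nonneg fun x => by positivity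
      have e : ∀ x, ‖t • f x + g x‖ ^ 2 =
          (t * t) * ‖f x‖ ^ 2 + (2 * t) * ⟪f x, g x⟫_ℝ + ‖g x‖ ^ 2 := fun x => by
        rw [norm_add_sq_real, norm_smul, real_inner_smul_left, mul_pow, Real.norm_eq_abs, sq_abs]
        ring
      simp only [e] at h0
      rw [integral_add (by exact (hf.const_mul _).add (hfg.const_mul _)) hg,
        integral_add (hf.const_mul _) (hfg.const_mul _), integral_const_mul,
        integral_const_mul] at h0
      linarith)
  rw [discrim] at this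
  linarith

/-- Jensen for the squared norm -/
lemma norm_integral_sq_le {X H : Type*} [MeasurableSpace X] [NormedAddCommGroup H]
    [NormedSpace ℝ H] {μ : Measure X} [IsProbabilityMeasure μ] {f : X → H}
    (h1 : Integrable f μ) (hf : Integrable (fun x => ‖f x‖ ^ 2) μ) :
    ‖∫ x, f x ∂μ‖ ^ 2 ≤ ∫ x, ‖f x‖ ^ 2 ∂μ := by
  have h := integral_inner_sq_le (μ := μ) (f := fun x => ‖f x‖) (g := fun _ => (1 : ℝ))
    (by simpa using hf) (integrable_const _) (by simpa using h1.norm)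
  simp only [norm_norm, norm_one, one_pow, integral_const, probReal_univ, smul_eq_mul, mul_one,
    RCLike.inner_apply, conj_trivial, one_mul] at h
  exact (pow_le_pow_left₀ (norm_nonneg _) (norm_integral_le_integral_norm _) 2).trans h

end

end Pool.Agent.P.MP_a35bd4_an
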