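import Pool.Agent.P.MP_a35bd4_an.WOT

/-! Stinespring dilation with lifting of commuting unitaries. -/

open scoped BigOperators InnerProductSpace
open ContinuousLinearMap

namespace Pool.Agent.P.MP_a35bd4_an

noncomputable section

universe u v

section dense

variable {K : Type*} [NormedAddCommGroup K] [InnerProductSpace ℂ K] [CompleteSpace K] {ι : Type*}
  {k : ι → K}

lemma exists_ext (hk : Dense (Submodule.span ℂ (Set.range k) : Set K)) (k' : ι → K) (C : ℝ)
    (h : ∀ f : ι →₀ ℂ,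
      ‖Finsupp.linearCombination ℂ k' f‖ ≤ C * ‖Finsupp.linearCombination ℂ k f‖) :
    ∃ T : K →L[ℂ] K, ∀ i, T (k i) = k' i := by
  have hd : DenseRange (Finsupp.linearCombination ℂ k) := by
    rwa [← Finsupp.range_linearCombination] at hk
  refine ⟨(Finsupp.linearCombination ℂ k').extendOfNorm (Finsupp.linearCombination ℂ k),
    fun i => ?_⟩
  simpa using LinearMap.extendOfNorm_eq hd ⟨C, h⟩ (Finsupp.single i 1)

omit [CompleteSpace K] in
lemma op_ext (hk : Dense (Submodule.span ℂ (Set.range k) : Set K)) {T T' : K →L[ℂ] K}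
    (h : ∀ i, T (k i) = T' (k i)) : T = T' :=
  ContinuousLinearMap.ext_on hk (by rintro _ ⟨i, rfl⟩; exact h i)

omit [CompleteSpace K] in
lemma vec_ext (hk : Dense (Submodule.span ℂ (Set.range k) : Set K)) {x y : K}
    (h : ∀ i, ⟪k i, x⟫_ℂ = ⟪k i, y⟫_ℂ) : x = y := by
  have : innerSL ℂ x = innerSL ℂ y := ContinuousLinearMap.ext_on hk (by
    rintro _ ⟨i, rfl⟩
    simp only [innerSL_apply_apply]
    rw [← inner_conj_symm, h, inner_conj_symm])
  exact ext_inner_right ℂ fun z => congrArg (fun T : K →L[ℂ] ℂ => T z) this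

end dense

variable {A : Type u} [CStarAlgebra A] [PartialOrder A] [StarOrderedRing A] {H : Type v}
  [NormedAddCommGroup H] [InnerProductSpace ℂ H] [CompleteSpace H]

omit [PartialOrder A] [StarOrderedRing A] in
lemma kolmogorov (L : A →ₗ[ℂ] H →L[ℂ] H) (hs : ∀ a, L (star a) = star (L a)) (hp : PosKer L) :
    ∃ (K : Type (max u v)) (_ : NormedAddCommGroup K) (_ : InnerProductSpace ℂ K)
      (_ : CompleteSpace K) (k : A → H →L[ℂ] K),
      Dense (Submodule.span ℂ (Set.range fun p : A × H => k p.1 p.2) : Set K) ∧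
      ∀ a b ξ η, ⟪k a ξ, k b η⟫_ℂ = ⟪ξ, L (star a * b) η⟫_ℂ := by
  let M : Matrix A A (H →L[ℂ] H) := Matrix.of fun a b => L (star a * b)
  have e : ∀ a b ξ η, ⟪M b a ξ, η⟫_ℂ = ⟪ξ, L (star a * b) η⟫_ℂ := fun a b ξ η => by
    change ⟪L (star b * a) ξ, η⟫_ℂ = _
    rw [← adjoint_inner_right, ← star_eq_adjoint, ← hs, star_mul, star_star]
  have hM : M.IsHermitian ∧ ∀ (vv : A →₀ H),
      0 ≤ RCLike.re (vv.sum fun x w => vv.sum fun x' w' => ⟪M x' x w, w'⟫_ℂ) := by
    refine ⟨?_, fun vv => ?_⟩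
    · ext a b : 1
      simp [M, ← hs]
    · have := hp vv.support.card (fun i => vv.support.equivFin.symm i)
        (fun i => vv (vv.support.equivFin.symm i))
      simp only [e, Finsupp.sum]
      rw [← Finset.sum_coe_sort, ← vv.support.equivFin.symm.sum_comp]
      refine this.trans_eq (congrArg Complex.re (Finset.sum_congr rfl fun i _ => ?_))
      rw [← Finset.sum_coe_sort vv.support, ← vv.support.equivFin.symm.sum_comp]
  haveI : Fact M.PosSemidef := ⟨(RKHS.posSemidef_tfae.out 2 0).1 hM⟩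
  refine ⟨RKHS.OfKernel M, inferInstance, inferInstance, inferInstance,
    RKHS.kerFun (RKHS.OfKernel M), ?_, fun a b ξ η => ?_⟩
  · have := RKHS.kerFun_dense (RKHS.OfKernel M)
    rw [← Submodule.dense_iff_topologicalClosure_eq_top] at this
    have e2 : (Set.range fun p : A × H => RKHS.kerFun (RKHS.OfKernel M) p.1 p.2) =
        {x | ∃ a v, RKHS.kerFun (RKHS.OfKernel M) a v = x} := by
      ext x
      simp
    rwa [e2]
  · rw [← RKHS.kernel_inner, RKHS.OfKernel.kernel_ofKernel, e]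

theorem stinespring (L : A →ₗ[ℂ] H →L[ℂ] H) (hs : ∀ a, L (star a) = star (L a)) (hp : PosKer L) :
    ∃ (K : Type (max u v)) (_ : NormedAddCommGroup K) (_ : InnerProductSpace ℂ K)
      (_ : CompleteSpace K) (π : A →⋆ₐ[ℂ] (K →L[ℂ] K)) (V : H →L[ℂ] K),
      (∀ a, adjoint V ∘L π a ∘L V = L a) ∧
      ∀ w : H →L[ℂ] H, star w * w = 1 → (∀ a, Commute w (L a)) →
        ∃ σ : K →L[ℂ] K, σ ∘L V = V ∘L w ∧ star σ ∘L V = V ∘L star w ∧ ∀ a, Commute σ (π a) := by
  obtain ⟨K, _, _, _, k, hk, hi⟩ := kolmogorov L hs hp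
  have hex : ∀ c : A, ∃ T : K →L[ℂ] K, ∀ p : A × H, T (k p.1 p.2) = k (c * p.1) p.2 := fun c => by
    refine exists_ext hk _ ‖c‖ fun f => ?_
    let g : A → K := fun c => Finsupp.linearCombination ℂ (fun p : A × H => k (c * p.1) p.2) f
    let B : A → ℂ := fun x => f.sum fun p s => f.sum fun q t =>
      starRingEnd ℂ s * (t * ⟪p.2, L (star p.1 * x * q.1) q.2⟫_ℂ)
    have hB : ∀ c, ‖g c‖ ^ 2 = (B (star c * c)).re := fun c => by
      rw [← inner_self_eq_norm_sq (𝕜 := ℂ)]
      simp only [g, B, Finsupp.linearCombination_apply, Finsupp.sum, sum_inner, inner_sum,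
        inner_smul_left, inner_smul_right, hi, star_mul, mul_assoc, Finset.mul_sum]
      rw [Finset.sum_comm]
      simp only [mul_left_comm (starRingEnd ℂ _)]
      rfl
    obtain ⟨d, hd⟩ := CStarAlgebra.nonneg_iff_eq_star_mul_self.1 (sub_nonneg.2 (star_mul_self_le c))
    have h1 : B (star d * d) = (‖c‖ ^ 2 : ℝ) * B (star 1 * 1) - B (star c * c) := by
      rw [← hd, ← Complex.coe_smul]
      simp only [B, Finsupp.sum, Finset.mul_sum, ← Finset.sum_sub_distrib, mul_sub, sub_mul,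
        map_sub, smul_mul_assoc, mul_smul_comm, map_smul, ContinuousLinearMap.sub_apply,
        ContinuousLinearMap.smul_apply, inner_sub_right, inner_smul_right, star_one, mul_one]
      refine Finset.sum_congr rfl fun _ _ => Finset.sum_congr rfl fun _ _ => ?_
      ring
    have h2 := congrArg Complex.re h1
    rw [Complex.sub_re, Complex.re_ofReal_mul, ← hB, ← hB, ← hB] at h2
    have h3 : g 1 = Finsupp.linearCombination ℂ (fun p : A × H => k p.1 p.2) f := by
      simp only [g, one_mul]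
    rw [← h3]
    refine abs_le_of_sq_le_sq' ?_ (by positivity) |>.2
    change ‖g c‖ ^ 2 ≤ _
    nlinarith [sq_nonneg ‖g d‖]
  choose π hπ using hex
  have hπ' : ∀ c a ξ, π c (k a ξ) = k (c * a) ξ := fun c a ξ => hπ c (a, ξ)
  let π₀ : A →ₗ[ℂ] (K →L[ℂ] K) :=
    { toFun := π
      map_add' := fun a b => op_ext hk fun p => vec_ext hk fun q => by
        simp [hπ', hi, inner_add_right, add_mul, mul_add]
      map_smul' := fun c a => op_ext hk fun p => vec_ext hk fun q => by
        simp [hπ', hi, inner_smul_right] }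
  let π₁ : A →ₐ[ℂ] (K →L[ℂ] K) := AlgHom.ofLinearMap π₀
    (op_ext hk fun p => by simp [π₀, hπ'])
    (fun a b => op_ext hk fun p => by simp [π₀, hπ', mul_assoc])
  let π₂ : A →⋆ₐ[ℂ] (K →L[ℂ] K) :=
    { π₁ with
      map_star' := fun a => op_ext hk fun p => vec_ext hk fun q => by
        change ⟪_, π (star a) _⟫_ℂ = ⟪_, star (π a) _⟫_ℂ
        rw [star_eq_adjoint, adjoint_inner_right, hπ', hπ', hi, hi, star_mul, mul_assoc] }
  have hπ2 : ∀ a, π₂ a = π a := fun _ => rfl
  refine ⟨K, inferInstance, inferInstance, inferInstance, π₂, k 1, fun a => ?_, fun w hw hc => ?_⟩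
  · ext ξ
    refine ext_inner_left ℂ fun η => ?_
    simp [hπ2, hπ', adjoint_inner_right, hi]
  have hw' : ∀ x ξ η, ⟪w ξ, L x (w η)⟫_ℂ = ⟪ξ, L x η⟫_ℂ := fun x ξ η => by
    rw [← ContinuousLinearMap.mul_apply, ← re_inner_star_mul w (L x * w), ← (hc x).eq,
      ← mul_assoc, hw, one_mul]
  obtain ⟨σ, hσ⟩ := exists_ext hk (fun p => k p.1 (w p.2)) 1 fun f => by
    rw [one_mul]
    refine le_of_eq ?_
    simp only [norm_eq_sqrt_re_inner (𝕜 := ℂ), Finsupp.linearCombination_apply, Finsupp.sum,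
      sum_inner, inner_sum, inner_smul_left, inner_smul_right, hi, hw']
  have hσ' : ∀ a ξ, σ (k a ξ) = k a (w ξ) := fun a ξ => hσ (a, ξ)
  refine ⟨σ, ?_, ?_, fun a => op_ext hk fun p => by simp [hπ2, hπ', hσ']⟩
  · ext ξ
    simp [hσ']
  · ext ξ
    refine vec_ext hk fun q => ?_
    have : Commute (star w) (L (star q.1 * 1)) := by
      have := (hc (star (star q.1 * 1))).star_star
      rwa [← hs, star_star] at this
    rw [comp_apply, comp_apply, star_eq_adjoint σ, adjoint_inner_right, hσ', hi, hi,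
      ← re_inner_star_mul, this.eq, ContinuousLinearMap.mul_apply]

end

end Pool.Agent.P.MP_a35bd4_an
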