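import Pool.Agent.P.MP_a35bd4_an.Correct

/-! Stability for unital quasi homomorphisms. -/

open scoped BigOperators InnerProductSpace
open ContinuousLinearMap

namespace Pool.Agent.P.MP_a35bd4_an

noncomputable section

universe u v

section cmp

variable {H K : Type*} [NormedAddCommGroup H] [InnerProductSpace ℂ H] [CompleteSpace H]
  [NormedAddCommGroup K] [InnerProductSpace ℂ K] [CompleteSpace K] (V : H →L[ℂ] K)

/-- compression -/
def cmpr : (K →L[ℂ] K) →ₗ[ℂ] (H →L[ℂ] H) where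
  toFun x := adjoint V ∘L x ∘L V
  map_add' x y := by simp [add_comp, comp_add]
  map_smul' c x := by simp [smul_comp, comp_smul]

/-- embedding -/
def emb : (H →L[ℂ] H) →ₗ[ℂ] (K →L[ℂ] K) where
  toFun s := V ∘L s ∘L adjoint V
  map_add' x y := by simp [add_comp, comp_add]
  map_smul' c x := by simp [smul_comp, comp_smul]

lemma cmpr_mul (x y : K →L[ℂ] K) (s : H →L[ℂ] H) :
    cmpr V (x * emb V s * y) = cmpr V x * s * cmpr V y := rfl

lemma emb_mul (x : K →L[ℂ] K) (s t : H →L[ℂ] H) :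
    emb V s * x * emb V t = emb V (s * cmpr V x * t) := rfl

lemma cmpr_star (x : K →L[ℂ] K) : cmpr V (star x) = star (cmpr V x) := by
  simp [cmpr, star_eq_adjoint, adjoint_comp, comp_assoc]

lemma emb_star (x : H →L[ℂ] H) : emb V (star x) = star (emb V x) := by
  simp [emb, star_eq_adjoint, adjoint_comp, comp_assoc]

lemma norm_cmpr_one : ‖cmpr V 1‖ = ‖V‖ * ‖V‖ := norm_adjoint_comp_self V

lemma norm_cmpr_le (x : K →L[ℂ] K) : ‖cmpr V x‖ ≤ ‖cmpr V 1‖ * ‖x‖ := by
  rw [norm_cmpr_one]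
  refine (opNorm_comp_le _ _).trans ?_
  rw [LinearIsometryEquiv.norm_map, mul_assoc, mul_comm ‖V‖ ‖x‖]
  gcongr
  exact opNorm_comp_le _ _

lemma norm_emb_le (x : H →L[ℂ] H) : ‖emb V x‖ ≤ ‖cmpr V 1‖ * ‖x‖ := by
  rw [norm_cmpr_one]
  refine (opNorm_comp_le _ _).trans ?_
  rw [mul_assoc, mul_comm ‖V‖ ‖x‖]
  gcongr
  refine (opNorm_comp_le _ _).trans (le_of_eq ?_)
  rw [LinearIsometryEquiv.norm_map]

variable {V} {w : H →L[ℂ] H} {σ : K →L[ℂ] K}

lemma adj_comp (h : star σ ∘L V = V ∘L star w) : adjoint V ∘L σ = w ∘L adjoint V := by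
  have := congrArg adjoint h
  simpa [star_eq_adjoint, adjoint_comp] using this

lemma commute_emb_one (h1 : σ ∘L V = V ∘L w) (h2 : star σ ∘L V = V ∘L star w) :
    Commute σ (emb V 1) := by
  change (σ ∘L V) ∘L adjoint V = V ∘L (adjoint V ∘L σ)
  rw [h1, adj_comp h2]
  rfl

lemma commute_cmpr (h1 : σ ∘L V = V ∘L w) (h2 : star σ ∘L V = V ∘L star w) {x : K →L[ℂ] K}
    (h : Commute σ x) : Commute w (cmpr V x) := by
  change (w ∘L adjoint V) ∘L x ∘L V = adjoint V ∘L x ∘L (V ∘L w)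
  rw [← h1, ← adj_comp h2]
  change adjoint V ∘L (σ * x) ∘L V = adjoint V ∘L (x * σ) ∘L V
  rw [h.eq]

end cmp

lemma norm_one_le' {B : Type*} [CStarAlgebra B] : ‖(1 : B)‖ ≤ 1 := by
  nontriviality B
  simp

lemma norm_le_of_sub {B : Type*} [NormedAddCommGroup B] {a b : B} {x y : ℝ} (h : ‖a - b‖ ≤ x)
    (h' : ‖b‖ ≤ y) : ‖a‖ ≤ x + y := (norm_le_norm_sub_add a b).trans (add_le_add h h')

lemma norm_mul_le' {B : Type*} [NonUnitalNormedRing B] {a b : B} {x y : ℝ} (h : ‖a‖ ≤ x)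
    (h' : ‖b‖ ≤ y) : ‖a * b‖ ≤ x * y :=
  (norm_mul_le a b).trans (mul_le_mul h h' (norm_nonneg _) ((norm_nonneg _).trans h))

variable {A : Type u} [CStarAlgebra A] [PartialOrder A] [StarOrderedRing A] {H : Type v}
  [NormedAddCommGroup H] [InnerProductSpace ℂ H] [CompleteSpace H]

omit [PartialOrder A] [StarOrderedRing A] in
lemma commutator_le {K : Type*} [NormedAddCommGroup K] [InnerProductSpace ℂ K] [CompleteSpace K]
    {Φ : A → H →L[ℂ] H} {ε β : ℝ} (h : QH Φ ε) (hε : ε ≤ β) (hβ : β ≤ 1)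
    (π : A →⋆ₐ[ℂ] (K →L[ℂ] K)) (V : H →L[ℂ] K) (hL : ∀ a, ‖cmpr V (π a) - Φ a‖ ≤ β * ‖a‖)
    (a : A) : ‖π a * emb V 1 - emb V (cmpr V (π a))‖ ^ 2 ≤ 64 * β * ‖a‖ ^ 2 := by
  have hε0 := h.eps_nonneg
  have hβ0 : 0 ≤ β := hε0.trans hε
  have c1 : ‖cmpr V 1 - 1‖ ≤ β := by
    have := hL 1
    rw [map_one, h.one] at this
    exact this.trans (mul_le_of_le_one_right hβ0 norm_one_le')
  have c2 : ‖cmpr V 1‖ ≤ 2 := (norm_le_of_sub c1 norm_one_le').trans (by linarith)
  set l := cmpr V (π a) with hl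
  have c3 : ‖l‖ ≤ 4 * ‖a‖ := (norm_le_of_sub (hL a) (h.norm_le a)).trans (by
    nlinarith [norm_nonneg a])
  have e : star (π a * emb V 1 - emb V l) * (π a * emb V 1 - emb V l) =
      emb V ((cmpr V (π (star a * a)) - Φ (star a * a)) + (Φ (star a * a) - star (Φ a) * Φ a) -
        star (Φ a) * (l - Φ a) - star (l - Φ a) * l + star l * (cmpr V 1 - 1) * l) := by
    have e1 : star (π a * emb V 1 - emb V l) * (π a * emb V 1 - emb V l) =
        emb V 1 * π (star a * a) * emb V 1 - emb V 1 * star (π a) * emb V l -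
          emb V (star l) * π a * emb V 1 + emb V (star l) * 1 * emb V l := by
      rw [star_sub, star_mul, ← emb_star, ← emb_star, star_one, map_mul π, map_star π]
      noncomm_ring
    rw [e1, emb_mul, emb_mul, emb_mul, emb_mul, cmpr_star, ← hl, ← map_sub, ← map_sub, ← map_add]
    congr 1
    rw [star_sub]
    noncomm_ring
  rw [sq, ← CStarRing.norm_star_mul_self, e]
  refine (norm_emb_le V _).trans ?_
  have d1 := hL (star a * a)
  rw [CStarRing.norm_star_mul_self] at d1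
  have d2 := h.star_mul a a
  have d3 := norm_mul_le' ((norm_star (Φ a)).le.trans (h.norm_le a)) (hL a)
  have d4 := norm_mul_le' ((norm_star _).le.trans (hL a)) c3
  have d5 := norm_mul_le' (norm_mul_le' ((norm_star _).le.trans c3) c1) c3
  have d6 := mul_le_mul_of_nonneg_right hε (mul_self_nonneg ‖a‖)
  refine (mul_le_mul c2 ((norm_add_le _ _).trans (add_le_add ((norm_sub_le _ _).trans
    (add_le_add ((norm_sub_le _ _).trans (add_le_add ((norm_add_le _ _).trans
      (add_le_add d1 d2)) d3)) d4)) d5)) (norm_nonneg _) zero_le_two).trans ?_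
  nlinarith [mul_nonneg hβ0 (mul_self_nonneg ‖a‖)]

theorem unital_stab (η : ℝ) (hη : 0 < η) : ∃ ε₀ : ℝ, 0 < ε₀ ∧
    ∀ {A : Type u} [CStarAlgebra A] [PartialOrder A] [StarOrderedRing A] {H : Type v}
      [NormedAddCommGroup H] [InnerProductSpace ℂ H] [CompleteSpace H] {Φ : A → H →L[ℂ] H}
      {ε : ℝ}, QH Φ ε → ε ≤ ε₀ → HasEC A → ∃ ψ : A →⋆ₙₐ[ℂ] (H →L[ℂ] H),
        (∀ a, ‖ψ a - Φ a‖ ≤ η * ‖a‖) ∧
        ∀ w, star w * w = 1 → (∀ a, Commute w (Φ a)) → (∀ a, Commute (star w) (Φ a)) →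
          ∀ a, Commute w (ψ a) := by
  set s := min (1 / 100000) (η / 100000) with hs
  have hs0 : 0 < s := by positivity
  have hs1 : s ≤ 1 / 100000 := min_le_left _ _
  have hs2 : s ≤ η / 100000 := min_le_right _ _
  set β := s ^ 4 with hβ
  have hβ0 : 0 < β := by positivity
  have hβs : β ≤ s := by
    have : s ^ 3 ≤ 1 := pow_le_one₀ hs0.le (by linarith)
    calc β = s ^ 3 * s := by ring
      _ ≤ s := mul_le_of_le_one_left hs0.le this
  obtain ⟨ε₁, hε₁, hcp⟩ := exists_cp.{u, v} β hβ0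
  refine ⟨min ε₁ β, by positivity, ?_⟩
  intro A _ _ _ H _ _ _ Φ ε h hε hA
  obtain ⟨L, hL1, hL2, hL3, hL4⟩ := hcp h (hε.trans (min_le_left _ _)) hA
  obtain ⟨K, _, _, _, π, V, hV, hσ⟩ := stinespring L hL3 hL4
  have hV' : ∀ a, cmpr V (π a) = L a := hV
  have hL : ∀ a, ‖cmpr V (π a) - Φ a‖ ≤ β * ‖a‖ := by simpa only [hV'] using hL1
  have c1 : ‖cmpr V 1 - 1‖ ≤ β := by
    have := hL 1
    rw [map_one, h.one] at this
    exact this.trans (mul_le_of_le_one_right hβ0.le norm_one_le')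
  have c2 : ‖cmpr V 1‖ ≤ 2 := (norm_le_of_sub c1 norm_one_le').trans (by linarith)
  have nc : ∀ {x : K →L[ℂ] K} {r : ℝ}, ‖x‖ ≤ r → ‖cmpr V x‖ ≤ 2 * r := fun hx =>
    (norm_cmpr_le V _).trans (mul_le_mul c2 hx (norm_nonneg _) zero_le_two)
  have ne : ∀ {x : H →L[ℂ] H} {r : ℝ}, ‖x‖ ≤ r → ‖emb V x‖ ≤ 2 * r := fun hx =>
    (norm_emb_le V _).trans (mul_le_mul c2 hx (norm_nonneg _) zero_le_two)
  set T := emb V 1 with hT
  have hT0 : star T = T := by rw [hT, ← emb_star, star_one]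
  have hT1 : ‖T‖ ≤ 2 := (ne norm_one_le').trans (by norm_num)
  have g1 : ∀ a, ‖π a * T - emb V (cmpr V (π a))‖ ≤ 8 * s ^ 2 * ‖a‖ := fun a => by
    refine abs_le_of_sq_le_sq' ?_ (by positivity) |>.2
    refine (commutator_le h (hε.trans (min_le_right _ _)) (by linarith) π V hL a).trans
      (le_of_eq ?_)
    rw [hβ]
    ring
  have g2 : ∀ a, ‖T * π a - π a * T‖ ≤ 16 * s ^ 2 * ‖a‖ := fun a => by
    have := g1 (star a)
    rw [← norm_star, star_sub, star_mul, hT0, ← emb_star, ← cmpr_star, map_star, star_star,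
      norm_star] at this
    have h2 := norm_sub_le_norm_sub_add_norm_sub (T * π a) (emb V (cmpr V (π a))) (π a * T)
    rw [norm_sub_rev (emb V _)] at h2
    linarith [g1 a]
  obtain ⟨Q₀, q1, q2, q3, q4⟩ := exists_commuting hA π hT0 hT1 hs0 g2
  have t1 : ‖T * T - T‖ ≤ 2 * β := by
    have : T * T - T = emb V (cmpr V 1 - 1) := by
      rw [map_sub, ← hT]
      congr 1
    rw [this]
    exact ne c1
  have q5 : ‖Q₀‖ ≤ 3 := (norm_le_of_sub q2 hT1).trans (by linarith)
  have t2 : ‖Q₀ * Q₀ - Q₀‖ ≤ 300 * s := by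
    have e : Q₀ * Q₀ - Q₀ = (Q₀ - T) * Q₀ + T * (Q₀ - T) + (T * T - T) - (Q₀ - T) := by
      noncomm_ring
    rw [e]
    refine (norm_sub_le _ _).trans ((add_le_add (norm_add₃_le.trans (add_le_add (add_le_add
      (norm_mul_le' q2 q5) (norm_mul_le' hT1 q2)) t1)) q2).trans ?_)
    linarith
  obtain ⟨Q, p1, p2, p3, p4⟩ := exists_proj q1 (by positivity) (by linarith) t2
  have p5 : ‖Q - T‖ ≤ 644 * s :=
    (norm_sub_le_norm_sub_add_norm_sub _ Q₀ _).trans (by linarith)
  have p6 : ‖Q‖ ≤ 1 := by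
    have := CStarRing.norm_star_mul_self (x := Q)
    rw [p1, p2] at this
    nlinarith [norm_nonneg Q]
  have p7 : ∀ a, Commute (π a) Q := fun a => p4 _ (q3 a)
  have r0 : ‖cmpr V Q - 1‖ ≤ 1300 * s := by
    have e : cmpr V Q - 1 = cmpr V (Q - T) + (cmpr V 1 - 1) * cmpr V 1 + (cmpr V 1 - 1) := by
      have : cmpr V T = cmpr V 1 * cmpr V 1 := rfl
      rw [map_sub, this]
      noncomm_ring
    rw [e]
    refine norm_add₃_le.trans ((add_le_add (add_le_add (nc p5) (norm_mul_le' c1 c2)) c1).trans ?_)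
    linarith
  obtain ⟨R, r1, r2, r3, r4⟩ := exists_inv_sqrt (d := cmpr V Q) (by rw [← cmpr_star, p1])
    (by positivity) (by linarith) r0
  have r5 : ‖R‖ ≤ 2 := (norm_le_of_sub r3 norm_one_le').trans (by linarith)
  have key : Q * emb V (R * R) * Q = Q := by
    set P := Q * emb V (R * R) * Q with hP
    have k1 : P * P = P := by
      calc P * P = Q * (emb V (R * R) * (Q * Q) * emb V (R * R)) * Q := by
            rw [hP]; noncomm_ring
        _ = Q * emb V (R * (R * cmpr V Q * R) * R) * Q := by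
            rw [p2, emb_mul]; congr 3
        _ = P := by rw [r2, mul_one]
    have k2 : Q * P = P := by rw [hP, ← mul_assoc, ← mul_assoc, p2]
    have k3 : P * Q = P := by rw [hP, mul_assoc, p2]
    refine (sub_eq_zero.1 (eq_zero_of_idem ?_ ?_)).symm
    · rw [sub_mul, mul_sub, mul_sub, p2, k1, k2, k3]
      abel
    · have e : Q - P = Q * ((Q - T) - emb V ((R - 1) * R + (R - 1))) * Q := by
        have : (R - 1) * R + (R - 1) = R * R - 1 := by noncomm_ring
        rw [this, map_sub, ← hT, hP]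
        calc _ = Q * Q * Q - Q * emb V (R * R) * Q := by rw [p2, p2]
          _ = _ := by noncomm_ring
      rw [e]
      refine (norm_mul_le' (norm_mul_le' p6 ((norm_sub_le _ _).trans (add_le_add p5
        (ne ((norm_add_le _ _).trans (add_le_add (norm_mul_le' r3 r5) r3)))))) p6).trans_lt ?_
      linarith
  let ψ : A →⋆ₙₐ[ℂ] (H →L[ℂ] H) :=
    { toFun := fun a => R * cmpr V (Q * π a) * R
      map_smul' := fun c a => by simp
      map_zero' := by simp
      map_add' := fun a b => by simp [mul_add, add_mul]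
      map_mul' := fun a b => by
        calc R * cmpr V (Q * π (a * b)) * R
            = R * cmpr V (π a * (Q * emb V (R * R) * Q) * π b) * R := by
              rw [key, map_mul π, (p7 a).eq, mul_assoc Q]
          _ = R * cmpr V (Q * π a * emb V (R * R) * (Q * π b)) * R := by
              rw [← (p7 a).eq]; congr 3
          _ = _ := by rw [cmpr_mul]; noncomm_ring
      map_star' := fun a => by
        rw [star_mul, star_mul, r1, ← cmpr_star, star_mul, p1, ← map_star π,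
          (p7 _).eq, mul_assoc] }
  have hψ : ∀ a, ψ a = R * cmpr V (Q * π a) * R := fun _ => rfl
  refine ⟨ψ, fun a => ?_, fun w hw hw1 hw2 a => ?_⟩
  · have n1 : ‖π a‖ ≤ ‖a‖ := NonUnitalStarAlgHom.norm_apply_le π a
    have n2 := nc (norm_mul_le' p6 n1)
    have e : ψ a - Φ a = (R - 1) * cmpr V (Q * π a) * R + cmpr V (Q * π a) * (R - 1) +
        cmpr V ((Q - T) * π a) + (cmpr V 1 - 1) * cmpr V (π a) + (cmpr V (π a) - Φ a) := by
      have : cmpr V (T * π a) = cmpr V 1 * cmpr V (π a) := rfl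
      rw [hψ, sub_mul Q, map_sub, this]
      noncomm_ring
    rw [e]
    refine (norm_add_le _ _).trans ((add_le_add ((norm_add_le _ _).trans (add_le_add
      (norm_add₃_le.trans (add_le_add (add_le_add (norm_mul_le' (norm_mul_le' r3 n2) r5)
        (norm_mul_le' n2 r3)) (nc (norm_mul_le' p5 n1)))) (norm_mul_le' c1 (nc n1))))
      (hL a)).trans ?_)
    have := mul_le_mul_of_nonneg_right hβs (norm_nonneg a)
    have := mul_le_mul_of_nonneg_right hs2 (norm_nonneg a)
    nlinarith [mul_nonneg hη.le (norm_nonneg a)]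
  · obtain ⟨σ, s1, s2, s3⟩ := hσ w hw (hL2 w hw1 hw2)
    have s4 : Commute σ Q := p4 _ (q4 σ (commute_emb_one s1 s2) s3)
    have s5 : Commute w R := r4 _ (commute_cmpr s1 s2 s4)
    rw [hψ]
    exact (s5.mul_right (commute_cmpr s1 s2 (s4.mul_right (s3 a)))).mul_right s5

end

end Pool.Agent.P.MP_a35bd4_an
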