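import Pool.Agent.P.MP_a35bd4_an.GL

/-! Weak operator ultralimits and the completely positive approximant. -/

open scoped BigOperators InnerProductSpace Matrix.Norms.L2Operator Topology
open Filter

namespace Pool.Agent.P.MP_a35bd4_an

noncomputable section

universe u v

section wot

variable {H : Type*} [NormedAddCommGroup H] [InnerProductSpace ℂ H] [CompleteSpace H]
  {I : Type*} {F : Filter I} {T T' : I → H →L[ℂ] H} {S S' : H →L[ℂ] H}

/-- weak operator convergence along a filter -/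
def WT (F : Filter I) (T : I → H →L[ℂ] H) (S : H →L[ℂ] H) : Prop :=
  ∀ ζ η : H, Tendsto (fun i => ⟪η, T i ζ⟫_ℂ) F (𝓝 ⟪η, S ζ⟫_ℂ)

lemma exists_WT (𝒰 : Ultrafilter I) (T : I → H →L[ℂ] H) {C : ℝ} (hT : ∀ i, ‖T i‖ ≤ C) :
    ∃ S, WT (𝒰 : Filter I) T S := by
  have hb : ∀ (ζ η : H) i, ‖⟪T i ζ, η⟫_ℂ‖ ≤ C * ‖ζ‖ * ‖η‖ := fun ζ η i =>
    (norm_inner_le_norm _ _).trans (mul_le_mul_of_nonneg_right
      ((T i).le_of_opNorm_le (hT i) ζ) (norm_nonneg _))
  have h : ∀ ζ η : H, ∃ b, Tendsto (fun i => ⟪T i ζ, η⟫_ℂ) 𝒰 (𝓝 b) := fun ζ η => by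
    obtain ⟨b, -, hb⟩ := (isCompact_closedBall (0 : ℂ) (C * ‖ζ‖ * ‖η‖)).ultrafilter_le_nhds
      (𝒰.map fun i => ⟪T i ζ, η⟫_ℂ) (by
        rw [le_principal_iff]
        exact mem_map.2 (Eventually.of_forall fun i => by simpa using hb ζ η i))
    exact ⟨b, hb⟩
  choose b hb' using h
  let B : H →ₗ⋆[ℂ] H →ₗ[ℂ] ℂ := LinearMap.mk₂'ₛₗ (starRingEnd ℂ) (RingHom.id ℂ) b
    (fun x y z => tendsto_nhds_unique (hb' _ _) (by
      simpa only [map_add, inner_add_left] using (hb' x z).add (hb' y z)))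
    (fun c x z => tendsto_nhds_unique (hb' _ _) (by
      simpa only [map_smul, inner_smul_left, smul_eq_mul] using (hb' x z).const_mul _))
    (fun x y z => tendsto_nhds_unique (hb' _ _) (by
      simpa only [inner_add_right] using (hb' x y).add (hb' x z)))
    (fun c x z => tendsto_nhds_unique (hb' _ _) (by
      simpa only [inner_smul_right, smul_eq_mul, RingHom.id_apply] using (hb' x z).const_mul _))
  let B' := B.mkContinuous₂ C fun x y => le_of_tendsto' (hb' x y).norm (hb x y)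
  refine ⟨InnerProductSpace.continuousLinearMapOfBilin B', fun ζ η => ?_⟩
  have := (Complex.continuous_conj.tendsto _).comp (hb' ζ η)
  simp only [Function.comp_def, inner_conj_symm] at this
  rw [← inner_conj_symm, InnerProductSpace.continuousLinearMapOfBilin_apply]
  exact this

omit [CompleteSpace H] in
lemma WT.unique [F.NeBot] (h : WT F T S) (h' : WT F T S') : S = S' := by
  ext ζ
  exact ext_inner_left ℂ fun η => tendsto_nhds_unique (h ζ η) (h' ζ η)

omit [CompleteSpace H] in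
lemma WT.add (h : WT F T S) (h' : WT F T' S') : WT F (fun i => T i + T' i) (S + S') :=
  fun ζ η => by
    simpa only [ContinuousLinearMap.add_apply, inner_add_right] using (h ζ η).add (h' ζ η)

omit [CompleteSpace H] in
lemma WT.sub (h : WT F T S) (h' : WT F T' S') : WT F (fun i => T i - T' i) (S - S') :=
  fun ζ η => by
    simpa only [ContinuousLinearMap.sub_apply, inner_sub_right] using (h ζ η).sub (h' ζ η)

omit [CompleteSpace H] in
lemma WT.smul (h : WT F T S) (c : ℂ) : WT F (fun i => c • T i) (c • S) :=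
  fun ζ η => by
    simpa only [ContinuousLinearMap.smul_apply, inner_smul_right] using (h ζ η).const_mul c

omit [CompleteSpace H] in
lemma WT.const (S : H →L[ℂ] H) : WT F (fun _ => S) S := fun _ _ => tendsto_const_nhds

omit [CompleteSpace H] in
lemma WT.mul_right (h : WT F T S) (R : H →L[ℂ] H) : WT F (fun i => T i * R) (S * R) :=
  fun ζ η => h (R ζ) η

lemma WT.mul_left (h : WT F T S) (R : H →L[ℂ] H) : WT F (fun i => R * T i) (R * S) :=
  fun ζ η => by
    simpa only [ContinuousLinearMap.mul_apply, ← ContinuousLinearMap.adjoint_inner_left R] using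
      h ζ (ContinuousLinearMap.adjoint R η)

lemma WT.star (h : WT F T S) : WT F (fun i => star (T i)) (star S) := fun ζ η => by
  have := (Complex.continuous_conj.tendsto _).comp (h η ζ)
  simpa only [ContinuousLinearMap.star_eq_adjoint, ContinuousLinearMap.adjoint_inner_right,
    Function.comp_def, inner_conj_symm] using this

omit [CompleteSpace H] in
lemma WT.norm_le [F.NeBot] (h : WT F T S) {c : ℝ} (hc : 0 ≤ c) {r : I → ℝ}
    (hr : Tendsto r F (𝓝 0)) (hT : ∀ i, ‖T i‖ ≤ c + r i) : ‖S‖ ≤ c := by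
  refine norm_le_of_re_inner _ hc fun ζ η hζ hη => ?_
  have h1 := (Complex.continuous_re.tendsto _).comp (h ζ η)
  have h2 := hr.const_add c
  rw [add_zero] at h2
  exact le_of_tendsto_of_tendsto' h1 h2 fun i =>
    (le_abs_self _).trans ((abs_re_inner_le _ hζ hη).trans (hT i))

lemma WT.commute [F.NeBot] (h : WT F T S) {R : H →L[ℂ] H} {r : I → ℝ}
    (hr : Tendsto r F (𝓝 0)) (hT : ∀ i, ‖R * T i - T i * R‖ ≤ r i) : Commute R S := by
  have := ((h.mul_left R).sub (h.mul_right R)).norm_le le_rfl hr (by simpa using hT)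
  exact sub_eq_zero.1 (norm_le_zero_iff.1 this)

end wot

lemma HasEC.exists_net {A : Type u} [CStarAlgebra A] [PartialOrder A] (hA : HasEC A) :
    ∃ (I : Type u) (𝒰 : Ultrafilter I) (d : I → ECData A),
      ∀ a, Tendsto (fun i => ‖sand (d i).z ((d i).Y a) - a‖) 𝒰 (𝓝 0) := by
  classical
  choose d hd using fun i : Finset A × ℕ => hA i.1 (1 / ((i.2 : ℝ) + 1)) (by positivity)
  refine ⟨Finset A × ℕ, Ultrafilter.of atTop, d, fun a => ?_⟩
  refine Tendsto.mono_left ?_ (Ultrafilter.of_le _)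
  have h1 : Tendsto (fun i : Finset A × ℕ => 1 / ((i.2 : ℝ) + 1)) atTop (𝓝 0) :=
    tendsto_one_div_add_atTop_nhds_zero_nat.comp (by
      rw [← prod_atTop_atTop_eq]
      exact tendsto_snd)
  refine squeeze_zero' (Eventually.of_forall fun _ => norm_nonneg _) ?_ h1
  filter_upwards [eventually_ge_atTop (({a} : Finset A), 0)] with i hi
  exact hd i a (hi.1 (Finset.mem_singleton_self a))

/-- positivity of the kernel of a linear map -/
def PosKer {A : Type*} [Ring A] [StarRing A] [Algebra ℂ A] {H : Type*} [NormedAddCommGroup H]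
    [InnerProductSpace ℂ H] (L : A →ₗ[ℂ] H →L[ℂ] H) : Prop :=
  ∀ (n : ℕ) (a : Fin n → A) (v : Fin n → H), 0 ≤ (∑ i, ∑ j, ⟪v i, L (star (a i) * a j) (v j)⟫_ℂ).re

theorem exists_cp (β : ℝ) (hβ : 0 < β) : ∃ ε₀ : ℝ, 0 < ε₀ ∧
    ∀ {A : Type u} [CStarAlgebra A] [PartialOrder A] [StarOrderedRing A] {H : Type v}
      [NormedAddCommGroup H] [InnerProductSpace ℂ H] [CompleteSpace H] {Φ : A → H →L[ℂ] H}
      {ε : ℝ}, QH Φ ε → ε ≤ ε₀ → HasEC A → ∃ L : A →ₗ[ℂ] H →L[ℂ] H,
        (∀ a, ‖L a - Φ a‖ ≤ β * ‖a‖) ∧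
        (∀ T, (∀ a, Commute T (Φ a)) → (∀ a, Commute (star T) (Φ a)) → ∀ a, Commute T (L a)) ∧
        (∀ a, L (star a) = star (L a)) ∧ PosKer L := by
  obtain ⟨ε₁, hε₁, hGL⟩ := exists_GL.{u, v} (β / 2) (by positivity)
  refine ⟨min ε₁ (min 1 (β / 2)), by positivity, ?_⟩
  intro A _ _ _ H _ _ _ Φ ε h hε hA
  have hε1 : ε ≤ 1 := hε.trans ((min_le_right _ _).trans (min_le_left _ _))
  have hε2 : ε ≤ β / 2 := hε.trans ((min_le_right _ _).trans (min_le_right _ _))
  have hε0 := h.eps_nonneg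
  choose W hW1 hW2 using hGL h (hε.trans (min_le_left _ _)) hA
  obtain ⟨I, 𝒰, d, hd⟩ := hA.exists_net
  let Li : I → A →ₗ[ℂ] H →L[ℂ] H := fun i => (sand (W (d i))).comp (d i).Y
  have b0 : ∀ i a, ‖Li i a - Φ (sand (d i).z ((d i).Y a))‖ ≤ β / 2 * ‖a‖ := fun i a => by
    rw [norm_sub_rev]
    exact (hW2 _ _).trans (mul_le_mul_of_nonneg_left ((d i).cp.norm_le (d i).one a)
      (by positivity))
  have b1 : ∀ i a, ‖Li i a - Φ a‖ ≤ β * ‖a‖ + 4 * ‖sand (d i).z ((d i).Y a) - a‖ := fun i a => by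
    set r := sand (d i).z ((d i).Y a) - a with hr
    have c1 := h.add a r
    have c2 := h.norm_le r
    have c3 := b0 i a
    rw [show a + r = sand (d i).z ((d i).Y a) by simp [hr]] at c1
    have e : Li i a - Φ a = (Li i a - Φ (sand (d i).z ((d i).Y a))) +
        (Φ (sand (d i).z ((d i).Y a)) - Φ a - Φ r) + Φ r := by abel
    rw [e]
    refine (norm_add₃_le).trans ?_
    have := mul_le_mul_of_nonneg_right hε1 (norm_nonneg r)
    have := mul_le_mul_of_nonneg_right hε2 (norm_nonneg a)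
    nlinarith
  have b2 : ∀ i a, ‖Li i a‖ ≤ β / 2 * ‖a‖ + 3 * (4 * ‖a‖) := fun i a => by
    obtain ⟨U, c, hy, hc⟩ := CStarAlgebra.exists_sum_four_unitary ((d i).Y a)
    have hz : ‖∑ e, star ((d i).z e) * (d i).z e‖ ≤ 1 := by
      rw [(d i).col]
      simpa using norm_smul_one_le (A := A) 1 zero_le_one
    have c1 : ‖sand (d i).z ((d i).Y a)‖ ≤ 4 * ‖a‖ := by
      rw [hy, map_sum]
      refine (norm_sum_le _ _).trans ?_
      have : ∀ k, ‖sand (d i).z (c k • (U k : Matrix _ _ ℂ))‖ ≤ ‖a‖ := fun k => by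
        rw [map_smul, norm_smul]
        have := mul_le_mul ((hc k).trans (div_le_div_of_nonneg_right
          ((d i).cp.norm_le (d i).one a) zero_le_two)) (norm_sand_le _ hz (U k).2) (norm_nonneg _)
          (by positivity)
        linarith
      simpa using Finset.sum_le_sum (s := Finset.univ) fun k _ => this k
    have c2 := h.norm_le (sand (d i).z ((d i).Y a))
    have c3 := norm_le_norm_sub_add (Li i a) (Φ (sand (d i).z ((d i).Y a)))
    linarith [b0 i a]
  choose L0 hL0 using fun a => exists_WT 𝒰 (fun i => Li i a) (b2 · a)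
  let L : A →ₗ[ℂ] H →L[ℂ] H :=
    { toFun := L0
      map_add' := fun a b => (hL0 _).unique (by simpa only [map_add] using (hL0 a).add (hL0 b))
      map_smul' := fun c a => (hL0 _).unique (by
        simpa only [map_smul, RingHom.id_apply] using (hL0 a).smul c) }
  refine ⟨L, fun a => ?_, fun T hT hT' a => ?_, fun a => ?_, fun n a v => ?_⟩
  · refine ((hL0 a).sub (WT.const (Φ a))).norm_le (by positivity) ?_ (b1 · a)
    simpa using (hd a).const_mul 4
  · refine (hL0 a).commute tendsto_const_nhds fun i => le_of_eq ?_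
    have : Commute T (Li i a) := by
      simp only [Li, LinearMap.comp_apply, sand_apply]
      refine Commute.sum_right _ _ _ fun e _ => Commute.sum_right _ _ _ fun e' _ => ?_
      refine (Commute.mul_right ?_ (hW1 _ T hT e')).smul_right _
      simpa using (hW1 _ _ hT' e).star_star
    simp [this.eq]
  · refine (hL0 _).unique ?_
    have := (hL0 a).star
    simp only [Li, LinearMap.comp_apply, ← sand_star, ← (d _).cp.map_star] at this
    exact this
  · have h1 : Tendsto (fun k => (∑ i, ∑ j, ⟪v i, Li k (star (a i) * a j) (v j)⟫_ℂ).re) 𝒰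
        (𝓝 (∑ i, ∑ j, ⟪v i, L (star (a i) * a j) (v j)⟫_ℂ).re) :=
      (Complex.continuous_re.tendsto _).comp
        (tendsto_finsetSum _ fun i _ => tendsto_finsetSum _ fun j _ => hL0 _ _ _)
    refine ge_of_tendsto' h1 fun k => ?_
    have := sum_inner_nonneg (fun p : Fin n × (d k).E => W (d k) p.2 (v p.1)) ((d k).cp n a)
    refine this.trans_eq (congrArg Complex.re (Eq.symm ?_))
    simp only [Li, LinearMap.comp_apply, sand_apply, ContinuousLinearMap.sum_apply, inner_sum,
      ContinuousLinearMap.smul_apply, inner_smul_right, re_inner_star_mul, Fintype.sum_prod_type,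
      Matrix.of_apply]
    exact Finset.sum_congr rfl fun i _ => Finset.sum_comm

end

end Pool.Agent.P.MP_a35bd4_an
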